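import Pool.Agent.H9.BX.Ang12

/-!
# The volume of the closures of `(s_1^2 s_2^{-2})^n` as the maximal volume of the angle structures of
the layered triangulation, the axis filled
-/

set_option autoImplicit false
set_option linter.all false

namespace Pool.Agent.H9.TP

open Finset
open scoped Real

/-- sums over `4 n` layers -/
theorem sum4 (f : ℕ → ℝ) (n : ℕ) : ∑ i ∈ range (4 * n), f i =
    ∑ r ∈ range n, (f (4 * r) + f (4 * r + 1) + f (4 * r + 2) + f (4 * r + 3)) := by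
  induction n with
  | zero => simp
  | succ n ih =>
    rw [sum_range_succ, ← ih, show 4 * (n + 1) = 4 * n + 1 + 1 + 1 + 1 by ring, sum_range_succ,
      sum_range_succ, sum_range_succ, sum_range_succ]
    ring

/-- the sum of `g` over the layers congruent to `k` -/
noncomputable def Sg (n : ℕ) (g : ℤ → ℝ) (k : ℤ) : ℝ := ∑ r ∈ range n, g (4 * r + k)

theorem Sg_shift {n : ℕ} {g : ℤ → ℝ} (hg : ∀ i, g (i + 4 * n) = g i) (k : ℤ) :
    Sg n g (k + 4) = Sg n g k := by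
  unfold Sg
  have h1 : ∀ r : ℕ, g (4 * r + (k + 4)) = g (4 * ((r + 1 : ℕ) : ℤ) + k) := by
    intro r
    congr 1
    push_cast
    ring
  simp only [h1]
  have h2 := sum_range_succ' (fun r : ℕ => g (4 * (r : ℤ) + k)) n
  have h3 := sum_range_succ (fun r : ℕ => g (4 * (r : ℤ) + k)) n
  have h4 : g (4 * (n : ℤ) + k) = g (4 * ((0 : ℕ) : ℤ) + k) := by
    have := hg k
    rw [show 4 * (n : ℤ) + k = k + 4 * n by ring, this]
    congr 1
    simp
  linarith

/-- angle structures on the layered triangulation with the filled axis -/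
structure AngS (n : ℕ) (tz tx ty uz ux uy : ℤ → ℝ) : Prop where
  period : ∀ i, tz (i + 4 * n) = tz i ∧ tx (i + 4 * n) = tx i ∧ ty (i + 4 * n) = ty i ∧
    uz (i + 4 * n) = uz i ∧ ux (i + 4 * n) = ux i ∧ uy (i + 4 * n) = uy i
  pos : ∀ i, (0 < tz i ∧ 0 < tx i ∧ 0 < ty i ∧ tz i + tx i + ty i = π) ∧
    (0 < uz i ∧ 0 < ux i ∧ 0 < uy i ∧ uz i + ux i + uy i = π)
  even : ∀ i, Even i → uz i + (ty (i + 1) + uy (i + 1)) + tz (i + 2) = 2 * π ∧
    tz i + (ty (i + 1) + uy (i + 1)) + uz (i + 2) = 2 * π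
  odd : ∀ i, Odd i → uz i + (ty (i + 1) + uy (i + 1)) + (tx (i + 2) + ux (i + 2)) +
      (tx (i + 3) + ux (i + 3)) + tz (i + 4) = 2 * π ∧
    tz i + (ty (i + 1) + uy (i + 1)) + (tx (i + 2) + ux (i + 2)) +
      (tx (i + 3) + ux (i + 3)) + uz (i + 4) = 2 * π
  fill : ∑ r ∈ range n, (tx (4 * r) - tx (4 * r + 1) - tx (4 * r + 2) + tx (4 * r + 3)) = 2 * π

open GapVol (lob)

/-- the volume -/
noncomputable def AVol (n : ℕ) (tz tx ty uz ux uy : ℤ → ℝ) : ℝ :=
  ∑ i ∈ range (4 * n), (lob (tz i) + lob (tx i) + lob (ty i) +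
    (lob (uz i) + lob (ux i) + lob (uy i)))

/-- the sum of the volumes of the eight tetrahedra of a period -/
theorem AVol_eq (n : ℕ) (tz tx ty uz ux uy : ℤ → ℝ) : AVol n tz tx ty uz ux uy =
    ∑ r ∈ range n, ((lob (tz (4 * r)) + lob (tx (4 * r)) + lob (ty (4 * r)) +
        (lob (uz (4 * r)) + lob (ux (4 * r)) + lob (uy (4 * r)))) +
      (lob (tz (4 * r + 1)) + lob (tx (4 * r + 1)) + lob (ty (4 * r + 1)) +
        (lob (uz (4 * r + 1)) + lob (ux (4 * r + 1)) + lob (uy (4 * r + 1)))) +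
      (lob (tz (4 * r + 2)) + lob (tx (4 * r + 2)) + lob (ty (4 * r + 2)) +
        (lob (uz (4 * r + 2)) + lob (ux (4 * r + 2)) + lob (uy (4 * r + 2)))) +
      (lob (tz (4 * r + 3)) + lob (tx (4 * r + 3)) + lob (ty (4 * r + 3)) +
        (lob (uz (4 * r + 3)) + lob (ux (4 * r + 3)) + lob (uy (4 * r + 3))))) := by
  unfold AVol
  rw [sum4]
  refine sum_congr rfl fun r _ => ?_
  push_cast
  rfl

/-- the parameters -/
structure Pm (n : ℕ) (α β δ : ℝ) : Prop where
  b : 0 < β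
  d : 0 < δ
  ad : δ < α
  ab : α + β = π / 2
  nd : 4 * n * δ = 2 * π
  c : δ < π / 2
  s : Real.log (2 * Real.sin (α + δ)) + Real.log (2 * Real.sin (α - δ)) =
    2 * Real.log (2 * Real.sin β)

theorem lob_pm (δ : ℝ) : lob (π / 2 + δ) = -lob (π / 2 - δ) := by
  rw [← EvenVol.LobIneq.lob_neg, ← EvenVol.LobIneq.lob_per (-(π / 2 - δ))]
  congr 1
  ring

theorem log_pm (δ : ℝ) : Real.log (2 * Real.sin (π / 2 + δ)) =
    Real.log (2 * Real.sin (π / 2 - δ)) := by
  rw [Real.sin_pi_div_two_sub, add_comm, Real.sin_add_pi_div_two]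

/-- upper bound -/
theorem ang_le {n : ℕ} {α β δ : ℝ} (h : Pm n α β δ) {tz tx ty uz ux uy : ℤ → ℝ}
    (hA : AngS n tz tx ty uz ux uy) : AVol n tz tx ty uz ux uy ≤
      4 * n * (2 * lob β + lob (α + δ) + lob (α - δ)) := by
  have hb := h.b
  have hd := h.d
  have had := h.ad
  have hab := h.ab
  have hc := h.c
  have hlp := lob_pm δ
  obtain ⟨lc, hlc⟩ : ∃ x, Real.log (2 * Real.sin (π / 2 - δ)) = x := ⟨_, rfl⟩
  obtain ⟨ls, hls⟩ : ∃ x, Real.log (2 * Real.sin β) = x := ⟨_, rfl⟩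
  obtain ⟨lp, hlpp⟩ : ∃ x, Real.log (2 * Real.sin (α + δ)) = x := ⟨_, rfl⟩
  obtain ⟨lq, hlq⟩ : ∃ x, Real.log (2 * Real.sin (α - δ)) = x := ⟨_, rfl⟩
  have hgp : Real.log (2 * Real.sin (π / 2 + δ)) = lc := by rw [log_pm, hlc]
  have hs : lp + lq = 2 * ls := by rw [← hlpp, ← hlq, ← hls]; exact h.s
  have T := Pool.Agent.W120.VC.tet
  have key : ∀ r ∈ range n, ((lob (tz (4 * r)) + lob (tx (4 * r)) + lob (ty (4 * r)) +
        (lob (uz (4 * r)) + lob (ux (4 * r)) + lob (uy (4 * r)))) +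
      (lob (tz (4 * r + 1)) + lob (tx (4 * r + 1)) + lob (ty (4 * r + 1)) +
        (lob (uz (4 * r + 1)) + lob (ux (4 * r + 1)) + lob (uy (4 * r + 1)))) +
      (lob (tz (4 * r + 2)) + lob (tx (4 * r + 2)) + lob (ty (4 * r + 2)) +
        (lob (uz (4 * r + 2)) + lob (ux (4 * r + 2)) + lob (uy (4 * r + 2)))) +
      (lob (tz (4 * r + 3)) + lob (tx (4 * r + 3)) + lob (ty (4 * r + 3)) +
        (lob (uz (4 * r + 3)) + lob (ux (4 * r + 3)) + lob (uy (4 * r + 3))))) ≤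
      4 * (2 * lob β + lob (α + δ) + lob (α - δ)) -
      (lc * (tz (4 * r) - (π / 2 - δ)) + lp * (tx (4 * r) - (α + δ)) + ls * (ty (4 * r) - β) +
       (lc * (uz (4 * r) - (π / 2 - δ)) + ls * (ux (4 * r) - β) + lp * (uy (4 * r) - (α + δ))) +
       (ls * (tz (4 * r + 1) - β) + lq * (tx (4 * r + 1) - (α - δ)) +
          lc * (ty (4 * r + 1) - (π / 2 + δ))) +
       (ls * (uz (4 * r + 1) - β) + lp * (ux (4 * r + 1) - (α + δ)) +
          lc * (uy (4 * r + 1) - (π / 2 - δ))) +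
       (lc * (tz (4 * r + 2) - (π / 2 + δ)) + lq * (tx (4 * r + 2) - (α - δ)) +
          ls * (ty (4 * r + 2) - β)) +
       (lc * (uz (4 * r + 2) - (π / 2 + δ)) + ls * (ux (4 * r + 2) - β) +
          lq * (uy (4 * r + 2) - (α - δ))) +
       (ls * (tz (4 * r + 3) - β) + lp * (tx (4 * r + 3) - (α + δ)) +
          lc * (ty (4 * r + 3) - (π / 2 - δ))) +
       (ls * (uz (4 * r + 3) - β) + lq * (ux (4 * r + 3) - (α - δ)) +
          lc * (uy (4 * r + 3) - (π / 2 + δ)))) := by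
    intro r _
    obtain ⟨⟨a1, a2, a3, a4⟩, b1, b2, b3, b4⟩ := hA.pos (4 * r)
    obtain ⟨⟨c1, c2, c3, c4⟩, d1, d2, d3, d4⟩ := hA.pos (4 * r + 1)
    obtain ⟨⟨e1, e2, e3, e4⟩, f1, f2, f3, f4⟩ := hA.pos (4 * r + 2)
    obtain ⟨⟨g1, g2, g3, g4⟩, i1, i2, i3, i4⟩ := hA.pos (4 * r + 3)
    have t1 := T (π / 2 - δ) (α + δ) β _ _ _ (by linarith) (by linarith) hb (by linarith)
      a1.le a2.le a3.le a4
    have t2 := T (π / 2 - δ) β (α + δ) _ _ _ (by linarith) hb (by linarith) (by linarith)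
      b1.le b2.le b3.le b4
    have t3 := T β (α - δ) (π / 2 + δ) _ _ _ hb (by linarith) (by linarith) (by linarith)
      c1.le c2.le c3.le c4
    have t4 := T β (α + δ) (π / 2 - δ) _ _ _ hb (by linarith) (by linarith) (by linarith)
      d1.le d2.le d3.le d4
    have t5 := T (π / 2 + δ) (α - δ) β _ _ _ (by linarith) (by linarith) hb (by linarith)
      e1.le e2.le e3.le e4
    have t6 := T (π / 2 + δ) β (α - δ) _ _ _ (by linarith) hb (by linarith) (by linarith)
      f1.le f2.le f3.le f4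
    have t7 := T β (α + δ) (π / 2 - δ) _ _ _ hb (by linarith) (by linarith) (by linarith)
      g1.le g2.le g3.le g4
    have t8 := T β (α - δ) (π / 2 + δ) _ _ _ hb (by linarith) (by linarith) (by linarith)
      i1.le i2.le i3.le i4
    rw [hgp, hlp, hls, hlq] at t3 t5 t6 t8
    rw [hlc, hls, hlpp] at t1 t2 t4 t7
    linarith
  rw [AVol_eq]
  refine (sum_le_sum key).trans ?_
  rw [sum_sub_distrib]
  have hx : ∀ (f : ℤ → ℝ) (k : ℤ), ∑ r ∈ range n, f (4 * (r : ℤ) + k) = Sg n f k :=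
    fun f k => rfl
  have hx0 : ∀ (f : ℤ → ℝ), ∑ r ∈ range n, f (4 * (r : ℤ)) = Sg n f 0 := by
    intro f
    unfold Sg
    simp
  simp only [sum_add_distrib, ← mul_sum, sum_sub_distrib, hx, hx0, sum_const, card_range,
    nsmul_eq_mul]
  -- the sums of the conditions
  have q1 : ∀ k : ℤ, Sg n tz k + Sg n tx k + Sg n ty k = n * π := by
    intro k
    unfold Sg
    rw [← sum_add_distrib, ← sum_add_distrib, sum_congr rfl fun r _ => (hA.pos _).1.2.2.2,
      sum_const, card_range, nsmul_eq_mul]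
  have q2 : ∀ k : ℤ, Sg n uz k + Sg n ux k + Sg n uy k = n * π := by
    intro k
    unfold Sg
    rw [← sum_add_distrib, ← sum_add_distrib, sum_congr rfl fun r _ => (hA.pos _).2.2.2.2,
      sum_const, card_range, nsmul_eq_mul]
  have ev : ∀ k : ℤ, Even k → Sg n uz k + (Sg n ty (k + 1) + Sg n uy (k + 1)) +
      Sg n tz (k + 2) = n * (2 * π) ∧ Sg n tz k + (Sg n ty (k + 1) + Sg n uy (k + 1)) +
      Sg n uz (k + 2) = n * (2 * π) := by
    intro k hk
    unfold Sg
    simp only [← sum_add_distrib]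
    constructor
    · rw [sum_congr rfl fun r _ => ?_, sum_const, card_range, nsmul_eq_mul]
      have := (hA.even (4 * r + k) ((by decide : Even (4 : ℤ)).mul_right _ |>.add hk)).1
      rw [← this]
      ring_nf
    · rw [sum_congr rfl fun r _ => ?_, sum_const, card_range, nsmul_eq_mul]
      have := (hA.even (4 * r + k) ((by decide : Even (4 : ℤ)).mul_right _ |>.add hk)).2
      rw [← this]
      ring_nf
  have od : ∀ k : ℤ, Odd k → Sg n uz k + (Sg n ty (k + 1) + Sg n uy (k + 1)) +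
      (Sg n tx (k + 2) + Sg n ux (k + 2)) + (Sg n tx (k + 3) + Sg n ux (k + 3)) +
      Sg n tz (k + 4) = n * (2 * π) := by
    intro k hk
    unfold Sg
    simp only [← sum_add_distrib]
    rw [sum_congr rfl fun r _ => ?_, sum_const, card_range, nsmul_eq_mul]
    have := (hA.odd (4 * r + k) ((by decide : Even (4 : ℤ)).mul_right _ |>.add_odd hk)).1
    rw [← this]
    ring_nf
  have fl := hA.fill
  simp only [sum_add_distrib, sum_sub_distrib, hx, hx0] at fl
  have pz := Sg_shift (fun i => (hA.period i).1)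
  have px := Sg_shift (fun i => (hA.period i).2.1)
  have py := Sg_shift (fun i => (hA.period i).2.2.1)
  have rz := Sg_shift (fun i => (hA.period i).2.2.2.1)
  have rx := Sg_shift (fun i => (hA.period i).2.2.2.2.1)
  have ry := Sg_shift (fun i => (hA.period i).2.2.2.2.2)
  have E0 := ev 0 (by decide)
  have E2 := ev 2 (by decide)
  have O1 := od 1 (by decide)
  have O3 := od 3 (by decide)
  have pz0 := pz 0
  have rz0 := rz 0
  have px0 := px 0
  have rx0 := rx 0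
  have py0 := py 0
  have ry0 := ry 0
  have px1 := px 1
  have rx1 := rx 1
  have px2 := px 2
  have rx2 := rx 2
  have pz1 := pz 1
  have pz3 := pz 3
  norm_num at E0 E2 O1 O3 pz0 rz0 px0 rx0 py0 ry0 px1 rx1 px2 rx2 pz1 pz3
  rw [pz0, rz0] at E2
  rw [px0, rx0, pz1] at O1
  rw [py0, ry0, px1, rx1, px2, rx2, pz3] at O3
  have u0 := q1 0
  have u1 := q1 1
  have u2 := q1 2
  have u3 := q1 3
  have v0 := q2 0
  have v1 := q2 1
  have v2 := q2 2
  have v3 := q2 3
  have hnd := h.nd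
  have nab : n * α + n * β = n * (π / 2) := by rw [← mul_add, hab]
  have X : Sg n tz 0 + Sg n uz 0 + Sg n ty 1 + Sg n uy 1 + Sg n tz 2 + Sg n uz 2 + Sg n ty 3 +
      Sg n uy 3 = 4 * n * π := by linarith [E0.1, E0.2, E2.1, E2.2]
  have Y : Sg n tx 0 + Sg n uy 0 + Sg n ux 1 + Sg n tx 3 -
      (Sg n tx 1 + Sg n tx 2 + Sg n uy 2 + Sg n ux 3) = 4 * π := by
    linarith [E0.1, E0.2, E2.1, E2.2]
  have hq : lq = 2 * ls - lp := by linarith
  rw [hq]
  have Z : Sg n ty 0 + Sg n ux 0 + Sg n tz 1 + Sg n uz 1 + Sg n ty 2 + Sg n ux 2 + Sg n tz 3 +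
      Sg n uz 3 + 2 * (Sg n tx 1 + Sg n tx 2 + Sg n uy 2 + Sg n ux 3) =
      8 * n * β + 8 * n * (α - δ) := by
    linarith
  refine le_of_eq ?_
  linear_combination (-lc) * X - lp * Y - ls * Z + lp * 2 * hnd

end Pool.Agent.H9.TP
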