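import Pool.Agent.H9.TP.Ang

/-!
# The angle structure of maximal volume
-/

set_option autoImplicit false
set_option linter.all false

namespace Pool.Agent.H9.TP

open Finset
open scoped Real
open GapVol (lob)

/-- a function of the residue modulo `4` -/
noncomputable def pk (a b c d : ℝ) (i : ℤ) : ℝ :=
  if i % 4 = 0 then a else if i % 4 = 1 then b else if i % 4 = 2 then c else d

variable {a b c d : ℝ} {i : ℤ}

theorem pk0 (h : i % 4 = 0) : pk a b c d i = a := by simp [pk, h]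
theorem pk1 (h : i % 4 = 1) : pk a b c d i = b := by simp [pk, h]
theorem pk2 (h : i % 4 = 2) : pk a b c d i = c := by simp [pk, h]
theorem pk3 (h : i % 4 = 3) : pk a b c d i = d := by simp [pk, h]

theorem mod4 (i : ℤ) : i % 4 = 0 ∨ i % 4 = 1 ∨ i % 4 = 2 ∨ i % 4 = 3 := by omega

theorem angR {n : ℕ} {α β δ : ℝ} (h : Pm n α β δ) :
    AngS n (pk (π / 2 - δ) β (π / 2 + δ) β) (pk (α + δ) (α - δ) (α - δ) (α + δ))
      (pk β (π / 2 + δ) β (π / 2 - δ)) (pk (π / 2 - δ) β (π / 2 + δ) β)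
      (pk β (α + δ) β (α - δ)) (pk (α + δ) (π / 2 - δ) (α - δ) (π / 2 + δ)) := by
  have hb := h.b
  have hd := h.d
  have had := h.ad
  have hab := h.ab
  have hc := h.c
  have hnd := h.nd
  constructor
  · intro i
    have h1 : (i + 4 * n) % 4 = i % 4 := by omega
    unfold pk
    rw [h1]
    simp
  · intro i
    rcases mod4 i with h0 | h0 | h0 | h0
    · simp only [pk0 h0]
      refine ⟨⟨?_, ?_, ?_, ?_⟩, ?_, ?_, ?_, ?_⟩ <;> linarith
    · simp only [pk1 h0]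
      refine ⟨⟨?_, ?_, ?_, ?_⟩, ?_, ?_, ?_, ?_⟩ <;> linarith
    · simp only [pk2 h0]
      refine ⟨⟨?_, ?_, ?_, ?_⟩, ?_, ?_, ?_, ?_⟩ <;> linarith
    · simp only [pk3 h0]
      refine ⟨⟨?_, ?_, ?_, ?_⟩, ?_, ?_, ?_, ?_⟩ <;> linarith
  · intro i hi
    have h2 : i % 4 = 0 ∨ i % 4 = 2 := by
      obtain ⟨m, hm⟩ := hi
      omega
    rcases h2 with h0 | h0
    · have k1 : (i + 1) % 4 = 1 := by omega
      have k2 : (i + 2) % 4 = 2 := by omega
      simp only [pk0 h0, pk1 k1, pk2 k2]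
      constructor <;> linarith
    · have k1 : (i + 1) % 4 = 3 := by omega
      have k2 : (i + 2) % 4 = 0 := by omega
      simp only [pk2 h0, pk3 k1, pk0 k2]
      constructor <;> linarith
  · intro i hi
    have h2 : i % 4 = 1 ∨ i % 4 = 3 := by
      obtain ⟨m, hm⟩ := hi
      omega
    rcases h2 with h0 | h0
    · have k1 : (i + 1) % 4 = 2 := by omega
      have k2 : (i + 2) % 4 = 3 := by omega
      have k3 : (i + 3) % 4 = 0 := by omega
      have k4 : (i + 4) % 4 = 1 := by omega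
      simp only [pk1 h0, pk2 k1, pk3 k2, pk0 k3, pk1 k4]
      constructor <;> linarith
    · have k1 : (i + 1) % 4 = 0 := by omega
      have k2 : (i + 2) % 4 = 1 := by omega
      have k3 : (i + 3) % 4 = 2 := by omega
      have k4 : (i + 4) % 4 = 3 := by omega
      simp only [pk3 h0, pk0 k1, pk1 k2, pk2 k3, pk3 k4]
      constructor <;> linarith
  · have h1 : ∀ r ∈ range n, (pk (α + δ) (α - δ) (α - δ) (α + δ) (4 * (r : ℤ)) -
        pk (α + δ) (α - δ) (α - δ) (α + δ) (4 * (r : ℤ) + 1) -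
        pk (α + δ) (α - δ) (α - δ) (α + δ) (4 * (r : ℤ) + 2) +
        pk (α + δ) (α - δ) (α - δ) (α + δ) (4 * (r : ℤ) + 3)) = 4 * δ := by
      intro r _
      rw [pk0 (by omega), pk1 (by omega), pk2 (by omega), pk3 (by omega)]
      ring
    rw [sum_congr rfl h1, sum_const, card_range, nsmul_eq_mul]
    linarith

theorem volR {n : ℕ} {α β δ : ℝ} :
    AVol n (pk (π / 2 - δ) β (π / 2 + δ) β) (pk (α + δ) (α - δ) (α - δ) (α + δ))
      (pk β (π / 2 + δ) β (π / 2 - δ)) (pk (π / 2 - δ) β (π / 2 + δ) β)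
      (pk β (α + δ) β (α - δ)) (pk (α + δ) (π / 2 - δ) (α - δ) (π / 2 + δ)) =
      4 * n * (2 * lob β + lob (α + δ) + lob (α - δ)) := by
  rw [AVol_eq]
  have h1 : ∀ r ∈ range n, ((lob (pk (π / 2 - δ) β (π / 2 + δ) β (4 * (r : ℤ))) +
        lob (pk (α + δ) (α - δ) (α - δ) (α + δ) (4 * (r : ℤ))) +
        lob (pk β (π / 2 + δ) β (π / 2 - δ) (4 * (r : ℤ))) +
        (lob (pk (π / 2 - δ) β (π / 2 + δ) β (4 * (r : ℤ))) +
        lob (pk β (α + δ) β (α - δ) (4 * (r : ℤ))) +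
        lob (pk (α + δ) (π / 2 - δ) (α - δ) (π / 2 + δ) (4 * (r : ℤ))))) +
      (lob (pk (π / 2 - δ) β (π / 2 + δ) β (4 * (r : ℤ) + 1)) +
        lob (pk (α + δ) (α - δ) (α - δ) (α + δ) (4 * (r : ℤ) + 1)) +
        lob (pk β (π / 2 + δ) β (π / 2 - δ) (4 * (r : ℤ) + 1)) +
        (lob (pk (π / 2 - δ) β (π / 2 + δ) β (4 * (r : ℤ) + 1)) +
        lob (pk β (α + δ) β (α - δ) (4 * (r : ℤ) + 1)) +
        lob (pk (α + δ) (π / 2 - δ) (α - δ) (π / 2 + δ) (4 * (r : ℤ) + 1)))) +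
      (lob (pk (π / 2 - δ) β (π / 2 + δ) β (4 * (r : ℤ) + 2)) +
        lob (pk (α + δ) (α - δ) (α - δ) (α + δ) (4 * (r : ℤ) + 2)) +
        lob (pk β (π / 2 + δ) β (π / 2 - δ) (4 * (r : ℤ) + 2)) +
        (lob (pk (π / 2 - δ) β (π / 2 + δ) β (4 * (r : ℤ) + 2)) +
        lob (pk β (α + δ) β (α - δ) (4 * (r : ℤ) + 2)) +
        lob (pk (α + δ) (π / 2 - δ) (α - δ) (π / 2 + δ) (4 * (r : ℤ) + 2)))) +
      (lob (pk (π / 2 - δ) β (π / 2 + δ) β (4 * (r : ℤ) + 3)) +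
        lob (pk (α + δ) (α - δ) (α - δ) (α + δ) (4 * (r : ℤ) + 3)) +
        lob (pk β (π / 2 + δ) β (π / 2 - δ) (4 * (r : ℤ) + 3)) +
        (lob (pk (π / 2 - δ) β (π / 2 + δ) β (4 * (r : ℤ) + 3)) +
        lob (pk β (α + δ) β (α - δ) (4 * (r : ℤ) + 3)) +
        lob (pk (α + δ) (π / 2 - δ) (α - δ) (π / 2 + δ) (4 * (r : ℤ) + 3))))) =
      4 * (2 * lob β + lob (α + δ) + lob (α - δ)) := by
    intro r _
    have k0 : (4 * (r : ℤ)) % 4 = 0 := by omega
    have k1 : (4 * (r : ℤ) + 1) % 4 = 1 := by omega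
    have k2 : (4 * (r : ℤ) + 2) % 4 = 2 := by omega
    have k3 : (4 * (r : ℤ) + 3) % 4 = 3 := by omega
    simp only [pk0 k0, pk1 k1, pk2 k2, pk3 k3, lob_pm]
    ring
  rw [sum_congr rfl h1, sum_const, card_range, nsmul_eq_mul]
  ring

/-- the parameters of the structure of maximal volume -/
theorem pm {n : ℕ} (hn : 2 ≤ n) : Pm n (π / 2 - Real.arccos (Real.sin (π / (2 * n)) ^ 2) / 2)
    (Real.arccos (Real.sin (π / (2 * n)) ^ 2) / 2) (π / (2 * n)) := by
  have hpi := Real.pi_pos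
  have hn' : (2 : ℝ) ≤ n := by exact_mod_cast hn
  have hn0 : (0 : ℝ) < n := by linarith
  obtain ⟨δ, hδ⟩ : ∃ x, x = π / (2 * (n : ℝ)) := ⟨_, rfl⟩
  rw [← hδ]
  have hd0 : 0 < δ := by rw [hδ]; positivity
  have hd2 : δ ≤ π / 4 := by
    rw [hδ, div_le_div_iff₀ (by positivity) (by norm_num)]
    nlinarith
  have hs0 : 0 < Real.sin δ := Real.sin_pos_of_pos_of_lt_pi hd0 (by linarith)
  have hc0 : 0 < Real.cos δ := Real.cos_pos_of_mem_Ioo ⟨by linarith, by linarith⟩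
  have hsc := Real.sin_sq_add_cos_sq δ
  have hs1 : Real.sin δ ^ 2 < 1 := by nlinarith
  obtain ⟨γ, hγ⟩ : ∃ x, x = Real.arccos (Real.sin δ ^ 2) := ⟨_, rfl⟩
  rw [← hγ]
  have hγ0 : 0 < γ := by rw [hγ]; exact Real.arccos_pos.2 hs1
  have hγπ : γ ≤ π := by rw [hγ]; exact Real.arccos_le_pi _
  have hcγ : Real.cos γ = Real.sin δ ^ 2 := by
    rw [hγ, Real.cos_arccos (by nlinarith) hs1.le]
  have hγd : γ < π - 2 * δ := by
    by_contra hcon
    push Not at hcon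
    have h1 : Real.cos γ ≤ Real.cos (π - 2 * δ) :=
      Real.cos_le_cos_of_nonneg_of_le_pi (by linarith) hγπ hcon
    rw [Real.cos_pi_sub, Real.cos_two_mul, hcγ] at h1
    nlinarith
  have hc2 : Real.cos γ = 1 - 2 * Real.sin (γ / 2) ^ 2 := by
    have := Real.cos_sq' (γ / 2)
    have h2 := Real.cos_two_mul (γ / 2)
    rw [show 2 * (γ / 2) = γ by ring] at h2
    rw [h2, this]
    ring
  have hsg : 0 < Real.sin (γ / 2) := Real.sin_pos_of_pos_of_lt_pi (by linarith) (by linarith)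
  have p1 : 0 < Real.sin (π / 2 - γ / 2 + δ) :=
    Real.sin_pos_of_pos_of_lt_pi (by linarith) (by linarith)
  have p2 : 0 < Real.sin (π / 2 - γ / 2 - δ) :=
    Real.sin_pos_of_pos_of_lt_pi (by linarith) (by linarith)
  refine ⟨by linarith, hd0, by linarith, by ring, ?_, by linarith, ?_⟩
  · rw [hδ]
    field_simp
    norm_num
  · rw [← Real.log_mul (by positivity) (by positivity)]
    rw [show (2 : ℝ) * Real.log (2 * Real.sin (γ / 2)) =
      Real.log ((2 * Real.sin (γ / 2)) ^ 2) by rw [Real.log_pow]; norm_num]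
    congr 1
    have e1 : Real.sin (π / 2 - γ / 2 + δ) = Real.cos (γ / 2) * Real.cos δ +
        Real.sin (γ / 2) * Real.sin δ := by
      rw [show π / 2 - γ / 2 + δ = π / 2 - (γ / 2 - δ) by ring, Real.sin_pi_div_two_sub,
        Real.cos_sub]
    have e2 : Real.sin (π / 2 - γ / 2 - δ) = Real.cos (γ / 2) * Real.cos δ -
        Real.sin (γ / 2) * Real.sin δ := by
      rw [show π / 2 - γ / 2 - δ = π / 2 - (γ / 2 + δ) by ring, Real.sin_pi_div_two_sub,
        Real.cos_add]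
    have e3 := Real.sin_sq_add_cos_sq (γ / 2)
    rw [e1, e2]
    have e4 : Real.cos (γ / 2) ^ 2 = 1 - Real.sin (γ / 2) ^ 2 := by linarith
    have e5 : Real.cos δ ^ 2 = 1 - Real.sin δ ^ 2 := by linarith
    have e6 : Real.sin δ ^ 2 = 1 - 2 * Real.sin (γ / 2) ^ 2 := by rw [← hcγ, hc2]
    calc 2 * (Real.cos (γ / 2) * Real.cos δ + Real.sin (γ / 2) * Real.sin δ) *
          (2 * (Real.cos (γ / 2) * Real.cos δ - Real.sin (γ / 2) * Real.sin δ))
        = 4 * (Real.cos (γ / 2) ^ 2 * Real.cos δ ^ 2 - Real.sin (γ / 2) ^ 2 * Real.sin δ ^ 2) := by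
          ring
      _ = (2 * Real.sin (γ / 2)) ^ 2 := by
          rw [e4, e5, e6]
          ring

/-- **`vol n` is the maximal volume of the angle structures** -/
theorem great {n : ℕ} (hn : 2 ≤ n) : IsGreatest {W : ℝ | ∃ tz tx ty uz ux uy : ℤ → ℝ,
    AngS n tz tx ty uz ux uy ∧ AVol n tz tx ty uz ux uy = W}
    (4 * n * (2 * lob (Real.arccos (Real.sin (π / (2 * n)) ^ 2) / 2) +
      lob (π / 2 - Real.arccos (Real.sin (π / (2 * n)) ^ 2) / 2 + π / (2 * n)) +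
      lob (π / 2 - Real.arccos (Real.sin (π / (2 * n)) ^ 2) / 2 - π / (2 * n)))) := by
  have h := pm hn
  refine ⟨⟨_, _, _, _, _, _, angR h, volR⟩, ?_⟩
  rintro W ⟨tz, tx, ty, uz, ux, uy, hA, rfl⟩
  exact ang_le h hA

end Pool.Agent.H9.TP
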