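import Pool.Graph.R_seed8.Y472.K.ExaC

/-!
# The matrix entries for the exponents `2` and `-2`

The entries for the exponent `2` are the products of the entries for the exponent `1` (Leibniz rule
for divided differences); the sum is evaluated by the `q`-binomial theorem.
-/

set_option autoImplicit false
set_option linter.all false

namespace Pool.Agent.H9.TP

open Finset Filter Topology Pool.Agent.Y472 Pool.Agent.Y261.TK
open Pool.Agent.W711.HT (vN Sd)
open scoped Real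

/-! ### the Leibniz rule -/

/-- divided differences -/
noncomputable def dd (u f : ℕ → ℂ) (i j : ℕ) : ℂ :=
  ∑ k ∈ Icc i j, Lagrange.nodalWeight (Icc i j) u k * f k

theorem dd_self (u f : ℕ → ℂ) (i : ℕ) : dd u f i i = f i := by
  rw [dd, Icc_self, sum_singleton, Lagrange.nodalWeight]
  simp

theorem leibniz {u f g : ℕ → ℂ} : ∀ m i : ℕ, Set.InjOn u (Icc i (i + m) : Finset ℕ) →
    dd u (fun k => f k * g k) i (i + m) =
      ∑ t ∈ range (m + 1), dd u f i (i + t) * dd u g (i + t) (i + m) := by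
  intro m
  induction m with
  | zero =>
    intro i _
    rw [zero_add, sum_range_one, add_zero, dd_self, dd_self, dd_self]
  | succ m ih =>
    intro i hu
    have hsub : ∀ a b : ℕ, i ≤ a → b ≤ i + (m + 1) → Set.InjOn u (Icc a b : Finset ℕ) := by
      intro a b ha hb
      refine hu.mono ?_
      rw [coe_subset]
      exact Icc_subset_Icc ha hb
    have hne : u (i + (m + 1)) - u i ≠ 0 := by
      rw [sub_ne_zero]
      intro h
      have := hu (by rw [mem_coe, mem_Icc]; omega) (by rw [mem_coe, mem_Icc]; omega) h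
      omega
    have st : ∀ (h : ℕ → ℂ) (a b : ℕ), a ≤ b → i ≤ a → b + 1 ≤ i + (m + 1) →
        (u (b + 1) - u a) * dd u h a (b + 1) = dd u h (a + 1) (b + 1) - dd u h a b := by
      intro h a b hab ha hb
      exact dd_rec hab (hsub a (b + 1) ha hb)
    apply mul_left_cancel₀ hne
    have e1 := st (fun k => f k * g k) i (i + m) (by omega) le_rfl (by omega)
    have e2 := ih (i + 1) (hsub _ _ (by omega) (by omega))
    have e3 := ih i (hsub _ _ le_rfl (by omega))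
    rw [show i + 1 + m = i + m + 1 by ring] at e2
    rw [show i + (m + 1) = i + m + 1 by ring] at *
    rw [e1, e2, e3, mul_sum]
    have e4 : ∀ t ∈ range (m + 1 + 1), (u (i + m + 1) - u i) *
        (dd u f i (i + t) * dd u g (i + t) (i + m + 1)) =
        dd u f i (i + t) * ((u (i + m + 1) - u (i + t)) * dd u g (i + t) (i + m + 1)) +
        ((u (i + t) - u i) * dd u f i (i + t)) * dd u g (i + t) (i + m + 1) := by
      intro t _
      ring
    rw [sum_congr rfl e4, sum_add_distrib]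
    have e5 : ∑ t ∈ range (m + 1 + 1), dd u f i (i + t) *
        ((u (i + m + 1) - u (i + t)) * dd u g (i + t) (i + m + 1)) =
        ∑ t ∈ range (m + 1), dd u f i (i + t) *
          (dd u g (i + t + 1) (i + m + 1) - dd u g (i + t) (i + m)) := by
      rw [sum_range_succ, show i + (m + 1) = i + m + 1 by ring, sub_self, zero_mul, mul_zero,
        add_zero]
      refine sum_congr rfl fun t ht => ?_
      have := mem_range.1 ht
      rw [st g (i + t) (i + m) (by omega) (by omega) (by omega)]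
    have e6 : ∑ t ∈ range (m + 1 + 1), ((u (i + t) - u i) * dd u f i (i + t)) *
        dd u g (i + t) (i + m + 1) =
        ∑ t ∈ range (m + 1), (dd u f (i + 1) (i + t + 1) - dd u f i (i + t)) *
          dd u g (i + t + 1) (i + m + 1) := by
      rw [sum_range_succ', add_zero, sub_self, zero_mul, zero_mul, add_zero]
      refine sum_congr rfl fun t ht => ?_
      have := mem_range.1 ht
      rw [show i + (t + 1) = i + t + 1 by ring, st f i (i + t) (by omega) le_rfl (by omega)]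
    rw [e5, e6, ← sum_add_distrib, ← sum_sub_distrib]
    refine sum_congr rfl fun t _ => ?_
    rw [show i + 1 + t = i + t + 1 by ring]
    ring

/-! ### the exponent `2` for generic parameters -/

theorem gd_two {N : ℕ} {w l : ℂ} (h : Gen N w l) {i m : ℕ} (hm : i + m < N) :
    gd w l 2 i (i + m) = ∑ t ∈ range (m + 1), FF w l i t * FF w l (i + t) (m - t) := by
  have e0 : gd w l 2 i (i + m) =
      dd (uu w l) (fun k => se w l k ^ (1 : ℤ) * se w l k ^ (1 : ℤ)) i (i + m) := by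
    rw [gd, dd]
    refine sum_congr rfl fun k _ => ?_
    rw [zpow_one, show (2 : ℤ) = ((2 : ℕ) : ℤ) by rfl, zpow_natCast, pow_two]
  rw [e0, leibniz m i (uu_injOn h (by omega))]
  refine sum_congr rfl fun t ht => ?_
  have ht' := mem_range.1 ht
  have h1 := gd_one h t i (by omega)
  have h2 := gd_one h (m - t) (i + t) (by omega)
  rw [show i + t + (m - t) = i + m by omega] at h2
  rw [← h1, ← h2]
  rfl

/-- the limit -/
theorem lim2 {N : ℕ} {w s : ℂ} (h : RR N w s) {i m : ℕ} (hm : i + m < N) (σ : ℝ) (hσ : σ ≠ 0)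
    (g G : ℂ → ℂ) (hG : DifferentiableAt ℂ G 0) (hg : ∀ᶠ ε in 𝓝[≠] (0 : ℂ), G ε = g ε)
    (hgg : ∀ ε : ℝ, ε ≠ 0 → g ε = gd w (-Complex.exp (σ * ε)) 2 i (i + m)) :
    G 0 = ∑ t ∈ range (m + 1), FF w (-1) i t * FF w (-1) (i + t) (m - t) := by
  have h1 : Tendsto (fun ε : ℝ => G (ε : ℂ)) (𝓝[≠] 0) (𝓝 (G 0)) := by
    have h2 : Tendsto G (𝓝[≠] (0 : ℂ)) (𝓝 (G 0)) :=
      hG.continuousAt.tendsto.mono_left nhdsWithin_le_nhds
    exact h2.comp tendsto_real
  have h3 : Tendsto (fun ε : ℝ => -Complex.exp (σ * ε)) (𝓝[≠] (0 : ℝ)) (𝓝 (-1)) := by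
    have h4 : Continuous fun ε : ℝ => -Complex.exp (σ * ε) := by fun_prop
    have h5 := (h4.tendsto 0).mono_left (nhdsWithin_le_nhds (s := {0}ᶜ))
    simpa using h5
  have h2 : Tendsto (fun ε : ℝ => ∑ t ∈ range (m + 1), FF w (-Complex.exp (σ * ε)) i t *
      FF w (-Complex.exp (σ * ε)) (i + t) (m - t)) (𝓝[≠] 0)
      (𝓝 (∑ t ∈ range (m + 1), FF w (-1) i t * FF w (-1) (i + t) (m - t))) := by
    refine tendsto_finsetSum _ fun t ht => ?_
    have ht' := mem_range.1 ht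
    exact ((h.cont (i := i) (m := t) (by omega)).tendsto.comp h3).mul
      ((h.cont (i := i + t) (m := m - t) (by omega)).tendsto.comp h3)
  have h4 : (fun ε : ℝ => G (ε : ℂ)) =ᶠ[𝓝[≠] 0] fun ε : ℝ => ∑ t ∈ range (m + 1),
      FF w (-Complex.exp (σ * ε)) i t * FF w (-Complex.exp (σ * ε)) (i + t) (m - t) := by
    filter_upwards [tendsto_real.eventually hg, self_mem_nhdsWithin] with ε e1 e2
    have e3 : ε ≠ 0 := e2
    rw [e1, hgg ε e3]
    apply gd_two _ hm
    apply h.gen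
    · exact neg_ne_zero.2 (Complex.exp_ne_zero _)
    · rw [norm_neg, Complex.norm_exp]
      intro h5
      rw [Real.exp_eq_one_iff] at h5
      have h6 : ((σ : ℂ) * (ε : ℂ)).re = σ * ε := by
        rw [← Complex.ofReal_mul, Complex.ofReal_re]
      rw [h6] at h5
      exact (mul_ne_zero hσ e3) h5
  exact tendsto_nhds_unique (h1.congr' h4) h2

/-! ### the `q`-binomial theorem -/

/-- the symmetric `q`-binomial coefficient -/
noncomputable def qb (N m t : ℕ) : ℂ :=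
  if t ≤ m then (Sd N m : ℂ) / ((Sd N t : ℂ) * (Sd N (m - t) : ℂ)) else 0

theorem Sd_zero (N : ℕ) : Sd N 0 = 1 := by
  rw [Sd, range_zero, prod_empty]

theorem sdw {N : ℕ} {w s : ℂ} (h : RR N w s) (k : ℕ) :
    (Sd N (k + 1) : ℂ) * (Complex.I * s) = Sd N k * cb (w ^ (k + 1)) := by
  rw [Pool.Agent.Y941.TK.Sd_succ', h.hcb]
  push_cast
  ring

theorem qb_rec {N : ℕ} {w s : ℂ} (h : RR N w s) {m : ℕ} (hm : m + 1 < N) (t : ℕ) :
    w ^ (t + 1) * qb N (m + 1) (t + 1) = qb N m (t + 1) + w ^ (m + 1) * qb N m t := by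
  have hw := h.w0
  have hs := h.s0
  have hI := Complex.I_ne_zero
  rcases lt_trichotomy t m with h1 | h1 | h1
  · obtain ⟨r, rfl⟩ : ∃ r, m = t + 1 + r := ⟨m - t - 1, by omega⟩
    rw [qb, qb, qb, if_pos (by omega), if_pos (by omega), if_pos (by omega),
      show t + 1 + r + 1 - (t + 1) = r + 1 by omega, show t + 1 + r - (t + 1) = r by omega,
      show t + 1 + r - t = r + 1 by omega]
    have a1 : (Sd N (t + 1) : ℂ) ≠ 0 := by exact_mod_cast Pool.Agent.Y261.TK.Sd_ne (by omega)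
    have a2 : (Sd N (r + 1) : ℂ) ≠ 0 := by exact_mod_cast Pool.Agent.Y261.TK.Sd_ne (by omega)
    have a3 : (Sd N t : ℂ) ≠ 0 := by exact_mod_cast Pool.Agent.Y261.TK.Sd_ne (by omega)
    have a4 : (Sd N r : ℂ) ≠ 0 := by exact_mod_cast Pool.Agent.Y261.TK.Sd_ne (by omega)
    have b1 := sdw h t
    have b2 := sdw h r
    have b3 := sdw h (t + 1 + r)
    have c1 : (Sd N (t + 1) : ℂ) = Sd N t * cb (w ^ (t + 1)) / (Complex.I * s) := by
      rw [← b1]
      field_simp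
    have c2 : (Sd N (r + 1) : ℂ) = Sd N r * cb (w ^ (r + 1)) / (Complex.I * s) := by
      rw [← b2]
      field_simp
    have c3 : (Sd N (t + 1 + r + 1) : ℂ) =
        Sd N (t + 1 + r) * cb (w ^ (t + 1 + r + 1)) / (Complex.I * s) := by
      rw [← b3]
      field_simp
    have d1 : cb (w ^ (t + 1)) ≠ 0 := h.cbne (by omega) (by omega)
    have d2 : cb (w ^ (r + 1)) ≠ 0 := h.cbne (by omega) (by omega)
    have key : w ^ (t + 1) * cb (w ^ (t + 1 + r + 1)) =
        cb (w ^ (r + 1)) + w ^ (t + 1 + r + 1) * cb (w ^ (t + 1)) := by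
      rw [cb, cb, cb, show t + 1 + r + 1 = (t + 1) + (r + 1) by ring, pow_add w (t + 1) (r + 1)]
      have e1 : w ^ (t + 1) ≠ 0 := pow_ne_zero _ hw
      have e2 : w ^ (r + 1) ≠ 0 := pow_ne_zero _ hw
      field_simp
      ring
    rw [c1, c2, c3]
    have key2 : cb (w ^ (t + 1 + r + 1)) =
        (cb (w ^ (r + 1)) + w ^ (t + 1 + r + 1) * cb (w ^ (t + 1))) / w ^ (t + 1) := by
      rw [← key]
      have e1 : w ^ (t + 1) ≠ 0 := pow_ne_zero _ hw
      field_simp
    rw [key2]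
    have e1 : w ^ (t + 1) ≠ 0 := pow_ne_zero _ hw
    field_simp
  · subst h1
    rw [qb, qb, qb, if_pos le_rfl, if_neg (by omega), if_pos le_rfl, Nat.sub_self, Nat.sub_self,
      Sd_zero]
    have a1 : (Sd N (t + 1) : ℂ) ≠ 0 := by exact_mod_cast Pool.Agent.Y261.TK.Sd_ne (by omega)
    have a3 : (Sd N t : ℂ) ≠ 0 := by exact_mod_cast Pool.Agent.Y261.TK.Sd_ne (by omega)
    simp only [Complex.ofReal_one, mul_one]
    rw [div_self a1, div_self a3]
    ring
  · rw [qb, qb, qb, if_neg (by omega), if_neg (by omega), if_neg (by omega)]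
    ring

theorem qb_zero {N m : ℕ} (hm : m < N) : qb N m 0 = 1 := by
  have a3 : (Sd N m : ℂ) ≠ 0 := by exact_mod_cast Pool.Agent.Y261.TK.Sd_ne hm
  rw [qb, if_pos (Nat.zero_le _), Sd_zero, Nat.sub_zero, Complex.ofReal_one, one_mul, div_self a3]

theorem qbin {N : ℕ} {w s : ℂ} (h : RR N w s) (x : ℂ) : ∀ m : ℕ, m < N →
    ∏ k ∈ range m, (1 + x * w ^ (2 * k + 1)) = ∑ t ∈ range (m + 1), qb N m t * (w ^ m * x) ^ t := by
  intro m
  induction m with
  | zero =>
    intro hm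
    rw [range_zero, prod_empty, zero_add, sum_range_one, qb_zero hm, pow_zero, mul_one]
  | succ m ih =>
    intro hm
    rw [prod_range_succ, ih (by omega)]
    rw [sum_range_succ' (fun t => qb N (m + 1) t * (w ^ (m + 1) * x) ^ t)]
    have e1 : ∀ t ∈ range (m + 1), qb N (m + 1) (t + 1) * (w ^ (m + 1) * x) ^ (t + 1) =
        qb N m (t + 1) * (w ^ m * x) ^ (t + 1) +
          qb N m t * (w ^ m * x) ^ t * (x * w ^ (2 * m + 1)) := by
      intro t _
      have h1 := qb_rec h hm t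
      have h2 : qb N (m + 1) (t + 1) * (w ^ (m + 1) * x) ^ (t + 1) =
          (w ^ (t + 1) * qb N (m + 1) (t + 1)) * (w ^ m * x) ^ (t + 1) := by
        rw [pow_succ w m]
        ring
      rw [h2, h1]
      ring
    rw [sum_congr rfl e1, sum_add_distrib, ← sum_mul]
    have e2 : ∑ t ∈ range (m + 1), qb N m t * (w ^ m * x) ^ t =
        (∑ t ∈ range (m + 1), qb N m (t + 1) * (w ^ m * x) ^ (t + 1)) +
          qb N m 0 * (w ^ m * x) ^ 0 := by
      rw [← sum_range_succ' (fun t => qb N m t * (w ^ m * x) ^ t),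
        sum_range_succ (fun t => qb N m t * (w ^ m * x) ^ t) (m + 1)]
      have : qb N m (m + 1) = 0 := by
        rw [qb, if_neg (by omega)]
      rw [this, zero_mul, add_zero]
    have e3 : qb N (m + 1) 0 * (w ^ (m + 1) * x) ^ 0 = 1 := by
      rw [qb_zero hm, pow_zero, mul_one]
    have e4 : qb N m 0 * (w ^ m * x) ^ 0 = 1 := by
      rw [qb_zero (by omega), pow_zero, mul_one]
    rw [e3]
    rw [e4] at e2
    rw [mul_add, mul_one]
    nth_rewrite 1 [e2]
    ring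

/-! ### the value -/

/-- `w^{1 + 2 + ⋯ + i}` -/
noncomputable def Tw (w : ℂ) (i : ℕ) : ℂ := ∏ k ∈ range i, w ^ (k + 1)

theorem Tw_ne {w : ℂ} (hw : w ≠ 0) (i : ℕ) : Tw w i ≠ 0 := by
  rw [Tw, prod_ne_zero_iff]
  exact fun k _ => pow_ne_zero _ hw

theorem Tw_inv (w : ℂ) (i : ℕ) : Tw w⁻¹ i = (Tw w i)⁻¹ := by
  rw [Tw, Tw, ← prod_inv_distrib]
  exact prod_congr rfl fun k _ => inv_pow _ _

theorem Tw_add (w : ℂ) (i m : ℕ) : Tw w (i + m) = Tw w i * ∏ k ∈ range m, w ^ (i + k + 1) := by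
  rw [Tw, Tw, prod_range_add]

theorem prod_cb {N : ℕ} {w s : ℂ} (h : RR N w s) {i m : ℕ} (hm : i + m < N) :
    ∏ k ∈ range m, (1 + (-w ^ (2 * i + 1)) * w ^ (2 * k + 1)) =
      (-(Complex.I * s)) ^ m * (Tw w (i + m) / Tw w i) * ((Sd N (i + m) : ℂ) / Sd N i) := by
  have hw := h.w0
  have h1 : (Sd N i : ℂ) ≠ 0 := by
    exact_mod_cast Pool.Agent.Y261.TK.Sd_ne (show i < N by omega)
  have h2 := Tw_ne hw i
  rw [Tw_add, Sd_add]
  push_cast
  rw [mul_comm (Tw w i), mul_div_assoc, div_self h2, mul_one, mul_comm (Sd N i : ℂ),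
    mul_div_assoc, div_self h1, mul_one]
  have e : ∀ k ∈ range m, (1 + (-w ^ (2 * i + 1)) * w ^ (2 * k + 1)) =
      -(Complex.I * s) * w ^ (i + k + 1) *
        (2 * Complex.sin (π * (((i : ℂ) + k) + 1) / N)) := by
    intro k _
    have h3 := h.hcb (i + k + 1)
    have h4 : w ^ (i + k + 1) * cb (w ^ (i + k + 1)) = w ^ (i + k + 1) * w ^ (i + k + 1) - 1 := by
      rw [cb]
      have : w ^ (i + k + 1) ≠ 0 := pow_ne_zero _ hw
      field_simp
    have h5 : (1 + (-w ^ (2 * i + 1)) * w ^ (2 * k + 1)) = -(w ^ (i + k + 1) *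
        cb (w ^ (i + k + 1))) := by
      rw [h4]
      ring
    rw [h5, h3]
    push_cast
    ring
  rw [prod_congr rfl e, prod_mul_distrib, prod_mul_distrib, prod_const, card_range]

/-- the value of the sum -/
theorem val2 {N : ℕ} {w s : ℂ} (h : RR N w s) {i m : ℕ} (hm : i + m < N) :
    ∑ t ∈ range (m + 1), FF w (-1) i t * FF w (-1) (i + t) (m - t) =
      w ^ 2 * (w ^ (i + m) * (-(Complex.I * s)) ^ (i + m) * Tw w (i + m) *
        (w ^ (i * i + i) / ((-(Complex.I * s)) ^ i * Tw w i)) * w ^ (i * (i + m)) /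
          (Sd N m : ℂ)) := by
  have hw := h.w0
  have hs := h.s0
  have h1 : (Sd N i : ℂ) ≠ 0 := by
    exact_mod_cast Pool.Agent.Y261.TK.Sd_ne (show i < N by omega)
  have h2 : (Sd N (i + m) : ℂ) ≠ 0 := by exact_mod_cast Pool.Agent.Y261.TK.Sd_ne hm
  have h3 : (Sd N m : ℂ) ≠ 0 := by
    exact_mod_cast Pool.Agent.Y261.TK.Sd_ne (show m < N by omega)
  have hsg : ((-1 : ℂ) ^ i) * (-1) ^ i = 1 := by
    rw [← mul_pow]
    norm_num
  have e : ∀ t ∈ range (m + 1), FF w (-1) i t * FF w (-1) (i + t) (m - t) =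
      (w ^ 2 * w ^ (i + m) * w ^ (i * (2 * i + m + 1)) * ((Sd N i : ℂ) / Sd N (i + m)) /
        Sd N m) * (qb N m t * (w ^ m * (-w ^ (2 * i + 1))) ^ t) := by
    intro t ht
    have ht' := mem_range.1 ht
    have h4 : (Sd N t : ℂ) ≠ 0 := by
      exact_mod_cast Pool.Agent.Y261.TK.Sd_ne (show t < N by omega)
    have h5 : (Sd N (m - t) : ℂ) ≠ 0 := by
      exact_mod_cast Pool.Agent.Y261.TK.Sd_ne (show m - t < N by omega)
    have h6 : (Sd N (i + t) : ℂ) ≠ 0 := by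
      exact_mod_cast Pool.Agent.Y261.TK.Sd_ne (show i + t < N by omega)
    rw [h.val (i := i) (m := t) (by omega), h.val (i := i + t) (m := m - t) (by omega),
      show i + t + (m - t) = i + m by omega, qb, if_pos (by omega)]
    have e1 : w ^ ((i + t) * i + (i + t)) * w ^ ((i + m) * (i + t) + (i + m)) =
        w ^ (i + m) * w ^ (i * (2 * i + m + 1)) * (w ^ m * w ^ (2 * i + 1)) ^ t := by
      rw [← pow_add, ← pow_add, ← pow_add, ← pow_mul, ← pow_add]
      congr 1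
      ring
    have e2 : (w ^ m * (-w ^ (2 * i + 1))) ^ t = (-1) ^ t * (w ^ m * w ^ (2 * i + 1)) ^ t := by
      rw [← mul_pow]
      congr 1
      ring
    rw [e2]
    calc (-w * ((-1) ^ i * w ^ ((i + t) * i + (i + t)) /
          ((Sd N t : ℂ) * ((Sd N (i + t) : ℂ) / Sd N i)))) *
        (-w * ((-1) ^ (i + t) * w ^ ((i + m) * (i + t) + (i + m)) /
          ((Sd N (m - t) : ℂ) * ((Sd N (i + m) : ℂ) / Sd N (i + t)))))
        = w ^ 2 * ((-1 : ℂ) ^ i * (-1) ^ i) * (-1) ^ t *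
          (w ^ ((i + t) * i + (i + t)) * w ^ ((i + m) * (i + t) + (i + m))) *
          (Sd N i / (Sd N t * Sd N (m - t) * Sd N (i + m))) := by
          rw [pow_add (-1 : ℂ) i t]
          field_simp
      _ = w ^ 2 * (-1) ^ t * (w ^ (i + m) * w ^ (i * (2 * i + m + 1)) *
          (w ^ m * w ^ (2 * i + 1)) ^ t) * (Sd N i / (Sd N t * Sd N (m - t) * Sd N (i + m))) := by
          rw [e1, hsg, mul_one]
      _ = _ := by
          field_simp
  rw [sum_congr rfl e, ← mul_sum, ← qbin h _ m (by omega), prod_cb h hm]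
  have hT := Tw_ne hw i
  have hIs : (-(Complex.I * s)) ≠ 0 := neg_ne_zero.2 (mul_ne_zero Complex.I_ne_zero hs)
  have hIi : (-(Complex.I * s)) ^ i ≠ 0 := pow_ne_zero _ hIs
  have e3 : w ^ (i * (2 * i + m + 1)) = w ^ (i * i + i) * w ^ (i * (i + m)) := by
    rw [← pow_add]
    congr 1
    ring
  rw [e3, pow_add (-(Complex.I * s)) i m]
  field_simp

/-- the matrix entries for the exponents `2` and `-2` -/
theorem cj2 : ∀ N : ℕ, 2 ≤ N → ∃ (u u' : ℂ) (A B : ℕ → ℂ), u * u' = -1 ∧ (∀ i, A i ≠ 0) ∧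
  (∀ i, B i ≠ 0) ∧ ∀ j i : ℕ, j ≤ i → i < N →
    cJ N 2 j i = u * (A i * B j * vN N ^ ((i : ℤ) * j) / (Sd N (i - j) : ℂ)) ∧
    cJ N (-2) j i = u' * ((A i)⁻¹ * (B j)⁻¹ * vN N ^ (-((i : ℤ) * j)) / (Sd N (i - j) : ℂ)) := by
  intro N hN
  obtain ⟨c, hcdef⟩ : ∃ c : ℤ → ℂ, c = fun a => Pool.Agent.Y686.CB.Cf N 0 ^ a * Complex.I :=
    ⟨_, rfl⟩
  have hCf : Pool.Agent.Y686.CB.Cf N 0 ≠ 0 := Pool.Agent.Y686.CB.Cf_ne N 0
  have hcG : ∀ (a : ℤ) (i j : ℕ), i ≤ j → j < N → ∃ G : ℂ → ℂ, DifferentiableAt ℂ G 0 ∧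
    G 0 = c a * cJ N a i j ∧ ∀ᶠ ε in 𝓝[≠] (0 : ℂ), G ε = gd (vN N) (-Complex.exp ε) a i j := by
    intro a i j hij hj
    rw [hcdef]
    exact Pool.Agent.Y814.PH.Gd.gdx N hN a i j hij hj
  have h1 := rr_pos hN
  have h2 := rr_neg hN
  have hc0 : ∀ a, c a ≠ 0 := by
    intro a
    rw [hcdef]
    exact mul_ne_zero (zpow_ne_zero _ hCf) Complex.I_ne_zero
  have hprod : c 2 * c (-2) = -1 := by
    rw [hcdef]
    simp only
    have : Pool.Agent.Y686.CB.Cf N 0 ^ (2 : ℤ) * Complex.I *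
        (Pool.Agent.Y686.CB.Cf N 0 ^ (-2 : ℤ) * Complex.I) =
        (Pool.Agent.Y686.CB.Cf N 0 ^ (2 : ℤ) * Pool.Agent.Y686.CB.Cf N 0 ^ (-2 : ℤ)) *
          (Complex.I * Complex.I) := by ring
    rw [this, ← zpow_add₀ hCf, Complex.I_mul_I]
    norm_num
  have hv0 : vN N ≠ 0 := Complex.exp_ne_zero _
  have hI : (-Complex.I) ≠ 0 := neg_ne_zero.2 Complex.I_ne_zero
  refine ⟨(c 2)⁻¹ * vN N ^ 2, (c (-2))⁻¹ * (vN N ^ 2)⁻¹,
    fun i => vN N ^ i * (-Complex.I) ^ i * Tw (vN N) i,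
    fun j => vN N ^ (j * j + j) / ((-Complex.I) ^ j * Tw (vN N) j), ?_, ?_, ?_,
    fun j i hji hi => ⟨?_, ?_⟩⟩
  · have hv2 : vN N ^ 2 ≠ 0 := pow_ne_zero _ hv0
    have e1 : (c 2)⁻¹ * vN N ^ 2 * ((c (-2))⁻¹ * (vN N ^ 2)⁻¹) = (c 2 * c (-2))⁻¹ := by
      field_simp
    rw [e1, hprod]
    norm_num
  · intro i
    exact mul_ne_zero (mul_ne_zero (pow_ne_zero _ hv0) (pow_ne_zero _ hI)) (Tw_ne hv0 i)
  · intro j
    exact div_ne_zero (pow_ne_zero _ hv0) (mul_ne_zero (pow_ne_zero _ hI) (Tw_ne hv0 j))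
  · obtain ⟨m, rfl⟩ : ∃ m, i = j + m := ⟨i - j, by omega⟩
    obtain ⟨G, g1, g2, g3⟩ := hcG 2 j (j + m) hji hi
    have e1 := lim2 h1 hi 1 one_ne_zero (fun ε => gd (vN N) (-Complex.exp ε) 2 j (j + m)) G g1 g3
      (fun ε _ => by rw [Complex.ofReal_one, one_mul])
    rw [g2, val2 h1 hi] at e1
    have e2 : cJ N 2 j (j + m) = (c 2)⁻¹ * (c 2 * cJ N 2 j (j + m)) := by
      rw [← mul_assoc, inv_mul_cancel₀ (hc0 2), one_mul]
    rw [e2, e1, show j + m - j = m by omega, mul_one]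
    have e3 : vN N ^ (((j + m : ℕ) : ℤ) * (j : ℤ)) = vN N ^ (j * (j + m)) := by
      rw [← zpow_natCast]
      congr 1
      push_cast
      ring
    rw [e3]
    ring
  · obtain ⟨m, rfl⟩ : ∃ m, i = j + m := ⟨i - j, by omega⟩
    obtain ⟨G, g1, g2, g3⟩ := hcG (-2) j (j + m) hji hi
    have hneg : ∀ (l : ℂ) (a b : ℕ), gd (vN N) l (-2) a b = gd (vN N)⁻¹ l⁻¹ 2 a b := by
      intro l a b
      rw [gd, gd]
      have h1 : uu (vN N)⁻¹ l⁻¹ = uu (vN N) l := funext fun k => uu_inv (vN N) l k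
      rw [h1]
      refine sum_congr rfl fun k _ => ?_
      rw [se_inv, zpow_neg, inv_zpow]
    have e1 := lim2 h2 hi (-1) (by norm_num)
      (fun ε => gd (vN N) (-Complex.exp ε) (-2) j (j + m)) G g1 g3 (fun ε _ => by
        show gd (vN N) (-Complex.exp ε) (-2) j (j + m) = _
        rw [hneg, inv_neg, ← Complex.exp_neg]
        congr 3
        simp)
    rw [g2, val2 h2 hi] at e1
    have e2 : cJ N (-2) j (j + m) = (c (-2))⁻¹ * (c (-2) * cJ N (-2) j (j + m)) := by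
      rw [← mul_assoc, inv_mul_cancel₀ (hc0 (-2)), one_mul]
    rw [e2, e1, show j + m - j = m by omega]
    have e3 : vN N ^ (-(((j + m : ℕ) : ℤ) * (j : ℤ))) = ((vN N)⁻¹) ^ (j * (j + m)) := by
      rw [zpow_neg, inv_pow, ← zpow_natCast]
      congr 2
      push_cast
      ring
    have e4 : -(Complex.I * -1) = (-Complex.I)⁻¹ := by
      rw [inv_neg, Complex.inv_I]
      ring
    rw [e3, e4, Tw_inv, Tw_inv, inv_pow, inv_pow, inv_pow, inv_pow, inv_pow, inv_pow]
    have t1 := Tw_ne hv0 j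
    have t2 := Tw_ne hv0 (j + m)
    have t3 : (-Complex.I) ^ j ≠ 0 := pow_ne_zero _ hI
    have t4 : (-Complex.I) ^ (j + m) ≠ 0 := pow_ne_zero _ hI
    have t5 : vN N ^ (j * j + j) ≠ 0 := pow_ne_zero _ hv0
    have t6 : vN N ^ (j + m) ≠ 0 := pow_ne_zero _ hv0
    have t7 : vN N ^ (j * (j + m)) ≠ 0 := pow_ne_zero _ hv0
    have t8 : vN N ^ 2 ≠ 0 := pow_ne_zero _ hv0
    field_simp

end Pool.Agent.H9.TP
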