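import Pool.Graph.R_seed8.Y472.K.Defs2

/-!
# The closures of the pure 3-braids `(s_1² s_2⁻²)^n`: definitions and statements

As for the Turk's head links the Kashaev invariant is a sum over `2 n` indices; the matrix entries of
`s_1²` are again products of sines, and the coefficient of a configuration is the coefficient for the
Turk's head links times `∏_r (S(i_{r+1}) / S(j_r))²`.
-/

set_option autoImplicit false

namespace Pool.Agent.H9.TP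

open Finset Filter Topology MeasureTheory Pool.Agent.W711.HT Pool.Agent.Y472.K
open scoped Real

/-! ### The exact formula -/

/-- the additional weight of a configuration -/
noncomputable def ww (n N : ℕ) [NeZero n] (i j : Fin n → ℕ) : ℝ :=
  ∏ r, (Sd N (i (r + 1)) / Sd N (j r)) ^ 2

/-- the coefficient of a configuration -/
noncomputable def co (n N : ℕ) [NeZero n] (i j : Fin n → ℕ) : ℂ :=
  Pool.Agent.Y472.K.co n N i j * (ww n N i j : ℂ)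

/-- the contribution of a configuration -/
noncomputable def ct (n N : ℕ) [NeZero n] (i j : Fin n → ℕ) : ℂ :=
  co n N i j * ∑ p ∈ range N, deriv (fun χ => Complex.sin χ * Qc n N i j χ) (2 * π * p / N)

/-! ### Rate functions -/

/-- the rate of a pair of neighbouring indices -/
noncomputable def Ep (x y a b : ℝ) : ℝ := Pool.Agent.Y472.K.Ep x y a b + (Lc b - Lc a)

/-- the rate of a configuration -/
noncomputable def HH (n : ℕ) [NeZero n] (x y : ℝ) (a b : Fin n → ℝ) : ℝ :=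
  ∑ r, (Ep x y (a r) (b r) + Ep x y (a (r + 1)) (b r)) - y

/-- `cos (π / n)` -/
noncomputable def ga (n : ℕ) : ℝ := Real.cos (π / n)
/-- `cosh y_n` -/
noncomputable def Ch (n : ℕ) : ℝ := 2 - ga n
/-- the height `y_n` of the line -/
noncomputable def yn (n : ℕ) : ℝ := Real.arsinh (√(Ch n ^ 2 - 1))
/-- `b⋆` -/
noncomputable def bs (n : ℕ) : ℝ := Real.arccos ((1 - ga n) / 2) / (2 * π)
/-- the maximal rate of a pair -/
noncomputable def Es (n : ℕ) : ℝ := Ep 0 (yn n) (1 - bs n) (bs n)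
/-- the growth rate -/
noncomputable def Dn (n : ℕ) : ℝ := 2 * n * Es n - yn n

/-- properties of the parameters -/
structure Par (n : ℕ) : Prop where
  ga0 : 0 ≤ ga n
  ga1 : ga n < 1
  ch1 : 1 < Ch n
  ch2 : Ch n ≤ 2
  y0 : 0 < yn n
  cosh : Real.cosh (yn n) = Ch n
  b1 : 1 / 6 ≤ bs n
  b2 : bs n < 1 / 4
  cosb : Real.cos (2 * π * bs n) = (1 - ga n) / 2
  crit : (2 * Ch n - 2 * Real.cos (2 * π * bs n)) * (4 * Real.sin (π * bs n) ^ 2) =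
    4 * Real.sin (2 * π * bs n) ^ 2
  logc : Real.log (2 * Ch n - 2 * Real.cos (2 * π * bs n)) + 2 * Real.log (2 * Real.sin (π * bs n)) =
    2 * Real.log (2 * Real.sin (2 * π * bs n))
  int : (n : ℝ) * ∫ t in (bs n)..(1 - bs n), Real.sinh (yn n) / (Ch n - Real.cos (2 * π * t)) = 1

/-- STAR: every other configuration has a line on which its rate is smaller -/
def STAR (n : ℕ) [NeZero n] : Prop := ∀ a b : Fin n → ℝ, PO n a b →
  ¬ (∀ r, a r = 1 - bs n ∧ b r = bs n) → ∃ y : ℝ, 0 < y ∧ ∀ x ∈ Set.Icc (-π) π,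
    HH n x y a b < Dn n

/-- STARX: on the line of the height `y_n` the rate is maximal at `x = 0` -/
def STARX (n : ℕ) : Prop := ∀ x ∈ Set.Icc (-π) π, x ≠ 0 →
  Ep x (yn n) (1 - bs n) (bs n) < Es n

/-- the complex exponent -/
noncomputable def Xe (n N : ℕ) [NeZero n] (i j : Fin n → ℕ) (x : ℝ) : ℂ :=
  ∑ r, ((Lc (((i r : ℝ) - j r) / N) : ℂ) + (Lc (((i (r + 1) : ℝ) - j r) / N) : ℂ)) +
    ∑ r, (∫ t in ((j r : ℝ) / N)..((i (r + 1) : ℝ) / N), clf x (yn n) t) +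
    Complex.I * x - yn n + 2 * ∑ r, ((Lc ((j r : ℝ) / N) : ℂ) - (Lc ((i r : ℝ) / N) : ℂ))

/-- the exponent near the maximum -/
structure PTp (n : ℕ) [NeZero n] (R S : QuadraticForm ℝ ((Fin n ⊕ Fin n → ℝ) × ℝ)) : Prop where
  pos : R.PosDef
  lim : ∀ (i j : ℕ → Fin n → ℕ) (x : ℕ → ℝ) (v : (Fin n ⊕ Fin n → ℝ) × ℝ),
      (∀ r, Tendsto (fun N : ℕ => √N * ((i N r : ℝ) / N - (1 - bs n))) atTop
        (𝓝 (v.1 (Sum.inl r)))) →
      (∀ r, Tendsto (fun N : ℕ => √N * ((j N r : ℝ) / N - bs n)) atTop (𝓝 (v.1 (Sum.inr r)))) →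
      Tendsto (fun N : ℕ => √N * x N) atTop (𝓝 v.2) →
      Tendsto (fun N : ℕ => (N : ℂ) * (Xe n N (i N) (j N) (x N) - Dn n) +
        Complex.I * π / N * ∑ r, ((i N r : ℂ) - i N (r + 1)) * j N r) atTop
        (𝓝 (-(R v : ℂ) - Complex.I * (S v : ℂ)))

/-- the conclusion of QUAD -/
def Quad (n : ℕ) : Prop := ∃ ρ c : ℝ, 0 < ρ ∧ 0 < c ∧ ∀ x a b : ℝ, |x| ≤ ρ →
  |a - (1 - bs n)| ≤ ρ → |b - bs n| ≤ ρ →
  Ep x (yn n) a b ≤ Es n - c * (x ^ 2 + (a - (1 - bs n)) ^ 2 + (b - bs n) ^ 2)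

/-- the conclusion of FAR -/
def Far (n : ℕ) [NeZero n] : Prop := ∀ ρ : ℝ, 0 < ρ → ∃ κ : ℝ, 0 < κ ∧ ∀ᶠ N : ℕ in atTop,
  ∀ i j : Fin n → ℕ, Ok n N i j →
    (∃ r, ρ ≤ |(i r : ℝ) / N - (1 - bs n)| ∨ ρ ≤ |(j r : ℝ) / N - bs n|) →
    ‖ct n N i j‖ ≤ Real.exp (N * (Dn n - κ))

/-- the conclusion of FARX -/
def FarX (n : ℕ) [NeZero n] : Prop := ∀ ρ' : ℝ, 0 < ρ' → ∃ ρ : ℝ, 0 < ρ ∧ ∃ κ : ℝ, 0 < κ ∧
  ∀ᶠ N : ℕ in atTop, ∀ i j : Fin n → ℕ, Ok n N i j →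
    (∀ r, |(i r : ℝ) / N - (1 - bs n)| < ρ ∧ |(j r : ℝ) / N - bs n| < ρ) →
    ∀ x ∈ Set.Icc (-π) π, ρ' ≤ |x| →
    ‖co n N i j * (Complex.sin (x + yn n * Complex.I) * Qc n N i j (x + yn n * Complex.I) *
      Pool.Agent.Y391.CB.kN N (x + yn n * Complex.I))‖ ≤ Real.exp (N * (Dn n - κ))

/-- the conclusion of NEARX -/
def NearX (n : ℕ) [NeZero n] (R S : QuadraticForm ℝ ((Fin n ⊕ Fin n → ℝ) × ℝ)) : Prop :=
  ∃ ρ' ρ₁ : ℝ, 0 < ρ' ∧ ρ' ≤ π ∧ 0 < ρ₁ ∧ ∃ κ : ℝ, 0 < κ ∧ ∀ ρ : ℝ, 0 < ρ → ρ ≤ ρ₁ →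
    Tendsto (fun N : ℕ => ((√N : ℝ) : ℂ) * Complex.exp (-(N * Dn n)) *
      ∑ c ∈ (cfg n N).filter (fun c => ∀ r, |(c.1 r : ℝ) / N - (1 - bs n)| < ρ ∧
        |(c.2 r : ℝ) / N - bs n| < ρ), co n N c.1 c.2 * ∫ x in (-ρ')..ρ',
          (Complex.sin (x + yn n * Complex.I) * Qc n N c.1 c.2 (x + yn n * Complex.I) *
            Pool.Agent.Y391.CB.kN N (x + yn n * Complex.I))) atTop
      (𝓝 (Complex.I * κ * ∫ v, Complex.exp (-(R v : ℂ) - Complex.I * (S v : ℂ))))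

end Pool.Agent.H9.TP
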