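import Pool.Agent.H9.TP.Cj
import Pool.Agent.H9.TP.Defs

/-!
# The exact formula
-/

set_option autoImplicit false
set_option linter.all false

namespace Pool.Agent.H9.TP

open Finset Pool.Agent.W711.HT Pool.Agent.Y472 Pool.Agent.Y472.K
open Pool.Agent.Y941.TK (prod_Ph Sd_pos' trace_pow_cyc sum_fun Qc_diff vN_ne)
open scoped Real

/-- the contribution of `j` to the matrix entry -/
noncomputable def e2 (N i j i' : ℕ) (χ : ℂ) : ℂ :=
  if j ≤ i ∧ j ≤ i' then vN N ^ (((i : ℤ) - i') * j) /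
    ((Sd N (i - j) : ℂ) * (Sd N (i' - j) : ℂ)) * ((Sd N i' : ℂ) / Sd N j) ^ 2 * Pq N j i' χ else 0

theorem entry2 {N : ℕ} {u u' : ℂ} {A B : ℕ → ℂ} (hA : ∀ i, A i ≠ 0) (hB : ∀ i, B i ≠ 0)
    (hc : ∀ j i : ℕ, j ≤ i → i < N →
    cJ N 2 j i = u * (A i * B j * vN N ^ ((i : ℤ) * j) / (Sd N (i - j) : ℂ)) ∧
    cJ N (-2) j i = u' * ((A i)⁻¹ * (B j)⁻¹ * vN N ^ (-((i : ℤ) * j)) / (Sd N (i - j) : ℂ)))
    (χ : ℂ) (i j i' : Fin N) :
    MA0 N 2 i j * MB0 N χ (-2) j i' = u * u' * (A i * e2 N i j i' χ * (A i')⁻¹) := by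
  unfold MA0 MB0 e2
  by_cases h1 : j ≤ i
  · by_cases h2 : j ≤ i'
    · have h1' : (j : ℕ) ≤ i := h1
      have h2' : (j : ℕ) ≤ i' := h2
      rw [if_pos h1, if_pos h2, if_pos ⟨h1', h2'⟩, (hc j i h1' i.2).1, (hc j i' h2' i'.2).2,
        prod_Ph χ j i' h2' i'.2]
      have hv := vN_ne N
      have a1 : (Sd N (i - j) : ℂ) ≠ 0 := Pool.Agent.Y941.TK.Sd_ne (by omega)
      have a2 : (Sd N (i' - j) : ℂ) ≠ 0 := Pool.Agent.Y941.TK.Sd_ne (by omega)
      have a5 : (Sd N (j : ℕ) : ℂ) ≠ 0 := Pool.Agent.Y941.TK.Sd_ne j.2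
      have hBj := hB j
      have e1 : vN N ^ (((i : ℕ) : ℤ) * ((j : ℕ) : ℤ)) *
          vN N ^ (-(((i' : ℕ) : ℤ) * ((j : ℕ) : ℤ))) =
          vN N ^ ((((i : ℕ) : ℤ) - ((i' : ℕ) : ℤ)) * ((j : ℕ) : ℤ)) := by
        rw [← zpow_add₀ hv]
        congr 1
        ring
      rw [← e1]
      set P := Pq N j i' χ
      set x := vN N ^ (((i : ℕ) : ℤ) * ((j : ℕ) : ℤ))
      set y := vN N ^ (-(((i' : ℕ) : ℤ) * ((j : ℕ) : ℤ)))
      field_simp
    · rw [if_neg h2, if_neg (fun h : (j : ℕ) ≤ i ∧ (j : ℕ) ≤ i' => h2 h.2)]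
      ring
  · rw [if_neg h1, if_neg (fun h : (j : ℕ) ≤ i ∧ (j : ℕ) ≤ i' => h1 h.1)]
    ring

theorem Tf_eq2 {n N : ℕ} [NeZero n] {u u' : ℂ} {A B : ℕ → ℂ} (hA : ∀ i, A i ≠ 0)
    (hB : ∀ i, B i ≠ 0) (hc : ∀ j i : ℕ, j ≤ i → i < N →
    cJ N 2 j i = u * (A i * B j * vN N ^ ((i : ℤ) * j) / (Sd N (i - j) : ℂ)) ∧
    cJ N (-2) j i = u' * ((A i)⁻¹ * (B j)⁻¹ * vN N ^ (-((i : ℤ) * j)) / (Sd N (i - j) : ℂ)))
    (χ : ℂ) :
    Tf N (List.replicate n (2, -2)) χ =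
      (u * u') ^ n * ∑ c ∈ cfg n N, co n N c.1 c.2 * Qc n N c.1 c.2 χ := by
  classical
  have e1 : Tf N (List.replicate n (2, -2)) χ = ((MA0 N 2 * MB0 N χ (-2)) ^ n).trace := by
    unfold Tf
    rw [List.map_replicate, List.prod_replicate]
  have e2' : ∀ i i' : Fin N, (MA0 N 2 * MB0 N χ (-2)) i i' =
      ∑ j : Fin N, u * u' * (A i * e2 N i j i' χ * (A i')⁻¹) := by
    intro i i'
    rw [Matrix.mul_apply]
    exact Finset.sum_congr rfl fun j _ => entry2 hA hB hc χ i j i'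
  rw [e1, trace_pow_cyc]
  simp only [e2', Finset.prod_univ_sum, Fintype.piFinset_univ]
  have e3 : ∀ w z : Fin n → Fin N,
      (∏ r, u * u' * (A (w r) * e2 N (w r) (z r) (w (r + 1)) χ * (A (w (r + 1)))⁻¹)) =
      (u * u') ^ n * ∏ r, e2 N (w r) (z r) (w (r + 1)) χ := by
    intro w z
    rw [Finset.prod_mul_distrib, Finset.prod_const, card_univ, Fintype.card_fin,
      Finset.prod_mul_distrib, Finset.prod_mul_distrib, Finset.prod_inv_distrib]
    have h1 : ∏ r : Fin n, A (w (r + 1)) = ∏ r : Fin n, A (w r) :=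
      Equiv.prod_comp (Equiv.addRight (1 : Fin n)) (fun r => A (w r))
    have h2 : ∏ r : Fin n, A (w r) ≠ 0 := Finset.prod_ne_zero_iff.2 fun r _ => hA _
    rw [h1]
    field_simp
  simp only [e3]
  rw [Finset.mul_sum]
  simp only [← Finset.mul_sum]
  congr 1
  have e4 : ∀ i j : Fin n → ℕ, (∀ r, i r < N) → (∏ r, e2 N (i r) (j r) (i (r + 1)) χ) =
      if Ok n N i j then co n N i j * Qc n N i j χ else 0 := by
    intro i j hi
    unfold e2
    rw [Finset.prod_ite_zero]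
    by_cases h : ∀ r : Fin n, j r ≤ i r ∧ j r ≤ i (r + 1)
    · rw [if_pos (fun r _ => h r), if_pos ⟨hi, fun r => (h r).1, fun r => (h r).2⟩]
      unfold co Pool.Agent.Y472.K.co Pool.Agent.Y472.K.Qc ww
      rw [Finset.prod_mul_distrib, Finset.prod_mul_distrib]
      push_cast
      ring
    · rw [if_neg (fun h' => h fun r => h' r (mem_univ r)),
        if_neg (fun h' => h fun r => ⟨h'.le r, h'.le' r⟩)]
  unfold cfg
  rw [Finset.sum_filter, Finset.sum_product]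
  have e5 := sum_fun n N (fun i => ∑ j ∈ Fintype.piFinset (fun _ : Fin n => range N),
    ∏ r, e2 N (i r) (j r) (i (r + 1)) χ)
  have e6 : ∀ w : Fin n → Fin N, (∑ z : Fin n → Fin N,
      ∏ r, e2 N (w r) (z r) (w (r + 1)) χ) =
      ∑ j ∈ Fintype.piFinset (fun _ : Fin n => range N),
        ∏ r, e2 N (w r) (j r) (w (r + 1)) χ := fun w =>
    sum_fun n N (fun j => ∏ r, e2 N (w r) (j r) (w (r + 1)) χ)
  simp only [e6]
  rw [e5]
  refine Finset.sum_congr rfl fun i hi => Finset.sum_congr rfl fun j _ => ?_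
  rw [Fintype.mem_piFinset] at hi
  rw [e4 i j (fun r => mem_range.1 (hi r))]

/-- the exact formula -/
theorem exac2 (n N : ℕ) [NeZero n] (hN : 2 ≤ N) :
    Pool.Agent.H550R3.Jones.cjones N 2 (bw (List.replicate n (2, -2))) (vN N) =
      ∑ c ∈ cfg n N, ct n N c.1 c.2 := by
  obtain ⟨u, u', A, B, huu, hA, hB, hc⟩ := cj2 N hN
  have h1 := Pool.Agent.Y814.PH.exp_formula N (List.replicate n (2, -2)) 0 hN (by
    rw [Ne, List.replicate_eq_nil_iff]
    exact NeZero.ne n)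
  have h2 : ftw 0 = [] := rfl
  rw [h2, List.nil_append] at h1
  rw [h1]
  have h3 : ∀ χ : ℂ, wE N 0 χ * Tf N (List.replicate n (2, -2)) χ =
      ∑ c ∈ cfg n N, (u * u') ^ n * co n N c.1 c.2 *
        (Complex.sin χ * Qc n N c.1 c.2 χ) := by
    intro χ
    rw [Tf_eq2 hA hB hc, wE, Pool.Agent.W711.HT.Ea]
    simp only [mul_zero, Int.cast_zero, zero_mul, zero_div, Complex.exp_zero, mul_one]
    rw [← mul_assoc, Finset.mul_sum]
    refine Finset.sum_congr rfl fun c _ => ?_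
    ring
  have h4 : ∀ z : ℂ, deriv (fun χ => wE N 0 χ * Tf N (List.replicate n (2, -2)) χ) z =
      ∑ c ∈ cfg n N, (u * u') ^ n * co n N c.1 c.2 *
        deriv (fun χ => Complex.sin χ * Qc n N c.1 c.2 χ) z := by
    intro z
    simp only [h3]
    have hd : ∀ c ∈ cfg n N, DifferentiableAt ℂ (fun χ => Complex.sin χ * Qc n N c.1 c.2 χ) z :=
      fun c _ => (Complex.differentiable_sin.mul (Qc_diff n N c.1 c.2)) z
    rw [deriv_fun_sum (fun c hcc => (hd c hcc).const_mul _)]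
    refine Finset.sum_congr rfl fun c hcc => ?_
    rw [deriv_const_mul _ (hd c hcc)]
  have h5 : ∑ p ∈ range N, deriv (fun χ => wE N 0 χ * Tf N (List.replicate n (2, -2)) χ)
      (2 * π * p / N) = (u * u') ^ n * ∑ c ∈ cfg n N, ct n N c.1 c.2 := by
    simp only [h4]
    rw [Finset.sum_comm, Finset.mul_sum]
    refine Finset.sum_congr rfl fun c _ => ?_
    rw [← Finset.mul_sum]
    unfold ct
    ring
  have h6 : Pool.Agent.Y482.Ph.pz N (List.replicate n (2, -2)) 0 = (-1) ^ n := by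
    have h7 : (Pool.Agent.Y481.wts (List.replicate n ((2 : ℤ), (-2 : ℤ)))).sum = 0 := by
      rw [Pool.Agent.Y481.wts]
      clear * -
      induction n with
      | zero => simp
      | succ k ih =>
        rw [List.replicate_succ, List.map_cons, List.flatten_cons, List.sum_append, ih]
        simp
    rw [Pool.Agent.Y482.Ph.pz, h7]
    simp
  rw [Pool.Agent.Y482.Ph.SB, h6, h5, huu]
  simp only [Int.cast_zero, mul_zero, zero_mul, sub_zero]
  rw [← mul_assoc, ← mul_pow]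
  norm_num

end Pool.Agent.H9.TP
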