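import Pool.Agent.H9.TP.Defs
import Pool.Graph.R_seed8.Y51.TK.Par

/-!
# Properties of the parameters
-/

set_option autoImplicit false

namespace Pool.Agent.H9.TP

open Finset Filter Topology MeasureTheory Pool.Agent.W711.HT Pool.Agent.Y472.K
open scoped Real

theorem par (n : ℕ) (hn : 2 ≤ n) : Par n := by
  have hn4 : (2 : ℝ) ≤ n := by exact_mod_cast hn
  have hn0 : (0 : ℝ) < n := by linarith
  have hpi := Real.pi_pos
  have hq : π / n ≤ π / 2 := div_le_div_of_nonneg_left hpi.le (by norm_num) hn4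
  have hq0 : 0 < π / n := by positivity
  have g2 : 0 ≤ ga n := by
    rw [← Real.cos_pi_div_two, ga]
    exact Real.cos_le_cos_of_nonneg_of_le_pi hq0.le (by linarith) hq
  have g3 : ga n < 1 := by
    have h := Real.cos_lt_cos_of_nonneg_of_le_pi le_rfl (by linarith : π / n ≤ π) hq0
    rwa [Real.cos_zero] at h
  have hC : Ch n = 2 - ga n := rfl
  have hg : ga n = Real.cos (π / n) := rfl
  have hbs : bs n = Real.arccos ((1 - ga n) / 2) / (2 * π) := rfl
  have hyn : yn n = Real.arsinh (√(Ch n ^ 2 - 1)) := rfl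
  have hgoal : (2 * Ch n - 2 * Real.cos (2 * π * bs n)) * (4 * Real.sin (π * bs n) ^ 2) =
      4 * Real.sin (2 * π * bs n) ^ 2 → 0 < Real.sin (π * bs n) →
      0 < Real.sin (2 * π * bs n) → 0 < 2 * Ch n - 2 * Real.cos (2 * π * bs n) →
      Real.log (2 * Ch n - 2 * Real.cos (2 * π * bs n)) +
        2 * Real.log (2 * Real.sin (π * bs n)) = 2 * Real.log (2 * Real.sin (2 * π * bs n)) := by
    intro h1 h2 h3 h4
    have e1 : 2 * Real.log (2 * Real.sin (π * bs n)) = Real.log (4 * Real.sin (π * bs n) ^ 2) := by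
      rw [show 4 * Real.sin (π * bs n) ^ 2 = (2 * Real.sin (π * bs n)) ^ 2 by ring, Real.log_pow]
      norm_num
    have e2 : 2 * Real.log (2 * Real.sin (2 * π * bs n)) =
        Real.log (4 * Real.sin (2 * π * bs n) ^ 2) := by
      rw [show 4 * Real.sin (2 * π * bs n) ^ 2 = (2 * Real.sin (2 * π * bs n)) ^ 2 by ring,
        Real.log_pow]
      norm_num
    rw [e1, e2, ← h1, Real.log_mul h4.ne' (by positivity)]
  generalize ga n = g at g2 g3 hC hg hbs
  have c1 : 1 < Ch n := by
    rw [hC]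
    linarith
  have c2 : Ch n ≤ 2 := by
    rw [hC]
    linarith
  have hs0 : 0 < Ch n ^ 2 - 1 := by nlinarith
  have y1 : 0 < yn n := by
    rw [hyn, Real.arsinh_pos_iff]
    exact Real.sqrt_pos.2 hs0
  have y2 : Real.cosh (yn n) = Ch n := by
    rw [hyn, Real.cosh_arsinh, Real.sq_sqrt hs0.le, add_sub_cancel, Real.sqrt_sq (by linarith)]
  have b0 : 2 * π * bs n = Real.arccos ((1 - g) / 2) := by
    rw [hbs]
    field_simp
  have hcos : Real.cos (2 * π * bs n) = (1 - g) / 2 := by
    rw [b0, Real.cos_arccos (by linarith) (by linarith)]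
  have b1 : 1 / 6 ≤ bs n := by
    have h := Real.arccos_le_arccos (show (1 - g) / 2 ≤ 1 / 2 by linarith)
    have h1 : Real.arccos (1 / 2) = π / 3 := by
      rw [← Real.cos_pi_div_three, Real.arccos_cos (by positivity) (by linarith)]
    rw [h1, ← b0] at h
    refine le_of_mul_le_mul_left ?_ (show 0 < 2 * π by positivity)
    linarith
  have b2 : bs n < 1 / 4 := by
    have h := Real.arccos_lt_arccos (by norm_num : (-1 : ℝ) ≤ 0)
      (by linarith : 0 < (1 - g) / 2) (by linarith)
    rw [Real.arccos_zero, ← b0] at h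
    refine lt_of_mul_lt_mul_left ?_ (show 0 ≤ 2 * π by positivity)
    linarith
  have hp1 : 0 < π * bs n := mul_pos hpi (by linarith)
  have hp2 : π * bs n < π / 4 := by
    have := mul_lt_mul_of_pos_left b2 hpi
    linarith
  have hsb : 0 < Real.sin (π * bs n) := Real.sin_pos_of_pos_of_lt_pi hp1 (by linarith)
  have hcb : 0 < Real.cos (π * bs n) := Real.cos_pos_of_mem_Ioo ⟨by linarith, by linarith⟩
  have hs2 : 0 < Real.sin (2 * π * bs n) := Real.sin_pos_of_pos_of_lt_pi (by linarith) (by linarith)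
  have u3 : Real.cos (2 * π * bs n) = 2 * Real.cos (π * bs n) ^ 2 - 1 := by
    rw [← Real.cos_two_mul]
    congr 1
    ring
  have v3 : Real.cos (π * bs n) ^ 2 = (3 - g) / 4 := by
    rw [hcos] at u3
    linarith
  have v4 : Real.sin (π * bs n) ^ 2 = (1 + g) / 4 := by
    rw [Real.sin_sq, v3]
    ring
  have hsq : (2 * Ch n - 2 * Real.cos (2 * π * bs n)) * (4 * Real.sin (π * bs n) ^ 2) =
      4 * Real.sin (2 * π * bs n) ^ 2 := by
    rw [v4, Real.sin_sq, hcos, hC]
    ring
  have hpos : 0 < 2 * Ch n - 2 * Real.cos (2 * π * bs n) := by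
    have := Real.cos_le_one (2 * π * bs n)
    linarith
  have hlog := hgoal hsq hsb hs2 hpos
  refine ⟨by rw [show ga n = g by rw [hg]; rfl]; exact g2,
    by rw [show ga n = g by rw [hg]; rfl]; exact g3, c1, c2, y1, y2, b1, b2,
    by rw [show ga n = g by rw [hg]; rfl]; exact hcos, hsq, hlog, ?_⟩
  have hsin : ∀ t ∈ Set.uIcc (bs n) (1 - bs n), 0 < Real.sin (π * t) := by
    intro t ht
    rw [Set.uIcc_of_le (by linarith)] at ht
    apply Real.sin_pos_of_pos_of_lt_pi
    · exact mul_pos hpi (by linarith [ht.1])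
    · have := mul_lt_mul_of_pos_left (show t < 1 by linarith [ht.2]) hpi
      linarith
  have hden : ∀ t : ℝ, 0 < Ch n - Real.cos (2 * π * t) := fun t => by
    linarith [Real.cos_le_one (2 * π * t)]
  have hint : IntervalIntegrable (fun t => Real.sinh (yn n) / (Ch n - Real.cos (2 * π * t)))
      volume (bs n) (1 - bs n) := by
    apply Continuous.intervalIntegrable
    refine continuous_const.div (by fun_prop) (fun t => (hden t).ne')
  have hI := intervalIntegral.integral_eq_sub_of_hasDerivAt (a := bs n) (b := 1 - bs n)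
    (f := fun t => -(1 / π) * Real.arctan (Real.sinh (yn n / 2) * Real.cos (π * t) /
    (Real.cosh (yn n / 2) * Real.sin (π * t))))
    (f' := fun t => Real.sinh (yn n) / (Ch n - Real.cos (2 * π * t))) (fun t ht => by
      have h := Pool.Agent.Y51.TK.hasDerivAt_prim (yn n) t (hsin t ht)
      rwa [y2] at h) hint
  rw [hI]
  have r1 : π * (1 - bs n) = π - π * bs n := by ring
  rw [r1, Real.cos_pi_sub, Real.sin_pi_sub]
  have r2 : Real.sinh (yn n / 2) * -Real.cos (π * bs n) /
      (Real.cosh (yn n / 2) * Real.sin (π * bs n)) =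
      -(Real.sinh (yn n / 2) * Real.cos (π * bs n) /
        (Real.cosh (yn n / 2) * Real.sin (π * bs n))) := by ring
  rw [r2, Real.arctan_neg]
  have hS : 0 < Real.sinh (yn n / 2) := Real.sinh_pos_iff.2 (by linarith)
  have hK : 0 < Real.cosh (yn n / 2) := Real.cosh_pos _
  have hm : π / (2 * n) = π / n / 2 := by
    field_simp
  have hsn : 0 < Real.sin (π / (2 * n)) :=
    Real.sin_pos_of_pos_of_lt_pi (by positivity) (by rw [hm]; linarith)
  have hcn : 0 < Real.cos (π / (2 * n)) :=
    Real.cos_pos_of_mem_Ioo ⟨by rw [hm]; linarith, by rw [hm]; linarith⟩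
  have hT : Real.sinh (yn n / 2) * Real.cos (π * bs n) /
        (Real.cosh (yn n / 2) * Real.sin (π * bs n)) = Real.tan (π / (2 * n)) := by
    rw [Real.tan_eq_sin_div_cos, div_eq_div_iff (by positivity) hcn.ne']
    have hp : 0 ≤ Real.sinh (yn n / 2) * Real.cos (π * bs n) * Real.cos (π / (2 * n)) := by
      positivity
    have hq' : 0 ≤ Real.sin (π / (2 * n)) * (Real.cosh (yn n / 2) * Real.sin (π * bs n)) := by
      positivity
    refine (sq_eq_sq₀ hp hq').1 ?_
    have u1 : Real.cosh (yn n / 2) ^ 2 + Real.sinh (yn n / 2) ^ 2 = Ch n := by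
      rw [← Real.cosh_two_mul, ← y2]
      congr 1
      ring
    have u2 : Real.cosh (yn n / 2) ^ 2 = Real.sinh (yn n / 2) ^ 2 + 1 := Real.cosh_sq _
    have u4 : Real.cos (π / n) = 2 * Real.cos (π / (2 * n)) ^ 2 - 1 := by
      rw [← Real.cos_two_mul, hm]
      congr 1
      ring
    have v1 : Real.sinh (yn n / 2) ^ 2 = (Ch n - 1) / 2 := by linarith
    have v2 : Real.cosh (yn n / 2) ^ 2 = (Ch n + 1) / 2 := by linarith
    have v5 : Real.cos (π / (2 * n)) ^ 2 = (1 + g) / 2 := by
      rw [← hg] at u4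
      linarith
    have v6 : Real.sin (π / (2 * n)) ^ 2 = (1 - g) / 2 := by
      rw [Real.sin_sq, v5]
      ring
    rw [mul_pow, mul_pow, mul_pow, mul_pow, v1, v2, v3, v4, v5, v6, hC]
    ring
  rw [hT, Real.arctan_tan (by rw [hm]; linarith) (by rw [hm]; linarith)]
  field_simp
  norm_num

end Pool.Agent.H9.TP
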