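import Pool.Agent.H9.TP.Ww
import Pool.Agent.H9.TP.Par
import Pool.Graph.R_seed8.Y430.TK.NearX

/-!
# The sum over the configurations near the maximum
-/

set_option autoImplicit false
set_option linter.all false

namespace Pool.Agent.H9.TP

open Finset Filter Topology MeasureTheory Pool.Agent.W711.HT Pool.Agent.Y472.K
open Pool.Agent.Y391.CB (kN)
open Pool.Agent.Y430.TK (kN_bound kN_lim norm_sin_le rate_sum co_bound Qc_bound co_eq An P1_eq P2_eq ph ps ps_ph ph_inj)
open scoped Real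

theorem rate_le {n : ℕ} [NeZero n] (hn : 1 ≤ n) {x E α β c ρ : ℝ} (hc : 0 ≤ c) {y : ℝ}
    (H : ∀ a b : ℝ, |a - α| ≤ ρ → |b - β| ≤ ρ →
      Ep x y a b ≤ E - c * (x ^ 2 + (a - α) ^ 2 + (b - β) ^ 2)) (a b : Fin n → ℝ)
    (ha : ∀ r, |a r - α| ≤ ρ) (hb : ∀ r, |b r - β| ≤ ρ) :
    ∑ r, (Ep x y (a r) (b r) + Ep x y (a (r + 1)) (b r)) ≤
      2 * n * E - c * (x ^ 2 + (∑ r, (a r - α) ^ 2 + ∑ r, (b r - β) ^ 2)) := by
  have h1 : ∑ r, (Ep x y (a r) (b r) + Ep x y (a (r + 1)) (b r)) ≤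
      ∑ r, (2 * E - c * (2 * x ^ 2 + ((a r - α) ^ 2 + (a (r + 1) - α) ^ 2 +
        2 * (b r - β) ^ 2))) := by
    refine sum_le_sum fun r _ => ?_
    have h2 := H (a r) (b r) (ha r) (hb r)
    have h3 := H (a (r + 1)) (b r) (ha (r + 1)) (hb r)
    linarith
  refine h1.trans ?_
  have h2 : ∑ r, (a (r + 1) - α) ^ 2 = ∑ r, (a r - α) ^ 2 :=
    Equiv.sum_comp (Equiv.addRight (1 : Fin n)) fun r => (a r - α) ^ 2
  have e : ∑ r, (2 * E - c * (2 * x ^ 2 + ((a r - α) ^ 2 + (a (r + 1) - α) ^ 2 +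
        2 * (b r - β) ^ 2))) =
      2 * n * E - c * (n * (2 * x ^ 2) + (∑ r, (a r - α) ^ 2 + ∑ r, (a r - α) ^ 2 +
        2 * ∑ r, (b r - β) ^ 2)) := by
    simp only [sum_sub_distrib, sum_add_distrib, ← mul_sum, sum_const, card_univ,
      Fintype.card_fin, nsmul_eq_mul]
    rw [h2]
    ring
  rw [e]
  have h3 : (1 : ℝ) ≤ n := by exact_mod_cast hn
  have h4 : 0 ≤ ∑ r, (a r - α) ^ 2 := sum_nonneg fun r _ => sq_nonneg _
  have h5 : 0 ≤ ∑ r, (b r - β) ^ 2 := sum_nonneg fun r _ => sq_nonneg _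
  have h6 : x ^ 2 + (∑ r, (a r - α) ^ 2 + ∑ r, (b r - β) ^ 2) ≤
      n * (2 * x ^ 2) + (∑ r, (a r - α) ^ 2 + ∑ r, (a r - α) ^ 2 +
        2 * ∑ r, (b r - β) ^ 2) := by nlinarith [sq_nonneg x]
  have h7 := mul_le_mul_of_nonneg_left h6 hc
  linarith

theorem rate_sum' {n : ℕ} [NeZero n] {y : ℝ} (hy : 0 < y) (x : ℝ) (a b : Fin n → ℝ) :
    ∑ r, (Ep x y (a r) (b r) + Ep x y (a (r + 1)) (b r)) =
      ∑ r, (Lc (a r - b r) + Lc (a (r + 1) - b r)) + ∑ r, (∫ t in (b r)..(a (r + 1)), lf x y t) +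
        Lw n a b := by
  rw [← rate_sum hy]
  unfold Ep Lw
  have h1 := sum_shift (n := n) fun r => Lc (a r)
  simp only [Finset.sum_add_distrib, Finset.sum_sub_distrib, ← Finset.mul_sum]
  rw [h1]
  ring

/-- the integrand of a configuration -/
noncomputable def Fc (n N : ℕ) [NeZero n] (i j : Fin n → ℕ) (x : ℝ) : ℂ :=
  co n N i j * (Complex.sin (x + yn n * Complex.I) * Qc n N i j (x + yn n * Complex.I) *
      kN N (x + yn n * Complex.I))

theorem dom (hSDA : S_SDA) (hQB : S_QB) (n : ℕ) [NeZero n] (hPAR : Par n) (hQUAD : Quad n) : ∃ ρ₁ c C : ℝ, 0 < ρ₁ ∧ 0 < c ∧ ∀ᶠ N : ℕ in atTop,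
      ∀ i j : Fin n → ℕ, Ok n N i j → (∀ r, |(i r : ℝ) / N - (1 - bs n)| ≤ ρ₁ ∧
        |(j r : ℝ) / N - bs n| ≤ ρ₁) → ∀ x : ℝ, |x| ≤ ρ₁ →
      ‖(N : ℂ) ^ n * Complex.exp (-(N * Dn n)) * Fc n N i j x‖ ≤
        C * Real.exp (-(c * (N * (∑ r, ((i r : ℝ) / N - (1 - bs n)) ^ 2 +
          ∑ r, ((j r : ℝ) / N - bs n) ^ 2) + N * x ^ 2))) := by
  have hy := hPAR.y0
  have hb1 := hPAR.b1
  have hb2 := hPAR.b2
  have hn : 1 ≤ n := Nat.pos_of_ne_zero (NeZero.ne n)
  obtain ⟨ρq, cq, hρq, hcq, HQ⟩ := hQUAD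
  obtain ⟨Cw, hCw, HW⟩ := ww_near (n := n) hSDA (δ₀ := 1 / 12) (by norm_num) (by norm_num)
  obtain ⟨C₁, hC₁, HS⟩ := hSDA.1 (1 / 6) (by norm_num) (by norm_num)
  obtain ⟨C₂, hC₂, HB⟩ := hQB (yn n) hy
  refine ⟨min ρq (1 / 12), cq, Cw * ((C₁ ^ 2) ^ n * C₂ ^ n * Real.exp (yn n) * 4),
    lt_min hρq (by norm_num), hcq, ?_⟩
  filter_upwards [HS, kN_bound hy, eventually_ge_atTop 1, HW] with N h1 h2 hN hW i j hOk hij x hx
  have hNp : (0 : ℝ) < N := by exact_mod_cast hN
  have hi : ∀ r, |(i r : ℝ) / N - (1 - bs n)| ≤ ρq := fun r => (hij r).1.trans (min_le_left _ _)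
  have hj : ∀ r, |(j r : ℝ) / N - bs n| ≤ ρq := fun r => (hij r).2.trans (min_le_left _ _)
  have hi' : ∀ r, |(i r : ℝ) / N - (1 - bs n)| ≤ 1 / 12 := fun r =>
    (hij r).1.trans (min_le_right _ _)
  have hj' : ∀ r, |(j r : ℝ) / N - bs n| ≤ 1 / 12 := fun r => (hij r).2.trans (min_le_right _ _)
  -- differences of the indices
  have hdiff : ∀ r s, j s ≤ i r → (Sd N (i r - j s))⁻¹ ≤
      C₁ / √N * Real.exp (N * Lc (((i r : ℝ) - j s) / N)) := by
    intro r s hrs
    have h3 := abs_le.1 (hi' r)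
    have h4 := abs_le.1 (hj' s)
    have e : ((i r - j s : ℕ) : ℝ) = (i r : ℝ) - j s := Nat.cast_sub hrs
    have e1 : ((i r : ℝ) - j s) / N = (i r : ℝ) / N - (j s : ℝ) / N := sub_div _ _ _
    have h5 : 1 / 6 ≤ ((i r : ℝ) - j s) / N := by rw [e1]; linarith [h3.1, h4.2]
    have h6 : ((i r : ℝ) - j s) / N ≤ 1 - 1 / 6 := by rw [e1]; linarith [h3.2, h4.1]
    rw [le_div_iff₀ hNp] at h5
    rw [div_le_iff₀ hNp] at h6
    have h7 := h1 (i r - j s) (by rw [e]; exact h5) (by rw [e]; exact h6)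
    rw [e] at h7
    exact h7
  have hww := hW i j hOk (fun r => by
    have h4 := abs_le.1 (hj' r)
    have h5 : 1 / 12 ≤ (j r : ℝ) / N := by linarith [h4.1]
    have h6 : (j r : ℝ) / N ≤ 1 - 1 / 12 := by linarith [h4.2]
    rw [le_div_iff₀ hNp] at h5
    rw [div_le_iff₀ hNp] at h6
    exact ⟨h5, h6⟩)
  have hw0 := ww_nonneg N i j
  have hco := co_bound hN i j hOk fun r => ⟨hdiff r r (hOk.le r), hdiff (r + 1) r (hOk.le' r)⟩
  have hQ := Qc_bound (y := yn n) (x := x) i j hOk fun j i h h' => HB N hN j i h h' x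
  have hs := norm_sin_le x hy.le
  have hk := h2 x
  unfold Fc
  rw [norm_mul, norm_mul, norm_mul, norm_mul, norm_mul, norm_pow, Complex.norm_natCast,
    Complex.norm_exp]
  have e3 : (-((N : ℂ) * Dn n)).re = -(N * Dn n) := by
    rw [Complex.neg_re, ← Complex.ofReal_natCast, Complex.re_ofReal_mul, Complex.ofReal_re]
  rw [e3]
  -- the rate
  have hrate := rate_le (n := n) (x := x) (E := Es n) (α := 1 - bs n) (β := bs n) (ρ := ρq)
    (y := yn n) hn hcq.le (fun a b ha hb => HQ x a b (hx.trans (min_le_left _ _)) ha hb)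
    (fun r => (i r : ℝ) / N) (fun r => (j r : ℝ) / N) hi hj
  rw [rate_sum' hy] at hrate
  simp only [← sub_div] at hrate
  set W : ℝ := Lw n (fun r => (i r : ℝ) / N) (fun r => (j r : ℝ) / N) with hWdef
  have hexp : (N : ℝ) * (∑ r, (Lc (((i r : ℝ) - j r) / N) + Lc (((i (r + 1) : ℝ) - j r) / N))) +
      N * (∑ r, ∫ t in ((j r : ℝ) / N)..((i (r + 1) : ℝ) / N), lf x (yn n) t) - N * yn n -
      N * Dn n + N * W ≤ -(cq * (N * (∑ r, ((i r : ℝ) / N - (1 - bs n)) ^ 2 +
          ∑ r, ((j r : ℝ) / N - bs n) ^ 2) + N * x ^ 2)) := by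
    have h3 := mul_le_mul_of_nonneg_left hrate hNp.le
    unfold Dn
    linarith
  have hcon : ‖co n N i j‖ = ‖Pool.Agent.Y472.K.co n N i j‖ * ww n N i j := by
    unfold co
    rw [norm_mul, Complex.norm_real, Real.norm_of_nonneg hw0]
  rw [hcon]
  calc (N : ℝ) ^ n * Real.exp (-(N * Dn n)) * (‖Pool.Agent.Y472.K.co n N i j‖ * ww n N i j *
        (‖Complex.sin (x + yn n * Complex.I)‖ * ‖Qc n N i j (x + yn n * Complex.I)‖ *
          ‖kN N (x + yn n * Complex.I)‖))
      = ((N : ℝ) ^ n * ‖Pool.Agent.Y472.K.co n N i j‖) * ww n N i j * Real.exp (-(N * Dn n)) *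
        (‖Complex.sin (x + yn n * Complex.I)‖ * ‖Qc n N i j (x + yn n * Complex.I)‖ *
          ‖kN N (x + yn n * Complex.I)‖) := by ring
    _ ≤ ((C₁ ^ 2) ^ n * Real.exp (N * ∑ r,
          (Lc (((i r : ℝ) - j r) / N) + Lc (((i (r + 1) : ℝ) - j r) / N)))) *
        (Cw * Real.exp (N * W)) *
        Real.exp (-(N * Dn n)) * (Real.exp (yn n) * (C₂ ^ n * Real.exp (N * ∑ r,
          ∫ t in ((j r : ℝ) / N)..((i (r + 1) : ℝ) / N), lf x (yn n) t)) *
          (4 * Real.exp (-(N * yn n)))) := by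
        gcongr
    _ = Cw * ((C₁ ^ 2) ^ n * C₂ ^ n * Real.exp (yn n) * 4) * Real.exp (
        (N : ℝ) * (∑ r, (Lc (((i r : ℝ) - j r) / N) + Lc (((i (r + 1) : ℝ) - j r) / N))) +
        N * (∑ r, ∫ t in ((j r : ℝ) / N)..((i (r + 1) : ℝ) / N), lf x (yn n) t) - N * yn n -
        N * Dn n + N * W) := by
        rw [sub_eq_add_neg, sub_eq_add_neg, Real.exp_add, Real.exp_add, Real.exp_add, Real.exp_add]
        ring
    _ ≤ _ := by
        refine mul_le_mul_of_nonneg_left (Real.exp_le_exp.2 hexp) (by positivity)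

/-- the decomposition of the term -/
theorem term_eq {n N : ℕ} [NeZero n] (hN : 1 ≤ N) (i j : Fin n → ℕ) (hOk : Ok n N i j) (x : ℝ) :
    (N : ℂ) ^ n * Complex.exp (-(N * Dn n)) * Fc n N i j x =
      (∏ r, ((An N (i r - j r) : ℂ)⁻¹ * (An N (i (r + 1) - j r) : ℂ)⁻¹)) *
      (∏ r, (Pq N (j r) (i (r + 1)) (x + yn n * Complex.I) * Complex.exp
        (-(N * ∫ t in ((j r : ℝ) / N)..((i (r + 1) : ℝ) / N), clf x (yn n) t)))) *
      Complex.sin (x + yn n * Complex.I) *
      (kN N (x + yn n * Complex.I) * Complex.exp (-(Complex.I * N * x - N * yn n))) *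
      ((ww n N i j * Real.exp (-(N * Lw n (fun r => (i r : ℝ) / N) (fun r => (j r : ℝ) / N))) :
        ℝ) : ℂ) *
      Complex.exp ((N : ℂ) * (Xe n N i j x - Dn n) +
        Complex.I * π / N * ∑ r, ((i r : ℂ) - i (r + 1)) * j r) := by
  rw [P1_eq hN i j hOk, P2_eq]
  unfold Fc co
  rw [co_eq]
  unfold Xe
  set L : ℂ := ∑ r, ((Lc (((i r : ℝ) - j r) / N) : ℂ) +
    (Lc (((i (r + 1) : ℝ) - j r) / N) : ℂ)) with hL
  set J : ℂ := ∑ r, ∫ t in ((j r : ℝ) / N)..((i (r + 1) : ℝ) / N), clf x (yn n) t with hJ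
  set E : ℂ := Complex.I * π / N * ∑ r, ((i r : ℂ) - i (r + 1)) * j r with hE
  set D : ℂ := ∏ r, ((Sd N (i r - j r) : ℂ) * (Sd N (i (r + 1) - j r) : ℂ))⁻¹ with hD
  set W : ℝ := Lw n (fun r => (i r : ℝ) / N) (fun r => (j r : ℝ) / N) with hW
  have hW2 : 2 * ∑ r, ((Lc ((j r : ℝ) / N) : ℂ) - (Lc ((i r : ℝ) / N) : ℂ)) = (W : ℂ) := by
    rw [hW]
    unfold Lw
    rw [← mul_sum]
    push_cast
    ring
  rw [hW2]
  have hexp : Complex.exp (-(N * Dn n)) * Complex.exp E = Complex.exp (-(N * L)) *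
      Complex.exp (-(N * J)) * Complex.exp (-(Complex.I * N * x - N * yn n)) *
      Complex.exp (-(N * W)) *
      Complex.exp ((N : ℂ) * (L + J + Complex.I * x - yn n + W - Dn n) + E) := by
    rw [← Complex.exp_add, ← Complex.exp_add, ← Complex.exp_add, ← Complex.exp_add,
      ← Complex.exp_add]
    congr 1
    ring
  have hre : ((ww n N i j * Real.exp (-(N * W)) : ℝ) : ℂ) =
      (ww n N i j : ℂ) * Complex.exp (-(N * W)) := by
    push_cast
    rfl
  rw [hre]
  linear_combination ((ww n N i j : ℂ) * (N : ℂ) ^ n * D * Complex.sin (x + yn n * Complex.I) *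
    Qc n N i j (x + yn n * Complex.I) * kN N (x + yn n * Complex.I)) * hexp

/-- the constant -/
noncomputable def kap (n : ℕ) : ℂ := ((√(2 * Real.sin (π * (1 - 2 * bs n))) : ℝ) : ℂ)

/-- the limit of the term -/
noncomputable def lm (n : ℕ) (w : ℂ) : ℂ :=
  ((kap n)⁻¹ * (kap n)⁻¹) ^ n * Complex.sin (yn n * Complex.I) * Complex.exp w

theorem kap_ne {n : ℕ} (h1 : 0 < bs n) (h2 : bs n < 1 / 2) : kap n ≠ 0 := by
  unfold kap
  have h3 : 0 < Real.sin (π * (1 - 2 * bs n)) := by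
    have hp := Real.pi_pos
    refine Real.sin_pos_of_pos_of_lt_pi ?_ ?_
    · exact mul_pos hp (by linarith)
    · have : π * (1 - 2 * bs n) < π * 1 := mul_lt_mul_of_pos_left (by linarith) hp
      linarith
  have h4 : 0 < √(2 * Real.sin (π * (1 - 2 * bs n))) := Real.sqrt_pos.2 (by linarith)
  exact_mod_cast h4.ne'

theorem plim (hSDA : S_SDA) (hQDA : S_QDA) (n : ℕ) [NeZero n] (hPAR : Par n)
    (i j : ℕ → Fin n → ℕ) (x : ℕ → ℝ) (w : ℂ)
    (hi : ∀ r, Tendsto (fun N : ℕ => (i N r : ℝ) / N) atTop (𝓝 (1 - bs n)))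
    (hj : ∀ r, Tendsto (fun N : ℕ => (j N r : ℝ) / N) atTop (𝓝 (bs n)))
    (hx : Tendsto x atTop (𝓝 0)) (hOk : ∀ᶠ N in atTop, Ok n N (i N) (j N))
    (hPT : Tendsto (fun N : ℕ => (N : ℂ) * (Xe n N (i N) (j N) (x N) - Dn n) +
        Complex.I * π / N * ∑ r, ((i N r : ℂ) - i N (r + 1)) * j N r) atTop (𝓝 w)) :
    Tendsto (fun N : ℕ => (N : ℂ) ^ n * Complex.exp (-(N * Dn n)) *
      Fc n N (i N) (j N) (x N)) atTop (𝓝 (lm n w)) := by
  have hy := hPAR.y0
  have hb1 := hPAR.b1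
  have hb2 := hPAR.b2
  have hk := kap_ne (n := n) (by linarith) (by linarith)
  -- the products of sines
  have hA : ∀ r s, (∀ᶠ N in atTop, j N s ≤ i N r) →
      Tendsto (fun N : ℕ => (An N (i N r - j N s) : ℂ)⁻¹) atTop (𝓝 (kap n)⁻¹) := by
    intro r s hrs
    have h1 : Tendsto (fun N : ℕ => ((i N r - j N s : ℕ) : ℝ) / N) atTop
        (𝓝 (1 - 2 * bs n)) := by
      have h2 := (hi r).sub (hj s)
      have e : 1 - bs n - bs n = 1 - 2 * bs n := by ring
      rw [e] at h2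
      refine h2.congr' ?_
      filter_upwards [hrs] with N hN
      rw [Nat.cast_sub hN, sub_div]
    have h2 := hSDA.2 (fun N => i N r - j N s) (1 - 2 * bs n) (by linarith) (by linarith) h1
    have h3 : Tendsto (fun N : ℕ => ((An N (i N r - j N s) : ℝ) : ℂ)) atTop (𝓝 (kap n)) :=
      (Complex.continuous_ofReal.tendsto _).comp h2
    exact h3.inv₀ hk
  have hP1 : Tendsto (fun N : ℕ => ∏ r, ((An N (i N r - j N r) : ℂ)⁻¹ *
      (An N (i N (r + 1) - j N r) : ℂ)⁻¹)) atTop (𝓝 (∏ _r : Fin n, ((kap n)⁻¹ * (kap n)⁻¹))) := by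
    refine tendsto_finsetProd _ fun r _ => (hA r r ?_).mul (hA (r + 1) r ?_)
    · filter_upwards [hOk] with N hN using hN.le r
    · filter_upwards [hOk] with N hN using hN.le' r
  rw [prod_const, card_univ, Fintype.card_fin] at hP1
  -- the products `Pq`
  have hP2 : Tendsto (fun N : ℕ => ∏ r, (Pq N (j N r) (i N (r + 1)) (x N + yn n * Complex.I) *
      Complex.exp (-(N * ∫ t in ((j N r : ℝ) / N)..((i N (r + 1) : ℝ) / N),
        clf (x N) (yn n) t)))) atTop (𝓝 (∏ _r : Fin n, 1)) := by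
    refine tendsto_finsetProd _ fun r _ => ?_
    refine hQDA (yn n) hy (fun N => i N (r + 1)) (fun N => j N r) x (1 - bs n) (bs n) ?_ hx
      (hi (r + 1)) (hj r) ?_
    · filter_upwards [hOk] with N hN using ⟨hN.le' r, (hN.lt (r + 1)).le⟩
    · rw [show 2 * π * (1 - bs n) = 2 * π - 2 * π * bs n by ring, Real.cos_two_pi_sub]
  rw [prod_const_one] at hP2
  have hP3 : Tendsto (fun N : ℕ => Complex.sin (x N + yn n * Complex.I)) atTop
      (𝓝 (Complex.sin (yn n * Complex.I))) := by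
    have hc : Continuous fun t : ℝ => Complex.sin (t + yn n * Complex.I) := by fun_prop
    have h1 := (hc.tendsto 0).comp hx
    simp only [Complex.ofReal_zero, zero_add] at h1
    exact h1
  have hP4 := kN_lim hy x
  have hP5 := (Complex.continuous_exp.tendsto w).comp hPT
  have hP6 : Tendsto (fun N : ℕ => ((ww n N (i N) (j N) * Real.exp (-(N * Lw n
      (fun r => (i N r : ℝ) / N) (fun r => (j N r : ℝ) / N))) : ℝ) : ℂ)) atTop (𝓝 1) := by
    have h1 := ww_lim hSDA (β := bs n) (by linarith) (by linarith) i j hi hj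
    have h2 := (Complex.continuous_ofReal.tendsto _).comp h1
    rw [Complex.ofReal_one] at h2
    exact h2
  have hall := ((((hP1.mul hP2).mul hP3).mul hP4).mul hP6).mul hP5
  have e : ((kap n)⁻¹ * (kap n)⁻¹) ^ n * 1 * Complex.sin (yn n * Complex.I) * 1 * 1 *
      Complex.exp w = lm n w := by
    unfold lm
    ring
  rw [e] at hall
  refine hall.congr' ?_
  filter_upwards [hOk, eventually_ge_atTop 1] with N hN h1
  exact (term_eq h1 (i N) (j N) hN (x N)).symm

/-- the configurations near the centre -/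
noncomputable def SS (n N : ℕ) [NeZero n] (ρ : ℝ) : Finset ((Fin n → ℕ) × (Fin n → ℕ)) :=
  (cfg n N).filter (fun c => ∀ r, |(c.1 r : ℝ) / N - (1 - bs n)| < ρ ∧
        |(c.2 r : ℝ) / N - bs n| < ρ)

theorem mem_SS {n N : ℕ} [NeZero n] {ρ : ℝ} {c : (Fin n → ℕ) × (Fin n → ℕ)} :
    c ∈ SS n N ρ ↔ Ok n N c.1 c.2 ∧ ∀ r, |(c.1 r : ℝ) / N - (1 - bs n)| < ρ ∧
        |(c.2 r : ℝ) / N - bs n| < ρ := by
  unfold SS cfg
  simp only [mem_filter, mem_product, Fintype.mem_piFinset]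
  constructor
  · rintro ⟨⟨_, h1⟩, h2⟩
    exact ⟨h1, h2⟩
  · rintro ⟨h1, h2⟩
    exact ⟨⟨⟨fun r => mem_range.2 (h1.lt r), fun r => mem_range.2
      ((h1.le r).trans_lt (h1.lt r))⟩, h1⟩, h2⟩

/-- the terms -/
noncomputable def fk (n : ℕ) [NeZero n] (ρ ρ' : ℝ) (N : ℕ) (k : Fin n ⊕ Fin n → ℤ) (x : ℝ) : ℂ :=
  if k ∈ (SS n N ρ).image ph then (Set.Ioc (-ρ') ρ').indicator (fun x => (N : ℂ) ^ n *
    Complex.exp (-(N * Dn n)) * Fc n N (ps k).1 (ps k).2 x) x else 0

theorem Fc_meas (n N : ℕ) [NeZero n] (i j : Fin n → ℕ) : Measurable (Fc n N i j) := by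
  unfold Fc
  refine Measurable.const_mul (Measurable.mul ?_ ?_) _
  · refine Continuous.measurable ?_
    unfold Qc Pq
    fun_prop
  · unfold Pool.Agent.Y391.CB.kN
    refine Measurable.div ?_ ?_
    · exact Continuous.measurable (by fun_prop)
    · exact Continuous.measurable (by fun_prop)

theorem fk_meas (n : ℕ) [NeZero n] (ρ ρ' : ℝ) (N : ℕ) (k : Fin n ⊕ Fin n → ℤ) :
    Measurable (fk n ρ ρ' N k) := by
  unfold fk
  by_cases h : k ∈ (SS n N ρ).image ph
  · simp only [if_pos h]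
    exact ((Fc_meas n N _ _).const_mul _).indicator measurableSet_Ioc
  · simp only [if_neg h]
    exact measurable_const

theorem fk_sum (n : ℕ) [NeZero n] (ρ : ℝ) {ρ' : ℝ} (hρ' : 0 < ρ') (N : ℕ) :
    ∑' k : Fin n ⊕ Fin n → ℤ, ∫ x, fk n ρ ρ' N k x = (N : ℂ) ^ n * Complex.exp (-(N * Dn n)) *
      ∑ c ∈ SS n N ρ, co n N c.1 c.2 * ∫ x in (-ρ')..ρ',
          (Complex.sin (x + yn n * Complex.I) * Qc n N c.1 c.2 (x + yn n * Complex.I) *
            kN N (x + yn n * Complex.I)) := by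
  rw [tsum_eq_sum (s := (SS n N ρ).image ph)]
  · rw [sum_image fun c _ c' _ h => ph_inj h, mul_sum]
    refine sum_congr rfl fun c hc => ?_
    have h1 : ∀ x, fk n ρ ρ' N (ph c) x = (Set.Ioc (-ρ') ρ').indicator (fun x => (N : ℂ) ^ n *
        Complex.exp (-(N * Dn n)) * Fc n N c.1 c.2 x) x := by
      intro x
      unfold fk
      rw [if_pos (mem_image_of_mem _ hc), ps_ph]
    simp only [h1]
    rw [integral_indicator measurableSet_Ioc, ← intervalIntegral.integral_of_le (by linarith),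
      intervalIntegral.integral_const_mul]
    unfold Fc
    rw [intervalIntegral.integral_const_mul]
  · intro k hk
    have h1 : ∀ x, fk n ρ ρ' N k x = 0 := by
      intro x
      unfold fk
      rw [if_neg hk]
    simp only [h1, integral_zero]

/-- the centre -/
noncomputable def mm (n N : ℕ) : Fin n ⊕ Fin n → ℝ :=
  Sum.elim (fun _ => N * (1 - bs n)) (fun _ => N * bs n)

/-- NEARX: the sum over the configurations near the maximum, with the value of the limit -/
theorem nearx (hLAP : S_LAP) (hSDA : S_SDA) (hQDA : S_QDA) (hQB : S_QB) (n : ℕ) [NeZero n]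
    (hPAR : Par n) (hQUAD : Quad n) (R S : QuadraticForm ℝ ((Fin n ⊕ Fin n → ℝ) × ℝ))
    (hRS : PTp n R S) : NearX n R S := by
  have HPT := hRS.lim
  obtain ⟨ρ₁, c, C, hρ₁, hc, hdom⟩ := dom hSDA hQB n hPAR hQUAD
  have hy := hPAR.y0
  have hb1 := hPAR.b1
  have hb2 := hPAR.b2
  obtain ⟨ρ', hρ'⟩ : ∃ ρ', ρ' = min ρ₁ 1 := ⟨_, rfl⟩
  have hρ'0 : 0 < ρ' := by rw [hρ']; exact lt_min hρ₁ one_pos
  have hρ'1 : ρ' ≤ ρ₁ := by rw [hρ']; exact min_le_left _ _
  have hsin : 0 < 2 * Real.sin (π * (1 - 2 * bs n)) := by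
    have hpi := Real.pi_pos
    have := Real.sin_pos_of_pos_of_lt_pi (x := π * (1 - 2 * bs n)) (by nlinarith) (by nlinarith)
    linarith
  refine ⟨ρ', ρ₁, hρ'0, ?_, hρ₁, (2 * Real.sin (π * (1 - 2 * bs n)))⁻¹ ^ n * Real.sinh (yn n),
    ?_, ?_⟩
  · have := Real.pi_gt_three
    have : ρ' ≤ 1 := by rw [hρ']; exact min_le_right _ _
    linarith
  · exact mul_pos (pow_pos (inv_pos.2 hsin) _) (Real.sinh_pos_iff.2 hy)
  intro ρ hρ hρ1
  have hval : Complex.I * (((2 * Real.sin (π * (1 - 2 * bs n)))⁻¹ ^ n * Real.sinh (yn n) : ℝ) : ℂ) *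
      ∫ v, Complex.exp (-(R v : ℂ) - Complex.I * (S v : ℂ)) =
      ∫ v, lm n (-(R v : ℂ) - Complex.I * (S v : ℂ)) := by
    unfold lm
    rw [integral_const_mul]
    congr 1
    have h1 : (kap n)⁻¹ * (kap n)⁻¹ = (((2 * Real.sin (π * (1 - 2 * bs n)))⁻¹ : ℝ) : ℂ) := by
      unfold kap
      rw [← mul_inv, ← Complex.ofReal_mul, Real.mul_self_sqrt hsin.le, ← Complex.ofReal_inv]
    rw [h1, Complex.sin_mul_I, ← Complex.ofReal_sinh]
    push_cast
    ring
  rw [hval]
  have h := hLAP (Fin n ⊕ Fin n) (fk n ρ ρ') (mm n)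
    (fun v => lm n (-(R v : ℂ) - Complex.I * (S v : ℂ))) (max C 0) c hc (fk_meas n ρ ρ') ?_ ?_
  · -- conclusion
    refine h.congr' ?_
    filter_upwards [eventually_ge_atTop 1] with N hN
    have hNp : (0 : ℝ) < N := by exact_mod_cast hN
    rw [fk_sum n ρ hρ'0 N, Fintype.card_sum, Fintype.card_fin]
    have hs : ((√(N : ℝ) : ℝ) : ℂ) ^ (n + n) = (N : ℂ) ^ n := by
      rw [← two_mul, pow_mul, sq, ← Complex.ofReal_mul, Real.mul_self_sqrt hNp.le,
        Complex.ofReal_natCast]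
    rw [hs]
    have hN0 : (N : ℂ) ^ n ≠ 0 := pow_ne_zero _ (by exact_mod_cast hNp.ne')
    unfold SS
    field_simp
  · -- domination
    filter_upwards [hdom, eventually_ge_atTop 1] with N h1 hN k x
    have hNp : (0 : ℝ) < N := by exact_mod_cast hN
    unfold fk
    split_ifs with hk
    · obtain ⟨⟨i, j⟩, hij, rfl⟩ := mem_image.1 hk
      rw [ps_ph]
      rw [mem_SS] at hij
      obtain ⟨hOk, hcl⟩ := hij
      by_cases hx : x ∈ Set.Ioc (-ρ') ρ'
      · rw [Set.indicator_of_mem hx]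
        have hx' : |x| ≤ ρ₁ := abs_le.2 ⟨by linarith [hx.1], by linarith [hx.2]⟩
        refine (h1 i j hOk (fun r => ⟨(hcl r).1.le.trans hρ1, (hcl r).2.le.trans hρ1⟩) x
          hx').trans ?_
        have e : (∑ s, ((ph (i, j) s : ℝ) - mm n N s) ^ 2) / N =
            N * (∑ r, ((i r : ℝ) / N - (1 - bs n)) ^ 2 + ∑ r, ((j r : ℝ) / N - bs n) ^ 2) := by
          rw [Fintype.sum_sum_type, add_div, sum_div, sum_div, mul_add, mul_sum, mul_sum]
          congr 1
          · refine sum_congr rfl fun r _ => ?_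
            simp only [ph, mm, Sum.elim_inl, Int.cast_natCast]
            field_simp
          · refine sum_congr rfl fun r _ => ?_
            simp only [ph, mm, Sum.elim_inr, Int.cast_natCast]
            field_simp
        rw [e]
        exact mul_le_mul_of_nonneg_right (le_max_left _ _) (Real.exp_pos _).le
      · rw [Set.indicator_of_notMem hx, norm_zero]
        positivity
    · rw [norm_zero]
      positivity
  · -- pointwise limit
    intro k x v hk hx
    have hsq : Tendsto (fun N : ℕ => 1 / √(N : ℝ)) atTop (𝓝 0) := by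
      have h1 : Tendsto (fun N : ℕ => √(N : ℝ)) atTop atTop :=
        Real.tendsto_sqrt_atTop.comp tendsto_natCast_atTop_atTop
      simp only [one_div]
      exact h1.inv_tendsto_atTop
    have hk0 : ∀ s, Tendsto (fun N : ℕ => (k N s : ℝ) / N) atTop
        (𝓝 (Sum.elim (fun _ => 1 - bs n) (fun _ => bs n) s)) := by
      intro s
      have h1 := (hk s).mul hsq
      rw [mul_zero] at h1
      have h2 := h1.add_const (Sum.elim (fun _ => 1 - bs n) (fun _ => bs n) s)
      rw [zero_add] at h2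
      refine h2.congr' ?_
      filter_upwards [eventually_ge_atTop 1] with N hN
      have hNp : (0 : ℝ) < N := by exact_mod_cast hN
      have hs : √(N : ℝ) * √N = N := Real.mul_self_sqrt hNp.le
      have hs0 : 0 < √(N : ℝ) := Real.sqrt_pos.2 hNp
      rw [mul_one_div, div_div, hs]
      rcases s with r | r
      · simp only [mm, Sum.elim_inl]
        field_simp
        ring
      · simp only [mm, Sum.elim_inr]
        field_simp
        ring
    have hx0 : Tendsto x atTop (𝓝 0) := by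
      have h1 := hx.mul hsq
      rw [mul_zero] at h1
      refine h1.congr' ?_
      filter_upwards [eventually_ge_atTop 1] with N hN
      have hNp : (0 : ℝ) < N := by exact_mod_cast hN
      have hs0 : 0 < √(N : ℝ) := Real.sqrt_pos.2 hNp
      field_simp
    have hpos : ∀ᶠ N : ℕ in atTop, ∀ s, 0 ≤ k N s := by
      rw [eventually_all]
      intro s
      have h1 : (0 : ℝ) < Sum.elim (fun _ => 1 - bs n) (fun _ => bs n) s := by
        rcases s with r | r
        · simp only [Sum.elim_inl]; linarith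
        · simp only [Sum.elim_inr]; linarith
      filter_upwards [(hk0 s).eventually_const_lt h1, eventually_ge_atTop 1] with N h2 hN
      have hNp : (0 : ℝ) < N := by exact_mod_cast hN
      have h3 : (0 : ℝ) < k N s := by
        have := mul_pos h2 hNp
        rwa [div_mul_cancel₀ _ hNp.ne'] at this
      exact_mod_cast h3.le
    obtain ⟨i, hi⟩ : ∃ i : ℕ → Fin n → ℕ, i = fun N r => (k N (Sum.inl r)).toNat := ⟨_, rfl⟩
    obtain ⟨j, hj⟩ : ∃ j : ℕ → Fin n → ℕ, j = fun N r => (k N (Sum.inr r)).toNat := ⟨_, rfl⟩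
    have hik : ∀ᶠ N : ℕ in atTop, (∀ r, (i N r : ℤ) = k N (Sum.inl r)) ∧
        ∀ r, (j N r : ℤ) = k N (Sum.inr r) := by
      filter_upwards [hpos] with N hN
      rw [hi, hj]
      exact ⟨fun r => Int.toNat_of_nonneg (hN _), fun r => Int.toNat_of_nonneg (hN _)⟩
    have hi0 : ∀ r, Tendsto (fun N : ℕ => (i N r : ℝ) / N) atTop (𝓝 (1 - bs n)) := by
      intro r
      have h1 := hk0 (Sum.inl r)
      simp only [Sum.elim_inl] at h1
      refine h1.congr' ?_
      filter_upwards [hik] with N hN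
      rw [← hN.1 r, Int.cast_natCast]
    have hj0 : ∀ r, Tendsto (fun N : ℕ => (j N r : ℝ) / N) atTop (𝓝 (bs n)) := by
      intro r
      have h1 := hk0 (Sum.inr r)
      simp only [Sum.elim_inr] at h1
      refine h1.congr' ?_
      filter_upwards [hik] with N hN
      rw [← hN.2 r, Int.cast_natCast]
    have hOk : ∀ᶠ N in atTop, Ok n N (i N) (j N) := by
      have h1 : ∀ᶠ N : ℕ in atTop, ∀ r, 1 / 2 < (i N r : ℝ) / N ∧ (i N r : ℝ) / N < 1 := by
        rw [eventually_all]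
        intro r
        filter_upwards [(hi0 r).eventually_const_lt (by linarith : (1 : ℝ) / 2 < 1 - bs n),
          (hi0 r).eventually_lt_const (by linarith : 1 - bs n < 1)] with N h2 h3 using ⟨h2, h3⟩
      have h2 : ∀ᶠ N : ℕ in atTop, ∀ r, (j N r : ℝ) / N < 1 / 2 := by
        rw [eventually_all]
        intro r
        exact (hj0 r).eventually_lt_const (by linarith : bs n < 1 / 2)
      filter_upwards [h1, h2, eventually_ge_atTop 1] with N h3 h4 hN
      have hNp : (0 : ℝ) < N := by exact_mod_cast hN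
      have h5 : ∀ r s, j N s ≤ i N r := by
        intro r s
        have h6 := (h4 s).trans (h3 r).1
        rw [div_lt_div_iff_of_pos_right hNp] at h6
        exact_mod_cast h6.le
      refine ⟨fun r => ?_, fun r => h5 r r, fun r => h5 (r + 1) r⟩
      have h6 := (h3 r).2
      rw [div_lt_one hNp] at h6
      exact_mod_cast h6
    have hcl : ∀ᶠ N : ℕ in atTop, ∀ r, |(i N r : ℝ) / N - (1 - bs n)| < ρ ∧
        |(j N r : ℝ) / N - bs n| < ρ := by
      rw [eventually_all]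
      intro r
      have h1 := (Metric.tendsto_nhds.1 (hi0 r)) ρ hρ
      have h2 := (Metric.tendsto_nhds.1 (hj0 r)) ρ hρ
      filter_upwards [h1, h2] with N h3 h4 using ⟨h3, h4⟩
    have hxm : ∀ᶠ N : ℕ in atTop, x N ∈ Set.Ioc (-ρ') ρ' := by
      filter_upwards [hx0.eventually_const_lt (by linarith : -ρ' < 0),
        hx0.eventually_lt_const hρ'0] with N h1 h2 using ⟨h1, h2.le⟩
    have hPTw := HPT i j x v (fun r => by
        refine (hk (Sum.inl r)).congr' ?_
        filter_upwards [hik, eventually_ge_atTop 1] with N h1 hN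
        have hNp : (0 : ℝ) < N := by exact_mod_cast hN
        have hs : √(N : ℝ) * √N = N := Real.mul_self_sqrt hNp.le
        have hs0 : 0 < √(N : ℝ) := Real.sqrt_pos.2 hNp
        rw [← h1.1 r, Int.cast_natCast]
        simp only [mm, Sum.elim_inl]
        rw [div_eq_iff hs0.ne', mul_assoc, mul_comm _ (√(N : ℝ)), ← mul_assoc, hs]
        field_simp) (fun r => by
        refine (hk (Sum.inr r)).congr' ?_
        filter_upwards [hik, eventually_ge_atTop 1] with N h1 hN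
        have hNp : (0 : ℝ) < N := by exact_mod_cast hN
        have hs : √(N : ℝ) * √N = N := Real.mul_self_sqrt hNp.le
        have hs0 : 0 < √(N : ℝ) := Real.sqrt_pos.2 hNp
        rw [← h1.2 r, Int.cast_natCast]
        simp only [mm, Sum.elim_inr]
        rw [div_eq_iff hs0.ne', mul_assoc, mul_comm _ (√(N : ℝ)), ← mul_assoc, hs]
        field_simp) hx
    have hlim := plim hSDA hQDA n hPAR i j x _ hi0 hj0 hx0 hOk hPTw
    refine hlim.congr' ?_
    filter_upwards [hik, hOk, hcl, hxm] with N h1 h2 h3 h4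
    have e : k N = ph (i N, j N) := by
      funext s
      rcases s with r | r
      · exact (h1.1 r).symm
      · exact (h1.2 r).symm
    unfold fk
    rw [e, if_pos (mem_image_of_mem _ (mem_SS.2 ⟨h2, h3⟩)), ps_ph, Set.indicator_of_mem h4]


end Pool.Agent.H9.TP
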