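import Pool.Agent.H9.TP.Par
import Pool.Graph.R_seed8.Y180.TK.Pt

set_option autoImplicit false
set_option linter.all false

/-!
# The limit of the exponent near the maximum
-/

namespace Pool.Agent.H9.TP

open Filter Topology MeasureTheory Set
open Pool.Agent.Y472.K
open Pool.Agent.Y180.TK (Rt tc Lc_exp RQ RQ_apply SQ SQ_apply shift key main2 uu kk ll uu_pos kk_cont lf_zero)
open scoped Real

lemma RQ_pos {n : ℕ} [NeZero n] {c κ A : ℝ} (hc : c ≤ 0) (hκ : 0 < κ + 4 * c) (hA : 0 < A) :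
    (RQ n c κ A).PosDef := by
  intro v hv
  rw [RQ_apply]
  have hκ0 : 0 < κ := by linarith
  -- bound from below
  have hb : ∑ r : Fin n, ((κ + 4 * c) * (v.1 (Sum.inl (r + 1)) ^ 2 + v.1 (Sum.inr r) ^ 2) +
      A * v.2 ^ 2) ≤ ∑ r : Fin n, (c * ((v.1 (Sum.inl r) - v.1 (Sum.inr r)) ^ 2 +
      (v.1 (Sum.inl (r + 1)) - v.1 (Sum.inr r)) ^ 2) +
      κ * (v.1 (Sum.inl (r + 1)) ^ 2 + v.1 (Sum.inr r) ^ 2) + A * v.2 ^ 2) := by
    have hs : ∑ r : Fin n, v.1 (Sum.inl (r + 1)) ^ 2 = ∑ r : Fin n, v.1 (Sum.inl r) ^ 2 :=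
      Equiv.sum_comp (Equiv.addRight (1 : Fin n)) fun r => v.1 (Sum.inl r) ^ 2
    have h1 : ∀ r : Fin n, c * ((2 * v.1 (Sum.inl r) ^ 2 + 2 * v.1 (Sum.inl (r + 1)) ^ 2 +
        4 * v.1 (Sum.inr r) ^ 2)) +
        κ * (v.1 (Sum.inl (r + 1)) ^ 2 + v.1 (Sum.inr r) ^ 2) + A * v.2 ^ 2 ≤
        (c * ((v.1 (Sum.inl r) - v.1 (Sum.inr r)) ^ 2 +
      (v.1 (Sum.inl (r + 1)) - v.1 (Sum.inr r)) ^ 2) +
      κ * (v.1 (Sum.inl (r + 1)) ^ 2 + v.1 (Sum.inr r) ^ 2) + A * v.2 ^ 2) := by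
      intro r
      nlinarith [sq_nonneg (v.1 (Sum.inl r) + v.1 (Sum.inr r)),
        sq_nonneg (v.1 (Sum.inl (r + 1)) + v.1 (Sum.inr r))]
    refine le_trans (le_of_eq ?_) (Finset.sum_le_sum fun r _ => h1 r)
    simp only [Finset.sum_add_distrib, ← Finset.mul_sum]
    rw [hs]
    ring
  refine lt_of_lt_of_le ?_ hb
  have h0 : ∀ r : Fin n, 0 ≤ (κ + 4 * c) * (v.1 (Sum.inl (r + 1)) ^ 2 + v.1 (Sum.inr r) ^ 2) +
      A * v.2 ^ 2 := by
    intro r
    positivity
  apply Finset.sum_pos' (fun r _ => h0 r)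
  by_contra hneg
  push Not at hneg
  apply hv
  have h1 : ∀ r : Fin n, v.1 (Sum.inl (r + 1)) = 0 ∧ v.1 (Sum.inr r) = 0 ∧ v.2 = 0 := by
    intro r
    have h2 := hneg r (Finset.mem_univ r)
    have h4 := sq_nonneg (v.1 (Sum.inl (r + 1)))
    have h5 := sq_nonneg (v.1 (Sum.inr r))
    have h6 := sq_nonneg v.2
    have h7 : 0 ≤ (κ + 4 * c) * (v.1 (Sum.inl (r + 1)) ^ 2 + v.1 (Sum.inr r) ^ 2) := by positivity
    have h8 : 0 ≤ A * v.2 ^ 2 := by positivity
    have h9 : (κ + 4 * c) * (v.1 (Sum.inl (r + 1)) ^ 2 + v.1 (Sum.inr r) ^ 2) = 0 := by linarith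
    have h10 : A * v.2 ^ 2 = 0 := by linarith
    have h11 : v.1 (Sum.inl (r + 1)) ^ 2 + v.1 (Sum.inr r) ^ 2 = 0 :=
      (mul_eq_zero.1 h9).resolve_left hκ.ne'
    have h12 : v.2 ^ 2 = 0 := (mul_eq_zero.1 h10).resolve_left hA.ne'
    refine ⟨?_, ?_, ?_⟩
    · exact pow_eq_zero_iff two_ne_zero |>.1 (by linarith)
    · exact pow_eq_zero_iff two_ne_zero |>.1 (by linarith)
    · exact pow_eq_zero_iff two_ne_zero |>.1 h12
  apply Prod.ext
  · funext s
    rcases s with r | r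
    · have h2 := (h1 (r - 1)).1
      rw [sub_add_cancel] at h2
      exact h2
    · exact (h1 r).2.1
  · exact (h1 0).2.2

/-- trigonometric facts at the critical point -/
structure Trg (n : ℕ) : Prop where
  sb : 0 < Real.sin (π * bs n)
  cb : 0 < Real.cos (π * bs n)
  s2 : 0 < Real.sin (2 * π * bs n)
  ccl : ∀ t : ℝ, bs n < t → t < 1 - bs n → Ch n * Real.cos (2 * π * t) < 1
  cot : 2 * (Real.cos (2 * π * bs n) / Real.sin (2 * π * bs n)) <
    Real.sin (2 * π * bs n) / (Ch n - Real.cos (2 * π * bs n)) +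
      Real.cos (π * bs n) / Real.sin (π * bs n)
  cotn : 0 ≤ Real.cos (2 * π * bs n) / Real.sin (2 * π * bs n)

theorem trg {n : ℕ} (h : Par n) : Trg n := by
  have hpi := Real.pi_pos
  have hb1 := h.b1
  have hb2 := h.b2
  have hp1 : 0 < π * bs n := mul_pos hpi (by linarith)
  have hp2 : π * bs n < π / 4 := by
    have := mul_lt_mul_of_pos_left hb2 hpi
    linarith
  have sb : 0 < Real.sin (π * bs n) := Real.sin_pos_of_pos_of_lt_pi hp1 (by linarith)
  have cb : 0 < Real.cos (π * bs n) := Real.cos_pos_of_mem_Ioo ⟨by linarith, by linarith⟩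
  have s2 : 0 < Real.sin (2 * π * bs n) := Real.sin_pos_of_pos_of_lt_pi (by linarith) (by linarith)
  have hCh : Ch n = 2 - ga n := rfl
  have g0 := h.ga0
  have g1 := h.ga1
  have hc := h.cosb
  have hcn : 0 < Real.cos (2 * π * bs n) := by rw [hc]; linarith
  refine ⟨sb, cb, s2, ?_, ?_, (div_pos hcn s2).le⟩
  · intro t h1 h2
    have h3 : Real.cos (2 * π * t) < Real.cos (2 * π * bs n) := by
      rcases le_total t (1 / 2) with h4 | h4
      · exact Real.cos_lt_cos_of_nonneg_of_le_pi (by linarith) (by nlinarith) (by nlinarith)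
      · rw [← Real.cos_two_pi_sub (2 * π * t)]
        exact Real.cos_lt_cos_of_nonneg_of_le_pi (by linarith) (by nlinarith) (by nlinarith)
    have h4 : Ch n * Real.cos (2 * π * t) < Ch n * Real.cos (2 * π * bs n) :=
      mul_lt_mul_of_pos_left h3 (by linarith [h.ch1])
    refine h4.trans_le ?_
    rw [hc, hCh]
    nlinarith
  · -- everything in terms of the half angle
    have e2 : Real.sin (2 * π * bs n) = 2 * Real.sin (π * bs n) * Real.cos (π * bs n) := by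
      rw [← Real.sin_two_mul]
      congr 1
      ring
    have e3 : Real.cos (2 * π * bs n) = 2 * Real.cos (π * bs n) ^ 2 - 1 := by
      rw [← Real.cos_two_mul]
      congr 1
      ring
    have v3 : Real.cos (π * bs n) ^ 2 = (3 - ga n) / 4 := by
      rw [hc] at e3
      linarith
    have v4 : Real.sin (π * bs n) ^ 2 = (1 + ga n) / 4 := by
      rw [Real.sin_sq, v3]
      ring
    have hd : Ch n - Real.cos (2 * π * bs n) = (3 - ga n) / 2 := by
      rw [hc, hCh]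
      ring
    rw [hd, e2, hc]
    set S := Real.sin (π * bs n)
    set K := Real.cos (π * bs n)
    have e4 : 2 * S * K / ((3 - ga n) / 2) = (1 + ga n) / (4 * (S * K)) := by
      rw [div_eq_div_iff (by linarith) (by positivity)]
      have : 2 * S * K * (4 * (S * K)) = 8 * (S ^ 2 * K ^ 2) := by ring
      rw [this, v3, v4]
      ring
    have e5 : K / S = (3 - ga n) / (4 * (S * K)) := by
      rw [div_eq_div_iff sb.ne' (by positivity)]
      have : K * (4 * (S * K)) = 4 * K ^ 2 * S := by ring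
      rw [this, v3]
      ring
    have e6 : 2 * ((1 - ga n) / 2 / (2 * S * K)) = 2 * (1 - ga n) / (4 * (S * K)) := by
      field_simp
      ring
    rw [e4, e5, e6, ← add_div]
    exact div_lt_div_of_pos_right (by linarith) (by positivity)

theorem pt (n : ℕ) [NeZero n] (hP : Par n) :
    ∃ R S : QuadraticForm ℝ ((Fin n ⊕ Fin n → ℝ) × ℝ), PTp n R S := by
  have hT := trg hP
  have hy := hP.y0
  have hcosh := hP.cosh
  have hb1 := hP.b1
  have hb2 := hP.b2
  have hlog := hP.logc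
  have hK := hP.int
  have hC1 := hP.ch1
  have hsb := hT.sb
  have hcotn := hT.cotn
  have hcot := hT.cot
  have hccl := hT.ccl
  have hs20 := hT.s2
  set y := yn n with hyd
  set b := bs n with hbd
  have hpi := Real.pi_pos
  -- the angles
  set d : ℝ := 1 - 2 * b with hd
  have hd0 : 0 < d := by rw [hd]; linarith
  have hd1 : d < 1 := by rw [hd]; linarith
  have hsd : Real.sin (π * d) = Real.sin (2 * π * b) := by
    have : π * d = π - 2 * π * b := by rw [hd]; ring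
    rw [this, Real.sin_pi_sub]
  have hcd : Real.cos (π * d) = -Real.cos (2 * π * b) := by
    have : π * d = π - 2 * π * b := by rw [hd]; ring
    rw [this, Real.cos_pi_sub]
  have hsd0 : 0 < Real.sin (π * d) := by rw [hsd]; exact hs20
  have hcosa : Real.cos (2 * π * (1 - b)) = Real.cos (2 * π * b) := by
    have : 2 * π * (1 - b) = 2 * π - 2 * π * b := by ring
    rw [this, Real.cos_two_pi_sub]
  have hsina : Real.sin (2 * π * (1 - b)) = -Real.sin (2 * π * b) := by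
    have : 2 * π * (1 - b) = 2 * π - 2 * π * b := by ring
    rw [this, Real.sin_two_pi_sub]
  have hsa : Real.sin (π * (1 - b)) = Real.sin (π * b) := by
    have : π * (1 - b) = π - π * b := by ring
    rw [this, Real.sin_pi_sub]
  have hca : Real.cos (π * (1 - b)) = -Real.cos (π * b) := by
    have : π * (1 - b) = π - π * b := by ring
    rw [this, Real.cos_pi_sub]
  have huu : uu y (1 - b) = uu y b := by
    unfold uu
    rw [hcosa]
  have hkk : kk y (1 - b) = kk y b := by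
    unfold kk
    rw [huu]
  set Lg : ℝ := Real.log (2 * Real.sin (π * d)) with hLg
  set Lb : ℝ := Real.log (2 * Real.sin (π * b)) with hLb
  have hLa : Real.log (2 * Real.sin (π * (1 - b))) = Lb := by rw [hsa]
  have hl1 : ll y b = 2 * Lg - 2 * Lb := by
    unfold ll uu
    rw [hcosh, hLg, hsd]
    linarith
  have hl2 : ll y (1 - b) = 2 * Lg - 2 * Lb := by
    unfold ll
    rw [huu]
    exact hl1
  set K1 : ℝ := ∫ t in b..(1 - b), kk y t with hK1
  set K2 : ℝ := ∫ t in b..(1 - b), kk y t ^ 2 with hK2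
  set s : ℝ := Real.sinh y with hs
  have hnK : (n : ℝ) * (2 * s * K1) = 1 := by
    rw [← hK, hK1, ← intervalIntegral.integral_const_mul]
    congr 1
    refine intervalIntegral.integral_congr fun t _ => ?_
    unfold kk uu
    rw [hcosh]
    have h1 : 0 < Ch n - Real.cos (2 * π * t) := by
      have := Real.cos_le_one (2 * π * t)
      linarith
    have h2 : 0 < 2 * Ch n - 2 * Real.cos (2 * π * t) := by linarith
    show 2 * s * (2 * Ch n - 2 * Real.cos (2 * π * t))⁻¹ = s / (Ch n - Real.cos (2 * π * t))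
    field_simp
  -- constants of the quadratic forms
  set c2 : ℝ := π * Real.cos (π * d) / Real.sin (π * d) with hc2
  have hc2e : c2 = -(π * (Real.cos (2 * π * b) / Real.sin (2 * π * b))) := by
    rw [hc2, hsd, hcd]
    ring
  have hc20 : c2 ≤ 0 := by
    rw [hc2e]
    have : 0 ≤ π * (Real.cos (2 * π * b) / Real.sin (2 * π * b)) := mul_nonneg hpi.le hcotn
    linarith
  set c3 : ℝ := π * Real.cos (π * b) / Real.sin (π * b) with hc3
  set κ : ℝ := 4 * π * Real.sin (2 * π * b) / uu y b with hκ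
  have hκe : κ / 2 = π * (Real.sin (2 * π * b) / (Ch n - Real.cos (2 * π * b))) := by
    rw [hκ]
    unfold uu
    rw [hcosh]
    have h1 : 0 < Ch n - Real.cos (2 * π * b) := by
      have := Real.cos_le_one (2 * π * b)
      linarith
    have h2 : 2 * Ch n - 2 * Real.cos (2 * π * b) = 2 * (Ch n - Real.cos (2 * π * b)) := by ring
    rw [h2]
    field_simp
    ring
  have hκ0 : 0 < (κ / 2 + c3) + 4 * (c2 / 2) := by
    rw [hκe, hc2e, hc3]
    have := mul_lt_mul_of_pos_left hcot hpi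
    have e : π * Real.cos (π * b) / Real.sin (π * b) = π * (Real.cos (π * b) / Real.sin (π * b)) := by
      ring
    rw [e]
    linarith
  set A : ℝ := Real.cosh y * K1 - 2 * s ^ 2 * K2 with hA
  have hA0 : 0 < A := by
    have hkc := kk_cont hy
    have h1 : A = ∫ t in b..(1 - b), (Real.cosh y * kk y t - 2 * s ^ 2 * kk y t ^ 2) := by
      rw [intervalIntegral.integral_sub, intervalIntegral.integral_const_mul,
        intervalIntegral.integral_const_mul]
      · exact Continuous.intervalIntegrable (by fun_prop) _ _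
      · exact Continuous.intervalIntegrable (by fun_prop) _ _
    rw [h1]
    apply intervalIntegral.intervalIntegral_pos_of_pos_on
    · exact Continuous.intervalIntegrable (by fun_prop) _ _
    · intro t ht
      have h2 := hccl t ht.1 ht.2
      have h3 := uu_pos hy t
      have h4 : Real.cosh y ^ 2 = s ^ 2 + 1 := by rw [hs, Real.cosh_sq]
      have h5 : Real.cosh y * kk y t - 2 * s ^ 2 * kk y t ^ 2 =
          (Real.cosh y * uu y t - 2 * s ^ 2) / uu y t ^ 2 := by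
        unfold kk
        field_simp
      rw [h5]
      apply div_pos _ (by positivity)
      unfold uu
      have h7 : Real.cosh y * (2 * Real.cosh y - 2 * Real.cos (2 * π * t)) - 2 * s ^ 2 =
          2 - 2 * (Real.cosh y * Real.cos (2 * π * t)) := by linear_combination 2 * h4
      rw [h7, hcosh]
      linarith
    · linarith
  refine ⟨RQ n (c2 / 2) (κ / 2 + c3) A, SQ n (2 * s * kk y b),
    RQ_pos (by linarith) hκ0 hA0, ?_⟩
  intro i j x v hi hj hx
  have hi' : ∀ r, Rt (fun N => (i N r : ℝ) / N - (1 - b)) (v.1 (Sum.inl r)) := hi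
  have hj' : ∀ r, Rt (fun N => (j N r : ℝ) / N - b) (v.1 (Sum.inr r)) := hj
  have hx' : Rt x v.2 := hx
  -- the pieces
  have p1 : Tendsto (fun N : ℕ => ∑ r : Fin n, (((N : ℝ) *
      (Lc (d + (((i N r : ℝ) / N - (1 - b)) - ((j N r : ℝ) / N - b))) - Lc d +
        Lg * (((i N r : ℝ) / N - (1 - b)) - ((j N r : ℝ) / N - b))) : ℝ) : ℂ)) atTop
      (𝓝 (∑ r : Fin n, ((-(c2 * (v.1 (Sum.inl r) - v.1 (Sum.inr r)) ^ 2 / 2) : ℝ) : ℂ))) :=
    tendsto_finsetSum _ fun r _ => tc (Lc_exp hd0 hd1 ((hi' r).sub (hj' r)))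
  have p2 : Tendsto (fun N : ℕ => ∑ r : Fin n, (((N : ℝ) *
      (Lc (d + (((i N (r + 1) : ℝ) / N - (1 - b)) - ((j N r : ℝ) / N - b))) - Lc d +
        Lg * (((i N (r + 1) : ℝ) / N - (1 - b)) - ((j N r : ℝ) / N - b))) : ℝ) : ℂ)) atTop
      (𝓝 (∑ r : Fin n, ((-(c2 * (v.1 (Sum.inl (r + 1)) - v.1 (Sum.inr r)) ^ 2 / 2) : ℝ) : ℂ))) :=
    tendsto_finsetSum _ fun r _ => tc (Lc_exp hd0 hd1 ((hi' (r + 1)).sub (hj' r)))
  have p3 := tendsto_finsetSum (Finset.univ : Finset (Fin n)) fun r _ =>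
    main2 hy b (1 - b) hx' (hi' (r + 1)) (hj' r)
  have p4 : Tendsto (fun N : ℕ => ∑ r : Fin n, Complex.I * π * (((N : ℝ) *
      ((((i N r : ℝ) / N - (1 - b)) - ((i N (r + 1) : ℝ) / N - (1 - b))) *
        ((j N r : ℝ) / N - b)) : ℝ) : ℂ)) atTop
      (𝓝 (∑ r : Fin n, Complex.I * π * (((v.1 (Sum.inl r) - v.1 (Sum.inl (r + 1))) *
        v.1 (Sum.inr r) : ℝ) : ℂ))) :=
    tendsto_finsetSum _ fun r _ =>
      (tc (((hi' r).sub (hi' (r + 1))).mul (hj' r))).const_mul (Complex.I * π)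
  have p5 : Tendsto (fun N : ℕ => ∑ r : Fin n, ((2 * ((N : ℝ) *
      (Lc (b + ((j N r : ℝ) / N - b)) - Lc b + Lb * ((j N r : ℝ) / N - b))) -
      2 * ((N : ℝ) * (Lc (1 - b + ((i N (r + 1) : ℝ) / N - (1 - b))) - Lc (1 - b) +
        Lb * ((i N (r + 1) : ℝ) / N - (1 - b)))) : ℝ) : ℂ)) atTop
      (𝓝 (∑ r : Fin n, ((2 * (-(c3 * v.1 (Sum.inr r) ^ 2 / 2)) -
        2 * (-(-c3 * v.1 (Sum.inl (r + 1)) ^ 2 / 2)) : ℝ) : ℂ))) := by
    refine tendsto_finsetSum _ fun r _ => tc ?_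
    have a1 := Lc_exp (by linarith : 0 < b) (by linarith) (hj' r)
    have a2 := Lc_exp (by linarith : 0 < 1 - b) (by linarith) (hi' (r + 1))
    rw [hsa, hca] at a2
    have e : π * -Real.cos (π * b) / Real.sin (π * b) = -c3 := by
      rw [hc3]
      ring
    rw [e] at a2
    exact (a1.const_mul 2).sub (a2.const_mul 2)
  have p := (((p1.add p2).add p3).add p4).add p5
  have elim : ((∑ r : Fin n, ((-(c2 * (v.1 (Sum.inl r) - v.1 (Sum.inr r)) ^ 2 / 2) : ℝ) : ℂ)) +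
      (∑ r : Fin n, ((-(c2 * (v.1 (Sum.inl (r + 1)) - v.1 (Sum.inr r)) ^ 2 / 2) : ℝ) : ℂ)) +
      (∑ r : Fin n, (((4 * π * Real.sin (2 * π * (1 - b)) / uu y (1 - b) *
          v.1 (Sum.inl (r + 1)) ^ 2 / 2 -
        4 * π * Real.sin (2 * π * b) / uu y b * v.1 (Sum.inr r) ^ 2 / 2 -
        Real.cosh y * (∫ t in b..(1 - b), kk y t) * v.2 ^ 2 +
        2 * Real.sinh y ^ 2 * (∫ t in b..(1 - b), kk y t ^ 2) * v.2 ^ 2 : ℝ) : ℂ) -
        Complex.I * ((2 * Real.sinh y * v.2 * (kk y (1 - b) * v.1 (Sum.inl (r + 1)) -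
          kk y b * v.1 (Sum.inr r)) : ℝ) : ℂ))) +
      (∑ r : Fin n, Complex.I * π * (((v.1 (Sum.inl r) - v.1 (Sum.inl (r + 1))) *
        v.1 (Sum.inr r) : ℝ) : ℂ)) +
      ∑ r : Fin n, ((2 * (-(c3 * v.1 (Sum.inr r) ^ 2 / 2)) -
        2 * (-(-c3 * v.1 (Sum.inl (r + 1)) ^ 2 / 2)) : ℝ) : ℂ)) =
      -(RQ n (c2 / 2) (κ / 2 + c3) A v : ℂ) - Complex.I * (SQ n (2 * s * kk y b) v : ℂ) := by
    rw [RQ_apply, SQ_apply, ← Finset.sum_add_distrib, ← Finset.sum_add_distrib,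
      ← Finset.sum_add_distrib, ← Finset.sum_add_distrib, Complex.ofReal_sum, Complex.ofReal_sum,
      Finset.mul_sum, ← Finset.sum_neg_distrib, ← Finset.sum_sub_distrib]
    refine Finset.sum_congr rfl fun r _ => ?_
    rw [hsina, huu, hkk, ← hK1, ← hK2, ← hs]
    have e1 : 4 * π * -Real.sin (2 * π * b) / uu y b = -κ := by
      rw [hκ]
      ring
    rw [e1, ← hκ, hA]
    push_cast
    ring
  rw [elim] at p
  refine p.congr' ?_
  filter_upwards [eventually_ge_atTop 1] with N hN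
  have hN0 : (N : ℝ) ≠ 0 := by
    have : 0 < N := hN
    positivity
  have hNc : (N : ℂ) ≠ 0 := by exact_mod_cast hN0
  -- the arguments
  have a1 : ∀ r, d + (((i N r : ℝ) / N - (1 - b)) - ((j N r : ℝ) / N - b)) =
      ((i N r : ℝ) - j N r) / N := by
    intro r
    rw [hd]
    ring
  have a2 : ∀ r, d + (((i N (r + 1) : ℝ) / N - (1 - b)) - ((j N r : ℝ) / N - b)) =
      ((i N (r + 1) : ℝ) - j N r) / N := by
    intro r
    rw [hd]
    ring
  have a3 : ∀ r, b + ((j N r : ℝ) / N - b) = (j N r : ℝ) / N := fun r => by ring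
  have a4 : ∀ r, 1 - b + ((i N (r + 1) : ℝ) / N - (1 - b)) = (i N (r + 1) : ℝ) / N :=
    fun r => by ring
  simp only [a1, a2, a3, a4]
  -- the growth rate
  have hDn : (Dn n : ℂ) = ∑ _r : Fin n, (2 * (Lc d : ℂ) + 2 * ((Lc b : ℂ) - (Lc (1 - b) : ℂ)) +
      ((∫ t in b..(1 - b), ll y t : ℝ) : ℂ)) - (y : ℂ) := by
    have e1 : Dn n = (n : ℝ) * (2 * Lc d + 2 * (Lc b - Lc (1 - b)) +
        ∫ t in b..(1 - b), ll y t) - y := by
      unfold Dn Es Ep Pool.Agent.Y472.K.Ep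
      have e2 : (∫ t in (bs n)..(1 - bs n), lf 0 (yn n) t) = ∫ t in b..(1 - b), ll y t :=
        intervalIntegral.integral_congr fun t _ => lf_zero hy t
      rw [e2]
      have e3 : 1 - bs n - bs n = d := by rw [hd, ← hbd]; ring
      rw [e3]
      ring
    rw [e1, Finset.sum_const, Finset.card_univ, Fintype.card_fin, nsmul_eq_mul]
    push_cast
    ring
  have hsh1 := shift (n := n) (fun r => (i N r : ℂ))
  have hsh2 : ∑ r : Fin n, (Lc ((i N r : ℝ) / N) : ℂ) =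
      ∑ r : Fin n, (Lc ((i N (r + 1) : ℝ) / N) : ℂ) :=
    (shift (n := n) (fun r => (Lc ((i N r : ℝ) / N) : ℂ))).symm
  have hsumn : ∀ z : ℂ, ∑ _r : Fin n, z = (n : ℂ) * z := by
    intro z
    rw [Finset.sum_const, Finset.card_univ, Fintype.card_fin, nsmul_eq_mul]
  have hnKc : (n : ℂ) * (2 * (s : ℂ) * (K1 : ℂ)) = 1 := by exact_mod_cast hnK
  have hXe : Xe n N (i N) (j N) (x N) =
      ∑ r : Fin n, (((Lc (((i N r : ℝ) - j N r) / N) : ℂ) +
        (Lc (((i N (r + 1) : ℝ) - j N r) / N) : ℂ)) +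
      (∫ t in ((j N r : ℝ) / N)..((i N (r + 1) : ℝ) / N), clf (x N) y t) +
      2 * ((Lc ((j N r : ℝ) / N) : ℂ) - (Lc ((i N (r + 1) : ℝ) / N) : ℂ))) +
      Complex.I * (x N : ℂ) - (y : ℂ) := by
    unfold Xe
    simp only [Finset.sum_add_distrib, Finset.sum_sub_distrib, ← Finset.mul_sum, ← hyd]
    rw [hsh2]
    ring
  rw [hXe, hDn]
  have hkey := key (N : ℂ) (fun r : Fin n => ((Lc (((i N r : ℝ) - j N r) / N) : ℂ) +
        (Lc (((i N (r + 1) : ℝ) - j N r) / N) : ℂ)) +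
      (∫ t in ((j N r : ℝ) / N)..((i N (r + 1) : ℝ) / N), clf (x N) y t) +
      2 * ((Lc ((j N r : ℝ) / N) : ℂ) - (Lc ((i N (r + 1) : ℝ) / N) : ℂ)))
    (fun r => ((i N r : ℂ) - i N (r + 1)) * j N r)
    (2 * (Lc d : ℂ) + 2 * ((Lc b : ℂ) - (Lc (1 - b) : ℂ)) +
      ((∫ t in b..(1 - b), ll y t : ℝ) : ℂ)) (Complex.I * (x N : ℂ)) (y : ℂ)
    (Complex.I * π / N)
  rw [hkey, ← Finset.sum_add_distrib, ← Finset.sum_add_distrib, ← Finset.sum_add_distrib,
    ← Finset.sum_add_distrib]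
  -- compare termwise up to a telescoping sum
  have hterm : ∀ r : Fin n,
      ((((N : ℝ) * (Lc (((i N r : ℝ) - j N r) / N) - Lc d +
        Lg * (((i N r : ℝ) / N - (1 - b)) - ((j N r : ℝ) / N - b))) : ℝ) : ℂ) +
      (((N : ℝ) * (Lc (((i N (r + 1) : ℝ) - j N r) / N) - Lc d +
        Lg * (((i N (r + 1) : ℝ) / N - (1 - b)) - ((j N r : ℝ) / N - b))) : ℝ) : ℂ) +
      (N : ℂ) * ((∫ t in ((j N r : ℝ) / N)..((i N (r + 1) : ℝ) / N), clf (x N) y t) -
        ((∫ t in b..(1 - b), ll y t : ℝ) : ℂ) -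
        ((ll y (1 - b) * ((i N (r + 1) : ℝ) / N - (1 - b)) -
          ll y b * ((j N r : ℝ) / N - b) : ℝ) : ℂ) +
        2 * Complex.I * (Real.sinh y : ℂ) * ((∫ t in b..(1 - b), kk y t : ℝ) : ℂ) * (x N : ℂ)) +
      Complex.I * π * (((N : ℝ) *
        ((((i N r : ℝ) / N - (1 - b)) - ((i N (r + 1) : ℝ) / N - (1 - b))) *
        ((j N r : ℝ) / N - b)) : ℝ) : ℂ) +
      ((2 * ((N : ℝ) * (Lc ((j N r : ℝ) / N) - Lc b + Lb * ((j N r : ℝ) / N - b))) -
        2 * ((N : ℝ) * (Lc ((i N (r + 1) : ℝ) / N) - Lc (1 - b) +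
          Lb * ((i N (r + 1) : ℝ) / N - (1 - b)))) : ℝ) : ℂ)) =
      ((N : ℂ) * (((Lc (((i N r : ℝ) - j N r) / N) : ℂ) +
        (Lc (((i N (r + 1) : ℝ) - j N r) / N) : ℂ)) +
      (∫ t in ((j N r : ℝ) / N)..((i N (r + 1) : ℝ) / N), clf (x N) y t) +
      2 * ((Lc ((j N r : ℝ) / N) : ℂ) - (Lc ((i N (r + 1) : ℝ) / N) : ℂ)) -
      (2 * (Lc d : ℂ) + 2 * ((Lc b : ℂ) - (Lc (1 - b) : ℂ)) +
      ((∫ t in b..(1 - b), ll y t : ℝ) : ℂ))) +
      Complex.I * π / N * (((i N r : ℂ) - i N (r + 1)) * j N r)) +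
      ((Lg : ℂ) - Complex.I * π * b) * ((i N r : ℂ) - i N (r + 1)) +
      Complex.I * (2 * (s : ℂ) * (K1 : ℂ)) * ((N : ℂ) * (x N : ℂ)) := by
    intro r
    rw [hl1, hl2, ← hK1, ← hs]
    push_cast
    field_simp
    ring
  rw [Finset.sum_congr rfl fun r _ => hterm r, Finset.sum_add_distrib, Finset.sum_add_distrib,
    ← Finset.mul_sum, Finset.sum_sub_distrib, hsh1, sub_self, mul_zero, add_zero, hsumn]
  linear_combination (Complex.I * ((N : ℂ) * (x N : ℂ))) * hnKc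

end Pool.Agent.H9.TP
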