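import Pool.Agent.H9.TP.Star
import Pool.Agent.H9.TP.Pt
import Pool.Graph.R_seed8.Y721.TK.Quad

/-!
# The rate of a pair near the maximum
-/

set_option autoImplicit false
set_option linter.all false

namespace Pool.Agent.H9.TP

open Set Filter Topology MeasureTheory
open Pool.Agent.Y472.K
open Pool.Agent.Y813.TK (Lc_deriv ls_int)
open Pool.Agent.Y721.TK (gg gg_continuous gg_refl lf_continuous)
open scoped Real Interval

/-- a local lower bound -/
theorem loc {f : ℝ → ℝ} {p d c : ℝ} (hf : HasDerivAt f d p) (hc : c < d)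
    (hi : ∀ a b : ℝ, IntervalIntegrable f volume a b) : ∃ ρ : ℝ, 0 < ρ ∧ ∀ v : ℝ, |v| ≤ ρ →
      c * v ^ 2 / 2 ≤ ∫ t in p..(p + v), (f t - f p) := by
  have h1 := (hasDerivAt_iff_isLittleO.1 hf).def (show 0 < d - c by linarith)
  obtain ⟨δ, hδ, h2⟩ := Metric.eventually_nhds_iff.1 h1
  refine ⟨δ / 2, by linarith, fun v hv => ?_⟩
  have hlin : ∀ a b : ℝ, ∫ t in a..b, c * (t - p) = c * ((b - p) ^ 2 - (a - p) ^ 2) / 2 := by
    intro a b
    have hid : IntervalIntegrable (fun t : ℝ => t) volume a b := continuous_id.intervalIntegrable a b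
    rw [intervalIntegral.integral_const_mul, intervalIntegral.integral_sub hid
      intervalIntegrable_const, integral_id, intervalIntegral.integral_const, smul_eq_mul]
    ring
  have hi1 : ∀ a b : ℝ, IntervalIntegrable (fun t => c * (t - p)) volume a b :=
    fun a b => (by fun_prop : Continuous (fun t => c * (t - p))).intervalIntegrable a b
  have hi2 : ∀ a b : ℝ, IntervalIntegrable (fun t => f t - f p) volume a b :=
    fun a b => (hi a b).sub intervalIntegrable_const
  have hpt : ∀ t : ℝ, |t - p| < δ → |f t - f p - (t - p) * d| ≤ (d - c) * |t - p| := by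
    intro t ht
    have := h2 (y := t) (by rw [Real.dist_eq]; exact ht)
    rw [smul_eq_mul, Real.norm_eq_abs, Real.norm_eq_abs] at this
    exact this
  obtain ⟨hv1, hv2⟩ := abs_le.1 hv
  rcases le_total 0 v with h | h
  · have h3 : ∫ t in p..(p + v), c * (t - p) ≤ ∫ t in p..(p + v), (f t - f p) := by
      apply intervalIntegral.integral_mono_on (by linarith) (hi1 _ _) (hi2 _ _)
      intro t ht
      have h4 : 0 ≤ t - p := by linarith [ht.1]
      have h5 := hpt t (by rw [abs_of_nonneg h4]; linarith [ht.2])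
      rw [abs_of_nonneg h4] at h5
      have h6 := (abs_le.1 h5).1
      nlinarith
    rw [hlin] at h3
    refine le_trans (le_of_eq ?_) h3
    ring
  · rw [intervalIntegral.integral_symm]
    have h3 : ∫ t in (p + v)..p, (f t - f p) ≤ ∫ t in (p + v)..p, c * (t - p) := by
      apply intervalIntegral.integral_mono_on (by linarith) (hi2 _ _) (hi1 _ _)
      intro t ht
      have h4 : t - p ≤ 0 := by linarith [ht.2]
      have h5 := hpt t (by rw [abs_of_nonpos h4]; linarith [ht.1])
      rw [abs_of_nonpos h4] at h5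
      have h6 := (abs_le.1 h5).2
      nlinarith
    rw [hlin] at h3
    have e : c * ((p - p) ^ 2 - (p + v - p) ^ 2) / 2 = -(c * v ^ 2 / 2) := by ring
    rw [e] at h3
    linarith

/-- the sum of the two logarithms -/
noncomputable def hh (C t : ℝ) : ℝ := 1 / 2 * gg C t + Real.log (2 * Real.sin (π * t))

theorem hh_int {C : ℝ} (hC : 1 < C) (a b : ℝ) : IntervalIntegrable (hh C) volume a b := by
  unfold hh
  exact (((gg_continuous hC).intervalIntegrable a b).const_mul (1 / 2)).add (ls_int a b)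

theorem hh_refl (C t : ℝ) : hh C (1 - t) = hh C t := by
  unfold hh
  rw [gg_refl, show π * (1 - t) = π - π * t by ring, Real.sin_pi_sub]

theorem hh_deriv {C t : ℝ} (hC : 1 < C) (h0 : 0 < t) (h1 : t < 1) :
    HasDerivAt (hh C) (π * (Real.sin (2 * π * t) / (C - Real.cos (2 * π * t)) +
      Real.cos (π * t) / Real.sin (π * t))) t := by
  have hpi := Real.pi_pos
  have hs : 0 < Real.sin (π * t) := Real.sin_pos_of_pos_of_lt_pi (by positivity) (by nlinarith)
  have hc : 0 < C - Real.cos (2 * π * t) := by linarith [Real.cos_le_one (2 * π * t)]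
  have e1 : HasDerivAt (fun t : ℝ => 2 * π * t) (2 * π) t := by
    simpa using (hasDerivAt_id t).const_mul (2 * π)
  have e2 : HasDerivAt (fun t : ℝ => π * t) π t := by
    simpa using (hasDerivAt_id t).const_mul π
  have e3 := ((((e1.cos).const_mul 2).const_sub (2 * C)).log (by
    have : 2 * C - 2 * Real.cos (2 * π * t) = 2 * (C - Real.cos (2 * π * t)) := by ring
    rw [this]
    positivity)).const_mul (1 / 2)
  have e4 := (e2.sin.const_mul 2).log (by positivity)
  have e5 := e3.add e4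
  refine e5.congr_deriv ?_
  have h2 : 2 * C - 2 * Real.cos (2 * π * t) = 2 * (C - Real.cos (2 * π * t)) := by ring
  rw [h2]
  field_simp

theorem ls_deriv {t : ℝ} (h0 : 0 < t) (h1 : t < 1) :
    HasDerivAt (fun t => Real.log (2 * Real.sin (π * t)))
      (π * (Real.cos (π * t) / Real.sin (π * t))) t := by
  have hpi := Real.pi_pos
  have hs : 0 < Real.sin (π * t) := Real.sin_pos_of_pos_of_lt_pi (by positivity) (by nlinarith)
  have e2 : HasDerivAt (fun t : ℝ => π * t) π t := by
    simpa using (hasDerivAt_id t).const_mul π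
  have e4 := (e2.sin.const_mul 2).log (by positivity)
  refine e4.congr_deriv ?_
  field_simp

theorem Lc_sub (a b : ℝ) : Lc b - Lc a = ∫ t in b..a, Real.log (2 * Real.sin (π * t)) := by
  have := intervalIntegral.integral_interval_sub_left (ls_int 0 a) (ls_int 0 b)
  unfold Lc
  linarith

/-- the rate at `x = 0` -/
theorem Ep_zero {y C : ℝ} (hy : 0 < y) (hC : Real.cosh y = C) (a b : ℝ) :
    Ep 0 y a b = Lc (a - b) + ∫ t in b..a, hh C t := by
  have hC1 : 1 < C := by rw [← hC]; exact Real.one_lt_cosh.2 hy.ne'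
  have e1 : ∫ t in b..a, lf 0 y t = ∫ t in b..a, gg C t := by
    refine intervalIntegral.integral_congr fun t _ => ?_
    rw [← hC]
    exact Pool.Agent.Y721.TK.lf_zero hy.ne' t
  have e2 : ∫ t in b..a, hh C t = 1 / 2 * (∫ t in b..a, gg C t) +
      ∫ t in b..a, Real.log (2 * Real.sin (π * t)) := by
    unfold hh
    rw [intervalIntegral.integral_add
      (((gg_continuous hC1).intervalIntegrable b a).const_mul (1 / 2)) (ls_int b a),
      intervalIntegral.integral_const_mul]
  unfold Ep Pool.Agent.Y472.K.Ep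
  rw [e1, e2, Lc_sub]
  ring

/-- the decrease in `x` -/
theorem lf_dec {x y C t : ℝ} (hy : 0 < y) (hC : Real.cosh y = C) :
    lf x y t ≤ lf 0 y t - 1 / 2 * (1 - Real.cos x) *
      ((1 + Real.cos x - 2 * C * Real.cos (2 * π * t)) / (C - Real.cos (2 * π * t)) ^ 2) := by
  have hC1 : 1 < C := by rw [← hC]; exact Real.one_lt_cosh.2 hy.ne'
  have hc : 0 < C - Real.cos (2 * π * t) := by linarith [Real.cos_le_one (2 * π * t)]
  have h1 := Pool.Agent.Y155.TK.nsq_sub x y (Real.cos (2 * π * t))
  have p1 := Pool.Agent.Y155.TK.nn_pos x y hy t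
  have p0 := Pool.Agent.Y155.TK.nn_pos 0 y hy t
  have h0 := Pool.Agent.Y155.TK.nsq 0 y (Real.cos (2 * π * t))
  rw [Real.sin_zero, Real.cos_zero, hC] at h0
  rw [hC] at h1
  unfold lf
  set A := ‖2 * Complex.cos (x + y * Complex.I) - 2 * (Real.cos (2 * π * t) : ℂ)‖ with hA
  set B := ‖2 * Complex.cos ((0 : ℝ) + y * Complex.I) - 2 * (Real.cos (2 * π * t) : ℂ)‖ with hB
  have hB2 : B ^ 2 = 4 * (C - Real.cos (2 * π * t)) ^ 2 := by
    rw [h0]
    ring
  have h2 : Real.log (A ^ 2 / B ^ 2) ≤ A ^ 2 / B ^ 2 - 1 := Real.log_le_sub_one_of_pos (by positivity)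
  rw [Real.log_div (by positivity) (by positivity), Real.log_pow, Real.log_pow] at h2
  have h3 : A ^ 2 / B ^ 2 - 1 = -((1 - Real.cos x) *
      ((1 + Real.cos x - 2 * C * Real.cos (2 * π * t)) / (C - Real.cos (2 * π * t)) ^ 2)) := by
    have h4 : A ^ 2 = B ^ 2 + 4 * (1 - Real.cos x) * (2 * Real.cos (2 * π * t) * C -
      (1 + Real.cos x)) := by linarith
    rw [h4, hB2]
    field_simp
    ring
  rw [h3] at h2
  push_cast at h2
  linarith

/-- the integral in the bound -/
noncomputable def JJ (C : ℝ) (p : ℝ × ℝ × ℝ) : ℝ :=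
  ∫ t in p.2.2..p.2.1, (1 + Real.cos p.1 - 2 * C * Real.cos (2 * π * t)) /
    (C - Real.cos (2 * π * t)) ^ 2

theorem JJ_cont {C : ℝ} (hC : 1 < C) : Continuous (JJ C) := by
  have hc : ∀ t : ℝ, C - Real.cos (2 * π * t) ≠ 0 := fun t => by
    have := Real.cos_le_one (2 * π * t)
    have : 0 < C - Real.cos (2 * π * t) := by linarith
    exact this.ne'
  have c1 : Continuous fun t : ℝ => 1 / (C - Real.cos (2 * π * t)) ^ 2 :=
    continuous_const.div (by fun_prop) fun t => pow_ne_zero _ (hc t)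
  have c2 : Continuous fun t : ℝ => Real.cos (2 * π * t) / (C - Real.cos (2 * π * t)) ^ 2 :=
    Continuous.div (by fun_prop) (by fun_prop) fun t => pow_ne_zero _ (hc t)
  have i1 : ∀ a b : ℝ, IntervalIntegrable (fun t : ℝ => 1 / (C - Real.cos (2 * π * t)) ^ 2)
    volume a b := fun a b => c1.intervalIntegrable a b
  have i2 : ∀ a b : ℝ, IntervalIntegrable
    (fun t : ℝ => Real.cos (2 * π * t) / (C - Real.cos (2 * π * t)) ^ 2) volume a b :=
    fun a b => c2.intervalIntegrable a b
  have e : JJ C = fun p : ℝ × ℝ × ℝ => (1 + Real.cos p.1) *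
      ((∫ t in (0 : ℝ)..p.2.1, 1 / (C - Real.cos (2 * π * t)) ^ 2) -
        ∫ t in (0 : ℝ)..p.2.2, 1 / (C - Real.cos (2 * π * t)) ^ 2) -
      2 * C * ((∫ t in (0 : ℝ)..p.2.1, Real.cos (2 * π * t) / (C - Real.cos (2 * π * t)) ^ 2) -
        ∫ t in (0 : ℝ)..p.2.2, Real.cos (2 * π * t) / (C - Real.cos (2 * π * t)) ^ 2) := by
    funext p
    unfold JJ
    rw [intervalIntegral.integral_interval_sub_left (i1 _ _) (i1 _ _),
      intervalIntegral.integral_interval_sub_left (i2 _ _) (i2 _ _),
      ← intervalIntegral.integral_const_mul, ← intervalIntegral.integral_const_mul,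
      ← intervalIntegral.integral_sub ((i1 _ _).const_mul _) ((i2 _ _).const_mul _)]
    refine intervalIntegral.integral_congr fun t _ => ?_
    show (1 + Real.cos p.1 - 2 * C * Real.cos (2 * π * t)) / (C - Real.cos (2 * π * t)) ^ 2 = _
    ring
  rw [e]
  have q1 := intervalIntegral.continuous_primitive i1 0
  have q2 := intervalIntegral.continuous_primitive i2 0
  have r1 : Continuous fun p : ℝ × ℝ × ℝ => p.2.1 := by fun_prop
  have r2 : Continuous fun p : ℝ × ℝ × ℝ => p.2.2 := by fun_prop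
  exact ((by fun_prop : Continuous fun p : ℝ × ℝ × ℝ => 1 + Real.cos p.1).mul
    ((q1.comp r1).sub (q1.comp r2))).sub
    (continuous_const.mul ((q2.comp r1).sub (q2.comp r2)))

theorem sq_sub_le (u v : ℝ) : (u - v) ^ 2 ≤ 2 * (u ^ 2 + v ^ 2) := by
  nlinarith [sq_nonneg (u + v)]

/-- **the rate of a pair near the maximum** -/
theorem quad {n : ℕ} (h : Par n) : Quad n := by
  have hpi := Real.pi_pos
  have hT := trg h
  have hy := h.y0
  have hcosh := h.cosh
  have hC1 := h.ch1
  have hb1 := h.b1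
  have hb2 := h.b2
  have hcot := hT.cot
  have hcotn := hT.cotn
  have hccl := hT.ccl
  have hs2 := hT.s2
  have hsb := hT.sb
  have hlog := h.logc
  clear hT h
  unfold Quad Es
  generalize bs n = β at *
  generalize yn n = y at *
  generalize Ch n = C at *
  -- constants
  obtain ⟨q, hq⟩ : ∃ q, q = π * (Real.cos (2 * π * β) / Real.sin (2 * π * β)) := ⟨_, rfl⟩
  obtain ⟨d, hd⟩ : ∃ d, d = π * (Real.sin (2 * π * β) / (C - Real.cos (2 * π * β)) +
      Real.cos (π * β) / Real.sin (π * β)) := ⟨_, rfl⟩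
  have hqd : 2 * q < d := by
    have := mul_lt_mul_of_pos_left hcot hpi
    rw [hq, hd]
    linarith
  obtain ⟨e, he⟩ : ∃ e, e = (d - 2 * q) / 8 := ⟨_, rfl⟩
  have he0 : 0 < e := by rw [he]; linarith
  have hd1 := hh_deriv (C := C) (t := β) hC1 (by linarith) (by linarith)
  rw [← hd] at hd1
  obtain ⟨ρ₁, hρ₁, H1⟩ := loc hd1 (c := d - e) (by linarith) (hh_int hC1)
  have hd2 := ls_deriv (t := 1 - 2 * β) (by linarith) (by linarith)
  have e1 : Real.cos (π * (1 - 2 * β)) = -Real.cos (2 * π * β) := by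
    rw [show π * (1 - 2 * β) = π - 2 * π * β by ring, Real.cos_pi_sub]
  have e2 : Real.sin (π * (1 - 2 * β)) = Real.sin (2 * π * β) := by
    rw [show π * (1 - 2 * β) = π - 2 * π * β by ring, Real.sin_pi_sub]
  have e3 : π * (-Real.cos (2 * π * β) / Real.sin (2 * π * β)) = -q := by
    rw [hq]
    ring
  rw [e1, e2, e3] at hd2
  obtain ⟨ρ₂, hρ₂, H2⟩ := loc hd2 (c := -(q + e)) (by linarith) ls_int
  -- the integral
  have hJ0 : 0 < JJ C (0, 1 - β, β) := by
    unfold JJ
    simp only [Real.cos_zero]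
    have hc : ∀ t : ℝ, 0 < C - Real.cos (2 * π * t) := fun t => by
      have := Real.cos_le_one (2 * π * t)
      linarith
    apply intervalIntegral.intervalIntegral_pos_of_pos_on
    · apply Continuous.intervalIntegrable
      exact Continuous.div (by fun_prop) (by fun_prop) fun t => pow_ne_zero _ (hc t).ne'
    · intro t ht
      have h1 := hccl t ht.1 ht.2
      have h2 := hc t
      apply div_pos _ (by positivity)
      linarith
    · linarith
  have hJev : ∀ᶠ p in 𝓝 ((0, 1 - β, β) : ℝ × ℝ × ℝ), JJ C (0, 1 - β, β) / 2 < JJ C p :=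
    (JJ_cont hC1).continuousAt.eventually (lt_mem_nhds (by linarith))
  obtain ⟨ρ₃, hρ₃, H3⟩ := Metric.eventually_nhds_iff.1 hJev
  generalize JJ C (0, 1 - β, β) = J0 at *
  obtain ⟨ρ, hρ⟩ : ∃ ρ, ρ = min (min ρ₁ (ρ₂ / 2)) (min (ρ₃ / 2) (1 / 24)) := ⟨_, rfl⟩
  have r1 : ρ ≤ ρ₁ := by rw [hρ]; exact (min_le_left _ _).trans (min_le_left _ _)
  have r2 : ρ ≤ ρ₂ / 2 := by rw [hρ]; exact (min_le_left _ _).trans (min_le_right _ _)
  have r3 : ρ ≤ ρ₃ / 2 := by rw [hρ]; exact (min_le_right _ _).trans (min_le_left _ _)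
  have r4 : ρ ≤ 1 / 24 := by rw [hρ]; exact (min_le_right _ _).trans (min_le_right _ _)
  have r0 : 0 < ρ := by
    rw [hρ]
    exact lt_min (lt_min hρ₁ (by linarith)) (lt_min (by linarith) (by norm_num))
  have hk : 0 < J0 / (4 * π ^ 2) := by positivity
  refine ⟨ρ, min e (J0 / (4 * π ^ 2)), r0, lt_min he0 hk, fun x a b hx ha hb => ?_⟩
  obtain ⟨ha1, ha2⟩ := abs_le.1 ha
  obtain ⟨hb1', hb2'⟩ := abs_le.1 hb
  have hba : b ≤ a := by linarith
  -- the dependence on `x`
  have hJ : J0 / 2 < JJ C (x, a, b) := by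
    apply H3
    rw [Prod.dist_eq, Prod.dist_eq, max_lt_iff, max_lt_iff]
    simp only [Real.dist_eq]
    refine ⟨?_, ?_, ?_⟩
    · rw [sub_zero]
      linarith
    · linarith
    · linarith
  have hxx : Ep x y a b ≤ Ep 0 y a b - J0 / (4 * π ^ 2) * x ^ 2 := by
    have hcc : Continuous fun t : ℝ => lf 0 y t - 1 / 2 * (1 - Real.cos x) *
        ((1 + Real.cos x - 2 * C * Real.cos (2 * π * t)) / (C - Real.cos (2 * π * t)) ^ 2) := by
      refine (lf_continuous 0 hy.ne').sub (continuous_const.mul ?_)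
      refine Continuous.div (by fun_prop) (by fun_prop) fun t => pow_ne_zero _ ?_
      have := Real.cos_le_one (2 * π * t)
      have : 0 < C - Real.cos (2 * π * t) := by linarith
      exact this.ne'
    have h1 : ∫ t in b..a, lf x y t ≤ ∫ t in b..a, (lf 0 y t - 1 / 2 * (1 - Real.cos x) *
        ((1 + Real.cos x - 2 * C * Real.cos (2 * π * t)) / (C - Real.cos (2 * π * t)) ^ 2)) :=
      intervalIntegral.integral_mono_on hba ((lf_continuous x hy.ne').intervalIntegrable _ _)
        (hcc.intervalIntegrable _ _) fun t _ => lf_dec hy hcosh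
    have hc2 : Continuous fun t : ℝ => (1 + Real.cos x - 2 * C * Real.cos (2 * π * t)) /
        (C - Real.cos (2 * π * t)) ^ 2 := by
      refine Continuous.div (by fun_prop) (by fun_prop) fun t => pow_ne_zero _ ?_
      have := Real.cos_le_one (2 * π * t)
      have : 0 < C - Real.cos (2 * π * t) := by linarith
      exact this.ne'
    rw [intervalIntegral.integral_sub ((lf_continuous 0 hy.ne').intervalIntegrable _ _)
      ((hc2.intervalIntegrable _ _).const_mul _), intervalIntegral.integral_const_mul] at h1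
    have h2 : ∫ t in b..a, (1 + Real.cos x - 2 * C * Real.cos (2 * π * t)) /
        (C - Real.cos (2 * π * t)) ^ 2 = JJ C (x, a, b) := rfl
    rw [h2] at h1
    have h3 : Real.cos x ≤ 1 - 2 / π ^ 2 * x ^ 2 := by
      apply Real.cos_le_one_sub_mul_cos_sq
      have := Real.pi_gt_three
      linarith
    have h4 : 2 / π ^ 2 * x ^ 2 * (J0 / 2) ≤ (1 - Real.cos x) * JJ C (x, a, b) :=
      mul_le_mul (by linarith) hJ.le (by positivity) (by
        have : 0 ≤ 2 / π ^ 2 * x ^ 2 := by positivity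
        linarith)
    have h5 : 1 / 4 * (2 / π ^ 2 * x ^ 2 * (J0 / 2)) = J0 / (4 * π ^ 2) * x ^ 2 := by
      field_simp
    unfold Ep Pool.Agent.Y472.K.Ep
    linarith
  -- the end points
  have h0 : Ep 0 y a b ≤ Ep 0 y (1 - β) β - e * ((a - (1 - β)) ^ 2 + (b - β) ^ 2) := by
    rw [Ep_zero hy hcosh, Ep_zero hy hcosh]
    have hi := hh_int hC1
    have k1 := H1 (b - β) (hb.trans r1)
    rw [show β + (b - β) = b by ring] at k1
    have k2 := H1 (1 - a - β) (by
      rw [show 1 - a - β = -(a - (1 - β)) by ring, abs_neg]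
      exact ha.trans r1)
    rw [show β + (1 - a - β) = 1 - a by ring] at k2
    have k3 := H2 (a - (1 - β) - (b - β)) (by
      have := abs_sub (a - (1 - β)) (b - β)
      linarith)
    rw [show 1 - 2 * β + (a - (1 - β) - (b - β)) = a - b by ring] at k3
    have l1 : ∀ p z : ℝ, ∫ t in p..z, (hh C t - hh C β) =
        (∫ t in p..z, hh C t) - (z - p) * hh C β := by
      intro p z
      rw [intervalIntegral.integral_sub (hi p z) intervalIntegrable_const,
        intervalIntegral.integral_const, smul_eq_mul]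
    rw [l1] at k1 k2
    rw [intervalIntegral.integral_sub (ls_int _ _) intervalIntegrable_const,
      intervalIntegral.integral_const, smul_eq_mul, ← Lc_sub] at k3
    have l2 : ∫ t in β..(1 - a), hh C t = -∫ t in (1 - β)..a, hh C t := by
      have m1 := intervalIntegral.integral_comp_sub_left (a := 1 - a) (b := β) (fun t => hh C t) 1
      rw [show (1 : ℝ) - (1 - a) = a by ring] at m1
      rw [← m1, intervalIntegral.integral_symm]
      congr 1
      refine intervalIntegral.integral_congr fun t _ => ?_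
      exact (hh_refl C t).symm
    rw [l2] at k2
    have l3 : ∫ t in b..a, hh C t = (∫ t in β..(1 - β), hh C t) + (∫ t in (1 - β)..a, hh C t) -
        ∫ t in β..b, hh C t := by
      have m1 := intervalIntegral.integral_add_adjacent_intervals (hi b β) (hi β (1 - β))
      have m2 := intervalIntegral.integral_add_adjacent_intervals (hi b (1 - β)) (hi (1 - β) a)
      have m3 : ∫ t in b..β, hh C t = -∫ t in β..b, hh C t := intervalIntegral.integral_symm _ _
      rw [← m2, ← m1, m3]
      ring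
    rw [l3]
    have l4 : hh C β = Real.log (2 * Real.sin (π * (1 - 2 * β))) := by
      unfold hh gg
      rw [e2]
      linarith
    rw [← l4] at k3
    have l5 : 1 - β - β = 1 - 2 * β := by ring
    rw [l5]
    have l6 : a - b - (1 - 2 * β) = (a - (1 - β)) - (b - β) := by ring
    rw [l6] at k3
    have l7 : (1 - a - β) ^ 2 = (a - (1 - β)) ^ 2 := by ring
    rw [l7] at k2
    have l8 : (a - (1 - β) - (b - β)) ^ 2 ≤ 2 * ((a - (1 - β)) ^ 2 + (b - β) ^ 2) :=
      sq_sub_le _ _
    have hqe : 0 ≤ q + e := by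
      have : 0 ≤ q := by
        rw [hq]
        exact mul_nonneg hpi.le hcotn
      exact add_nonneg this he0.le
    have l9 := mul_le_mul_of_nonneg_left l8 hqe
    have l10 : d = 2 * q + 8 * e := by rw [he]; ring
    rw [l10] at k1 k2
    have l11 : 0 ≤ e * ((a - (1 - β)) ^ 2 + (b - β) ^ 2) := by positivity
    have l12 : 1 - a - β = -(a - (1 - β)) := by ring
    rw [l12] at k2
    have l13 : (2 * q + 8 * e - e) * (b - β) ^ 2 / 2 + (2 * q + 8 * e - e) * (a - (1 - β)) ^ 2 / 2 =
        (q + e) * (2 * ((a - (1 - β)) ^ 2 + (b - β) ^ 2)) / 2 +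
          5 / 2 * (e * ((a - (1 - β)) ^ 2 + (b - β) ^ 2)) := by ring
    have l14 : -(a - (1 - β)) * hh C β = -((a - (1 - β)) * hh C β) := by ring
    have l15 : (a - (1 - β) - (b - β)) * hh C β = (a - (1 - β)) * hh C β - (b - β) * hh C β := by
      ring
    rw [l14] at k2
    rw [l15] at k3
    have l16 : -(q + e) * (a - (1 - β) - (b - β)) ^ 2 / 2 =
        -((q + e) * (a - (1 - β) - (b - β)) ^ 2) / 2 := by ring
    rw [l16] at k3
    generalize (a - (1 - β)) * hh C β = z1 at *
    generalize (b - β) * hh C β = z2 at *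
    generalize (q + e) * (a - (1 - β) - (b - β)) ^ 2 = z3 at *
    generalize (q + e) * (2 * ((a - (1 - β)) ^ 2 + (b - β) ^ 2)) = z4 at *
    generalize (2 * q + 8 * e - e) * (b - β) ^ 2 = z5 at *
    generalize (2 * q + 8 * e - e) * (a - (1 - β)) ^ 2 = z6 at *
    generalize e * ((a - (1 - β)) ^ 2 + (b - β) ^ 2) = z7 at *
    clear H1 H2 H3 hJev hJ hxx
    linarith
  have m1 : min e (J0 / (4 * π ^ 2)) ≤ e := min_le_left _ _
  have m2 : min e (J0 / (4 * π ^ 2)) ≤ J0 / (4 * π ^ 2) := min_le_right _ _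
  have q1 := mul_le_mul_of_nonneg_right m1 (by positivity : 0 ≤ (a - (1 - β)) ^ 2 + (b - β) ^ 2)
  have q2 := mul_le_mul_of_nonneg_right m2 (sq_nonneg x)
  have q3 : min e (J0 / (4 * π ^ 2)) * (x ^ 2 + (a - (1 - β)) ^ 2 + (b - β) ^ 2) =
      min e (J0 / (4 * π ^ 2)) * x ^ 2 +
        min e (J0 / (4 * π ^ 2)) * ((a - (1 - β)) ^ 2 + (b - β) ^ 2) := by ring
  rw [q3]
  linarith

end Pool.Agent.H9.TP
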