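import Pool.Agent.H9.TP.Par
import Pool.Graph.R_seed8.Y813.TK.Ineq
import Pool.Graph.R_seed8.Y155.TK.Jen

/-!
# The maximum of the rate of a pair
-/

set_option autoImplicit false
set_option linter.all false

namespace Pool.Agent.H9.TP

open Set Filter Topology MeasureTheory
open Pool.Agent.Y472.K
open Pool.Agent.Y813.TK (Lc_cont Lc_deriv Lc_one ls_int ph ph_cont ph_int_half ps ps_cont ee_cont ee_deriv g2 g5)
open Pool.Agent.Y155.TK (jen g1)
open scoped Real Interval

/-- symmetry of `Lc` -/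
theorem Lc_refl (x : ℝ) : Lc (1 - x) = -Lc x := by
  have h1 : (∫ t in (0 : ℝ)..1, Real.log (2 * Real.sin (π * t))) -
      ∫ t in (0 : ℝ)..(1 - x), Real.log (2 * Real.sin (π * t)) =
      ∫ t in (1 - x)..1, Real.log (2 * Real.sin (π * t)) :=
    intervalIntegral.integral_interval_sub_left (ls_int _ _) (ls_int _ _)
  have h2 : ∫ t in (1 - x)..1, Real.log (2 * Real.sin (π * t)) =
      ∫ t in (0 : ℝ)..x, Real.log (2 * Real.sin (π * t)) := by
    have h3 := intervalIntegral.integral_comp_sub_left (a := 0) (b := x)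
      (fun t => Real.log (2 * Real.sin (π * t))) 1
    rw [sub_zero] at h3
    rw [← h3]
    refine intervalIntegral.integral_congr fun t _ => ?_
    show Real.log (2 * Real.sin (π * (1 - t))) = _
    rw [show π * (1 - t) = π - π * t by ring, Real.sin_pi_sub]
  have h3 := Lc_one
  unfold Lc at h3 ⊢
  linarith

/-- the symmetric pair is the best one for `Lc b - Lc a` -/
theorem Lc_pair {a b : ℝ} (hb : 0 ≤ b) (hba : b ≤ a) (ha : a ≤ 1) :
    Lc b - Lc a ≤ 2 * Lc ((1 - (a - b)) / 2) := by
  have hpi := Real.pi_pos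
  obtain ⟨δ, hδ⟩ : ∃ δ, δ = a - b := ⟨_, rfl⟩
  have hδ0 : 0 ≤ δ := by rw [hδ]; linarith
  obtain ⟨m, hm⟩ : ∃ m, m = (1 - δ) / 2 := ⟨_, rfl⟩
  have hcont : Continuous fun t : ℝ => Lc t - Lc (t + δ) :=
    Lc_cont.sub (Lc_cont.comp (by fun_prop))
  have hder : ∀ t : ℝ, 0 < t → t + δ < 1 → HasDerivAt (fun t : ℝ => Lc t - Lc (t + δ))
      (-Real.log (2 * Real.sin (π * t)) - -Real.log (2 * Real.sin (π * (t + δ)))) t := by
    intro t h0 h1
    have h2 := Lc_deriv (δ := t + δ) (by linarith) h1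
    have h3 : HasDerivAt (fun t : ℝ => Lc (t + δ)) (-Real.log (2 * Real.sin (π * (t + δ)))) t := by
      exact h2.comp_add_const t δ
    exact (Lc_deriv h0 (by linarith)).sub h3
  have hval : Lc m - Lc (m + δ) = 2 * Lc m := by
    have : m + δ = 1 - m := by rw [hm]; ring
    rw [this, Lc_refl]
    ring
  have hgoal : Lc b - Lc (b + δ) ≤ 2 * Lc m := by
    rw [← hval]
    rcases le_total b m with h | h
    · have hmono : MonotoneOn (fun t : ℝ => Lc t - Lc (t + δ)) (Icc 0 m) := by
        apply monotoneOn_of_deriv_nonneg (convex_Icc _ _) hcont.continuousOn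
        · intro t ht
          rw [interior_Icc] at ht
          exact (hder t ht.1 (by linarith [ht.2])).differentiableAt.differentiableWithinAt
        · intro t ht
          rw [interior_Icc] at ht
          rw [(hder t ht.1 (by linarith [ht.2])).deriv]
          have h1 : 0 < Real.sin (π * t) := Real.sin_pos_of_pos_of_lt_pi (by have := ht.1; positivity)
            (by nlinarith [ht.2])
          have h2 : Real.sin (π * t) ≤ Real.sin (π * (t + δ)) := by
            rcases le_total (t + δ) (1 / 2) with h3 | h3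
            · exact Real.sin_le_sin_of_le_of_le_pi_div_two (by nlinarith [ht.1]) (by nlinarith)
                (by nlinarith)
            · rw [← Real.sin_pi_sub (π * (t + δ))]
              exact Real.sin_le_sin_of_le_of_le_pi_div_two (by nlinarith [ht.1]) (by nlinarith)
                (by nlinarith [ht.2])
          have h3 := Real.log_le_log (by positivity)
            (mul_le_mul_of_nonneg_left h2 (by norm_num : (0 : ℝ) ≤ 2))
          linarith
      exact hmono ⟨hb, h⟩ ⟨by linarith, le_refl m⟩ h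
    · have hanti : AntitoneOn (fun t : ℝ => Lc t - Lc (t + δ)) (Icc m (1 - δ)) := by
        apply antitoneOn_of_deriv_nonpos (convex_Icc _ _) hcont.continuousOn
        · intro t ht
          rw [interior_Icc] at ht
          exact (hder t (by linarith [ht.1]) (by linarith [ht.2])).differentiableAt.differentiableWithinAt
        · intro t ht
          rw [interior_Icc] at ht
          have ht0 : 0 < t := by linarith [ht.1]
          have ht1 : t + δ < 1 := by linarith [ht.2]
          rw [(hder t ht0 ht1).deriv]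
          have h1 : 0 < Real.sin (π * (t + δ)) := Real.sin_pos_of_pos_of_lt_pi (by positivity)
            (by nlinarith)
          have h2 : Real.sin (π * (t + δ)) ≤ Real.sin (π * t) := by
            rcases le_total t (1 / 2) with h3 | h3
            · rw [← Real.sin_pi_sub (π * (t + δ))]
              exact Real.sin_le_sin_of_le_of_le_pi_div_two (by nlinarith) (by nlinarith)
                (by nlinarith [ht.1])
            · rw [← Real.sin_pi_sub (π * (t + δ)), ← Real.sin_pi_sub (π * t)]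
              exact Real.sin_le_sin_of_le_of_le_pi_div_two (by nlinarith) (by nlinarith)
                (by nlinarith)
          have h3 := Real.log_le_log (by positivity)
            (mul_le_mul_of_nonneg_left h2 (by norm_num : (0 : ℝ) ≤ 2))
          linarith
      refine hanti ⟨le_refl m, ?_⟩ ⟨h, ?_⟩ h
      · rw [hδ] at hm ⊢
        linarith
      · rw [hδ]
        linarith
  have e : b + δ = a := by rw [hδ]; ring
  rw [e, hm, hδ] at hgoal
  exact hgoal

/-- the rate of the symmetric pair with the difference `δ` -/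
noncomputable def es (C δ : ℝ) : ℝ := ee C δ + 2 * Lc ((1 - δ) / 2)

theorem es_cont {C : ℝ} (hC : 1 < C) : Continuous (es C) := by
  unfold es
  exact (ee_cont hC).add (continuous_const.mul (Lc_cont.comp (by fun_prop)))

theorem es_deriv {C δ : ℝ} (hC : 1 < C) (h0 : 0 < δ) (h1 : δ < 1) :
    HasDerivAt (es C) (1 / 2 * Real.log (2 * C + 2 * Real.cos (π * δ)) -
      1 / 2 * Real.log (2 - 2 * Real.cos (π * δ))) δ := by
  have hpi := Real.pi_pos
  have h2 : HasDerivAt (fun δ : ℝ => (1 - δ) / 2) (-(1 / 2)) δ := by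
    have := ((hasDerivAt_id δ).const_sub 1).div_const 2
    refine this.congr_deriv ?_
    ring
  have h3 := (Lc_deriv (δ := (1 - δ) / 2) (by linarith) (by linarith)).comp δ h2
  have h4 := (ee_deriv hC h0 h1).add (h3.const_mul 2)
  refine h4.congr_deriv ?_
  have hc : 0 < Real.cos (π * δ / 2) := Real.cos_pos_of_mem_Ioo ⟨by nlinarith, by nlinarith⟩
  have hs : 0 < Real.sin (π * δ / 2) :=
    Real.sin_pos_of_pos_of_lt_pi (by positivity) (by nlinarith)
  have e1 : Real.sin (π * ((1 - δ) / 2)) = Real.cos (π * δ / 2) := by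
    rw [show π * ((1 - δ) / 2) = π / 2 - π * δ / 2 by ring, Real.sin_pi_div_two_sub]
  have e2 : Real.sin (π * δ) = 2 * Real.sin (π * δ / 2) * Real.cos (π * δ / 2) := by
    rw [← Real.sin_two_mul]
    congr 1
    ring
  have e3 : Real.cos (π * δ) = 1 - 2 * Real.sin (π * δ / 2) ^ 2 := by
    have h5 : Real.cos (π * δ) = 2 * Real.cos (π * δ / 2) ^ 2 - 1 := by
      rw [← Real.cos_two_mul]
      congr 1
      ring
    have := Real.sin_sq_add_cos_sq (π * δ / 2)
    linarith
  have e4 : Real.log (2 - 2 * Real.cos (π * δ)) = 2 * Real.log (2 * Real.sin (π * δ / 2)) := by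
    rw [e3, show 2 - 2 * (1 - 2 * Real.sin (π * δ / 2) ^ 2) = (2 * Real.sin (π * δ / 2)) ^ 2 by ring,
      Real.log_pow]
    norm_num
  have e5 : Real.log (2 * Real.sin (π * δ)) =
      Real.log (2 * Real.sin (π * δ / 2)) + Real.log (2 * Real.cos (π * δ / 2)) := by
    rw [← Real.log_mul (by positivity) (by positivity), e2]
    congr 1
    ring
  rw [e1, e4, e5]
  ring

theorem es_mono {n : ℕ} (h : Par n) : StrictMonoOn (es (Ch n)) (Icc 0 (1 - 2 * bs n)) := by
  have hpi := Real.pi_pos
  have hb1 := h.b1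
  have hb2 := h.b2
  have hCh : Ch n = 2 - ga n := rfl
  apply strictMonoOn_of_deriv_pos (convex_Icc _ _) (es_cont h.ch1).continuousOn
  intro δ hδ
  rw [interior_Icc] at hδ
  have hδ0 := hδ.1
  rw [(es_deriv h.ch1 hδ0 (by linarith [hδ.2])).deriv]
  have h1 : Real.cos (π * (1 - 2 * bs n)) < Real.cos (π * δ) :=
    Real.cos_lt_cos_of_nonneg_of_le_pi (by positivity) (by nlinarith) (by nlinarith [hδ.2])
  rw [show π * (1 - 2 * bs n) = π - 2 * π * bs n by ring, Real.cos_pi_sub, h.cosb] at h1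
  have h2 : Real.cos (π * δ) < 1 := by
    have := Real.cos_lt_cos_of_nonneg_of_le_pi le_rfl (by nlinarith [hδ.2]) (by positivity : 0 < π * δ)
    rwa [Real.cos_zero] at this
  have h3 : Real.log (2 - 2 * Real.cos (π * δ)) < Real.log (2 * Ch n + 2 * Real.cos (π * δ)) := by
    apply Real.log_lt_log (by linarith)
    rw [hCh]
    linarith
  linarith

theorem es_anti {n : ℕ} (h : Par n) : StrictAntiOn (es (Ch n)) (Icc (1 - 2 * bs n) 1) := by
  have hpi := Real.pi_pos
  have hb1 := h.b1
  have hb2 := h.b2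
  have hCh : Ch n = 2 - ga n := rfl
  apply strictAntiOn_of_deriv_neg (convex_Icc _ _) (es_cont h.ch1).continuousOn
  intro δ hδ
  rw [interior_Icc] at hδ
  have hδ0 : 0 < δ := by linarith [hδ.1]
  have hδ1 := hδ.2
  rw [(es_deriv h.ch1 hδ0 hδ1).deriv]
  have h1 : Real.cos (π * δ) < Real.cos (π * (1 - 2 * bs n)) :=
    Real.cos_lt_cos_of_nonneg_of_le_pi (by nlinarith) (by nlinarith) (by nlinarith [hδ.1])
  rw [show π * (1 - 2 * bs n) = π - 2 * π * bs n by ring, Real.cos_pi_sub, h.cosb] at h1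
  have h2 := Real.neg_one_le_cos (π * δ)
  have hch1 := h.ch1
  have h3 : Real.log (2 * Ch n + 2 * Real.cos (π * δ)) < Real.log (2 - 2 * Real.cos (π * δ)) := by
    apply Real.log_lt_log (by linarith)
    rw [hCh]
    linarith
  linarith

theorem Es_eq {n : ℕ} (h : Par n) : Es n = es (Ch n) (1 - 2 * bs n) := by
  have hb1 := h.b1
  have hb2 := h.b2
  unfold Es Ep es
  have h1 := (g2 (yn n) (1 - bs n) (bs n) h.y0 (by linarith) (by linarith) (by linarith)
    (by linarith)).2.2 (by ring)
  rw [h1, h.cosh, Lc_refl]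
  have e1 : 1 - bs n - bs n = 1 - 2 * bs n := by ring
  have e2 : (1 - (1 - 2 * bs n)) / 2 = bs n := by ring
  rw [e1, e2]
  ring

theorem es_le {n : ℕ} (h : Par n) {δ : ℝ} (h0 : 0 ≤ δ) (h1 : δ ≤ 1) :
    es (Ch n) δ ≤ Es n ∧ (δ ≠ 1 - 2 * bs n → es (Ch n) δ < Es n) := by
  have hb1 := h.b1
  have hb2 := h.b2
  rw [Es_eq h]
  rcases lt_trichotomy δ (1 - 2 * bs n) with h2 | h2 | h2
  · have := es_mono h ⟨h0, h2.le⟩ ⟨by linarith, le_rfl⟩ h2
    exact ⟨this.le, fun _ => this⟩
  · rw [h2]
    exact ⟨le_rfl, fun h => absurd rfl h⟩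
  · have := es_anti h ⟨le_rfl, by linarith⟩ ⟨h2.le, h1⟩ h2
    exact ⟨this.le, fun _ => this⟩

/-- the pairs on one side -/
theorem side {n : ℕ} (h : Par n) {x a b : ℝ} (hb : 0 ≤ b) (hba : b ≤ a) (ha : a ≤ 1)
    (hs : a ≤ 1 / 2 ∨ 1 / 2 ≤ b) : Ep x (yn n) a b < Es n := by
  have hb1 := h.b1
  have hb2 := h.b2
  have hpi := Real.pi_pos
  have hC : 1 ≤ Ch n := h.ch1.le
  have hδ : a - b ≤ 1 / 2 := by rcases hs with hs | hs <;> linarith
  have h1 := g5 x (yn n) a b h.y0 hb hba ha hs
  rw [h.cosh] at h1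
  have h2 : ∫ s in (0 : ℝ)..(a - b), ph (Ch n) s ≤ 2 * ∫ s in (0 : ℝ)..((a - b) / 2), ps (Ch n) s := by
    have hi : ∀ u v : ℝ, IntervalIntegrable (ph (Ch n)) volume u v := fun u v =>
      (ph_cont hC).intervalIntegrable u v
    have e1 := intervalIntegral.integral_add_adjacent_intervals (hi 0 ((a - b) / 2))
      (hi ((a - b) / 2) (a - b))
    have e2 := ph_int_half (C := Ch n) (a := a - b) (b := (a - b) / 2) hC (by linarith)
      (by linarith) hδ
    have e3 : a - b - (a - b) / 2 = (a - b) / 2 := by ring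
    rw [e3] at e2
    have e4 : ∫ s in (0 : ℝ)..((a - b) / 2), ph (Ch n) s = ∫ s in (0 : ℝ)..((a - b) / 2), ps (Ch n) s := by
      refine intervalIntegral.integral_congr fun t ht => ?_
      rw [uIcc_of_le (by linarith)] at ht
      unfold ph ps
      have : 0 ≤ Real.cos (2 * π * t) := Real.cos_nonneg_of_neg_pi_div_two_le_of_le
        (by nlinarith [ht.1]) (by nlinarith [ht.2])
      show Real.log (2 * Ch n + 2 * |Real.cos (2 * π * t)|) = _
      rw [abs_of_nonneg this]
    linarith
  have h3 : Pool.Agent.Y472.K.Ep x (yn n) a b ≤ ee (Ch n) (a - b) := by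
    unfold ee
    have e1 : ∫ s in (0 : ℝ)..(a - b), Real.log (2 * Ch n + 2 * |Real.cos (2 * π * s)|) =
      ∫ s in (0 : ℝ)..(a - b), ph (Ch n) s := rfl
    have e2 : ∫ s in (0 : ℝ)..((a - b) / 2), Real.log (2 * Ch n + 2 * Real.cos (2 * π * s)) =
      ∫ s in (0 : ℝ)..((a - b) / 2), ps (Ch n) s := rfl
    rw [e1] at h1
    rw [e2]
    linarith
  have h4 := Lc_pair hb hba ha
  have h5 := (es_le h (δ := a - b) (by linarith) (by linarith)).2 (by linarith)
  unfold Ep
  unfold es at h5
  linarith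

/-- **the maximum of the rate of a pair** -/
theorem pair {n : ℕ} (h : Par n) {x a b : ℝ} (hx : |x| ≤ π) (hb : 0 ≤ b) (hba : b ≤ a)
    (ha : a ≤ 1) : Ep x (yn n) a b ≤ Es n ∧
      (¬ (x = 0 ∧ a = 1 - bs n ∧ b = bs n) → Ep x (yn n) a b < Es n) := by
  have hb1 := h.b1
  have hb2 := h.b2
  by_cases hs : a ≤ 1 / 2 ∨ 1 / 2 ≤ b
  · have := side h (x := x) hb hba ha hs
    exact ⟨this.le, fun _ => this⟩
  · push Not at hs
    obtain ⟨ha2, hb2'⟩ := hs
    obtain ⟨k1, k2⟩ := g1 jen x (yn n) a b h.y0 hx hb hb2'.le ha2.le ha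
    obtain ⟨l1, l2, -⟩ := g2 (yn n) a b h.y0 hb hb2'.le ha2.le ha
    rw [h.cosh] at l1 l2
    have h4 := Lc_pair hb hba ha
    obtain ⟨m1, m2⟩ := es_le h (δ := a - b) (by linarith) (by linarith)
    have hE : Pool.Agent.Y472.K.Ep x (yn n) a b ≤ Pool.Agent.Y472.K.Ep 0 (yn n) a b := by
      unfold Pool.Agent.Y472.K.Ep
      linarith
    unfold es at m1 m2
    unfold Ep
    refine ⟨by linarith, fun hne => ?_⟩
    by_cases h5 : a + b = 1
    · by_cases h6 : a - b = 1 - 2 * bs n
      · have h7 : a = 1 - bs n := by linarith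
        have h8 : b = bs n := by linarith
        have h9 : x ≠ 0 := fun h9 => hne ⟨h9, h7, h8⟩
        have h10 := k2 h9 (by linarith) hb2'
        have hE' : Pool.Agent.Y472.K.Ep x (yn n) a b < Pool.Agent.Y472.K.Ep 0 (yn n) a b := by
          unfold Pool.Agent.Y472.K.Ep
          linarith
        linarith
      · have := m2 h6
        linarith
    · have := l2 h5
      linarith

theorem star (n : ℕ) [NeZero n] (h : Par n) : STAR n := by
  intro a b hPO hne
  refine ⟨yn n, h.y0, fun x hx => ?_⟩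
  have hx' : |x| ≤ π := abs_le.2 hx
  push Not at hne
  obtain ⟨r₀, hr₀⟩ := hne
  unfold HH Dn
  have hb : ∀ r, 0 ≤ b r := hPO.nn
  have h1 : ∑ r : Fin n, (Ep x (yn n) (a r) (b r) + Ep x (yn n) (a (r + 1)) (b r)) <
      ∑ _r : Fin n, 2 * Es n := by
    refine Finset.sum_lt_sum (fun r _ => ?_) ⟨r₀, Finset.mem_univ _, ?_⟩
    · have e1 := (pair h hx' (hb r) (hPO.le r) (hPO.le1 r)).1
      have e2 := (pair h hx' (hb r) (hPO.le' r) (hPO.le1 (r + 1))).1
      linarith
    · have e1 := (pair h hx' (hb r₀) (hPO.le r₀) (hPO.le1 r₀)).2 (fun hh => hr₀ hh.2.1 hh.2.2)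
      have e2 := (pair h hx' (hb r₀) (hPO.le' r₀) (hPO.le1 (r₀ + 1))).1
      linarith
  rw [Finset.sum_const, Finset.card_univ, Fintype.card_fin, nsmul_eq_mul] at h1
  linarith

theorem starx (n : ℕ) (h : Par n) : STARX n := by
  intro x hx hx0
  have hb1 := h.b1
  have hb2 := h.b2
  exact (pair h (abs_le.2 hx) (by linarith) (by linarith) (by linarith)).2 (fun hh => hx0 hh.1)

end Pool.Agent.H9.TP
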