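import Pool.Agent.H9.TP.Defs
import Pool.Agent.H9.TP.Par
import Pool.Graph.R_seed8.Y100.TK.Sym
import Pool.Graph.R_seed8.Y604.TK.Real

/-!
# Symmetry of the quadratic forms, reality of the sum
-/

set_option autoImplicit false
set_option linter.all false

namespace Pool.Agent.H9.TP

open Finset Filter Topology MeasureTheory
open Pool.Agent.W711.HT Pool.Agent.Y472.K
open Pool.Agent.Y100.TK (clf_sub int_conj sum_refl neg_eq neg_succ ph_refl T TT seq_lim)
open Pool.Agent.Y604.TK (rI rJ rI_rI rJ_rJ refl Qc_r deriv_real Qc_conj mem_r Ok_of)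
open scoped Real ComplexConjugate

variable {n : ℕ} [NeZero n]

/-- the exponent of the reflected configuration -/
theorem Xe_refl (N : ℕ) (i j : Fin n → ℕ) {x : ℝ} (h : 1 < Real.cos x * Real.cosh (yn n)) :
    Xe n N (fun r => i (-r)) (fun r => j (-r - 1)) (-x) = conj (Xe n N i j x) := by
  unfold Xe
  simp only [neg_succ]
  have e1 : ∑ r : Fin n, ((Lc (((i (-r) : ℝ) - j (-r - 1)) / N) : ℂ) +
      (Lc (((i (-r - 1) : ℝ) - j (-r - 1)) / N) : ℂ)) =
      ∑ r : Fin n, ((Lc (((i r : ℝ) - j r) / N) : ℂ) + (Lc (((i (r + 1) : ℝ) - j r) / N) : ℂ)) := by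
    rw [← sum_refl fun r : Fin n => ((Lc (((i r : ℝ) - j r) / N) : ℂ) +
      (Lc (((i (r + 1) : ℝ) - j r) / N) : ℂ))]
    refine Finset.sum_congr rfl fun r _ => ?_
    rw [← neg_eq, add_comm]
  have e2 : ∑ r : Fin n, (∫ t in ((j (-r - 1) : ℝ) / N)..((i (-r - 1) : ℝ) / N),
      clf (-x) (yn n) t) = ∑ r : Fin n,
      (∫ t in ((j r : ℝ) / N)..((i r : ℝ) / N), clf (-x) (yn n) t) :=
    sum_refl fun r : Fin n => ∫ t in ((j r : ℝ) / N)..((i r : ℝ) / N), clf (-x) (yn n) t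
  obtain ⟨P, hP⟩ : ∃ P : ℝ → ℂ, ∀ a b, ∫ t in b..a, clf x (yn n) t = P a - P b :=
    ⟨fun u => ∫ t in (0 : ℝ)..u, clf x (yn n) t, fun a b => clf_sub h a b⟩
  have e3 : ∑ r : Fin n, (∫ t in ((j r : ℝ) / N)..((i r : ℝ) / N), clf (-x) (yn n) t) =
      conj (∑ r : Fin n, ∫ t in ((j r : ℝ) / N)..((i (r + 1) : ℝ) / N), clf x (yn n) t) := by
    simp only [int_conj h, hP]
    rw [← map_sum]
    congr 1
    rw [Finset.sum_sub_distrib, Finset.sum_sub_distrib]
    congr 1
    exact (Equiv.sum_comp (Equiv.addRight (1 : Fin n)) fun r => P ((i r : ℝ) / N)).symm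
  have e5 : ∑ r : Fin n, ((Lc ((j (-r - 1) : ℝ) / N) : ℂ) - (Lc ((i (-r) : ℝ) / N) : ℂ)) =
      ∑ r : Fin n, ((Lc ((j r : ℝ) / N) : ℂ) - (Lc ((i r : ℝ) / N) : ℂ)) := by
    rw [Finset.sum_sub_distrib, Finset.sum_sub_distrib]
    congr 1
    · exact sum_refl fun r : Fin n => (Lc ((j r : ℝ) / N) : ℂ)
    · exact Equiv.sum_comp (Equiv.neg (Fin n)) fun r => (Lc ((i r : ℝ) / N) : ℂ)
  rw [e1, e2, e3, e5, map_add, map_sub, map_add, map_add, map_sum, map_mul, map_mul,
    Complex.conj_I, Complex.conj_ofReal, Complex.conj_ofReal]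
  have e4 : conj (∑ r : Fin n, ((Lc (((i r : ℝ) - j r) / N) : ℂ) +
      (Lc (((i (r + 1) : ℝ) - j r) / N) : ℂ))) = ∑ r : Fin n, ((Lc (((i r : ℝ) - j r) / N) : ℂ) +
      (Lc (((i (r + 1) : ℝ) - j r) / N) : ℂ)) := by
    rw [map_sum]
    refine Finset.sum_congr rfl fun r _ => ?_
    rw [map_add, Complex.conj_ofReal, Complex.conj_ofReal]
  have e6 : conj (∑ r : Fin n, ((Lc ((j r : ℝ) / N) : ℂ) - (Lc ((i r : ℝ) / N) : ℂ))) =
      ∑ r : Fin n, ((Lc ((j r : ℝ) / N) : ℂ) - (Lc ((i r : ℝ) / N) : ℂ)) := by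
    rw [map_sum]
    refine Finset.sum_congr rfl fun r _ => ?_
    rw [map_sub, Complex.conj_ofReal, Complex.conj_ofReal]
  have h2 : conj (2 : ℂ) = 2 := by
    have := Complex.conj_ofReal 2
    simpa using this
  rw [e4, e6, h2]
  push_cast
  ring

/-- the reflection changes the sign of `S` -/
theorem sym (hPAR : Par n) (R S : QuadraticForm ℝ ((Fin n ⊕ Fin n → ℝ) × ℝ)) (hRS : PTp n R S) :
    ∃ T : ((Fin n ⊕ Fin n → ℝ) × ℝ) →ₗ[ℝ] ((Fin n ⊕ Fin n → ℝ) × ℝ),
    (∀ v, T (T v) = v) ∧ (∀ v, R (T v) = R v) ∧ ∀ v, S (T v) = -S v := by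
  have hCh := hPAR.ch1
  have hyn := hPAR.y0
  have hcosh := hPAR.cosh
  have hb1 := hPAR.b1
  have hb2 := hPAR.b2
  refine ⟨T n, TT, ?_⟩
  have key : ∀ v, R (T n v) = R v ∧ S (T n v) = -S v := by
    intro v
    set i : ℕ → Fin n → ℕ := fun N r => ⌊(1 - bs n) * N + √(N : ℝ) * v.1 (Sum.inl r)⌋₊ with hi
    set j : ℕ → Fin n → ℕ := fun N r => ⌊bs n * N + √(N : ℝ) * v.1 (Sum.inr r)⌋₊ with hj
    set x : ℕ → ℝ := fun N => v.2 / √(N : ℝ) with hx
    have hil : ∀ r, Tendsto (fun N : ℕ => √(N : ℝ) * ((i N r : ℝ) / N - (1 - bs n))) atTop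
        (𝓝 (v.1 (Sum.inl r))) := fun r => seq_lim (by linarith) _
    have hjl : ∀ r, Tendsto (fun N : ℕ => √(N : ℝ) * ((j N r : ℝ) / N - bs n)) atTop
        (𝓝 (v.1 (Sum.inr r))) := fun r => seq_lim (by linarith) _
    have hs : Tendsto (fun N : ℕ => √(N : ℝ)) atTop atTop :=
      Real.tendsto_sqrt_atTop.comp tendsto_natCast_atTop_atTop
    have hxl : Tendsto (fun N : ℕ => √(N : ℝ) * x N) atTop (𝓝 v.2) := by
      refine tendsto_const_nhds.congr' ?_
      filter_upwards [hs.eventually_gt_atTop 0] with N hN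
      rw [hx]
      field_simp
    have hx0 : Tendsto x atTop (𝓝 0) := hs.const_div_atTop v.2
    have h1 := hRS.lim i j x v hil hjl hxl
    have h2 := hRS.lim (fun N r => i N (-r)) (fun N r => j N (-r - 1)) (fun N => -x N) (T n v)
      (fun r => hil (-r)) (fun r => hjl (-r - 1)) (by
        have h3 := hxl.neg
        simp only [← mul_neg] at h3
        exact h3)
    have hev : ∀ᶠ N : ℕ in atTop, 1 < Real.cos (x N) * Real.cosh (yn n) := by
      have h3 : Tendsto (fun N => Real.cos (x N) * Real.cosh (yn n)) atTop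
          (𝓝 (Real.cos 0 * Real.cosh (yn n))) :=
        ((Real.continuous_cos.tendsto 0).comp hx0).mul_const _
      refine h3.eventually_const_lt ?_
      rw [Real.cos_zero, one_mul, hcosh]
      exact hCh
    have h4 := (Complex.continuous_conj.tendsto _).comp h1
    have h5 := h4.congr' (f₂ := fun N : ℕ => (N : ℂ) * (Xe n N (fun r => i N (-r))
      (fun r => j N (-r - 1)) (-x N) - Dn n) + Complex.I * π / N *
        ∑ r, (((i N (-r) : ℕ) : ℂ) - (i N (-(r + 1)) : ℕ)) * (j N (-r - 1) : ℕ)) (by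
      filter_upwards [hev] with N hN
      rw [Xe_refl N (i N) (j N) hN, ph_refl (i N) (j N)]
      simp only [Function.comp_apply, map_add, map_mul, map_sub, map_div₀, map_sum,
        Complex.conj_I, Complex.conj_ofReal, map_natCast]
      ring)
    have h6 := tendsto_nhds_unique h2 h5
    rw [map_sub, map_neg, map_mul, Complex.conj_I, Complex.conj_ofReal, Complex.conj_ofReal] at h6
    have hre := congrArg Complex.re h6
    have him := congrArg Complex.im h6
    simp only [Complex.sub_re, Complex.neg_re, Complex.ofReal_re, Complex.mul_re, Complex.I_re,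
      Complex.I_im, Complex.ofReal_im, Complex.sub_im, Complex.neg_im, Complex.mul_im] at hre him
    constructor
    · linarith
    · linarith
  exact ⟨fun v => (key v).1, fun v => (key v).2⟩

/-! ### Reality -/

theorem ww_r (N : ℕ) (i j : Fin n → ℕ) : ww n N (rI i) (rJ j) = ww n N i j := by
  unfold ww
  have h1 : ∏ r : Fin n, (Sd N (rI i (r + 1)) / Sd N (rJ j r)) ^ 2 =
      ∏ r : Fin n, (Sd N (i r) / Sd N (j r)) ^ 2 := by
    refine Fintype.prod_equiv (refl n) _ _ fun r => ?_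
    have e0 : refl n r = -r - 1 := rfl
    have e2 : (-(r + 1) : Fin n) = -r - 1 := by abel
    rw [e0]
    unfold rI rJ
    rw [e2]
  rw [h1]
  simp only [div_pow]
  rw [Finset.prod_div_distrib, Finset.prod_div_distrib]
  congr 1
  exact (Equiv.prod_comp (Equiv.addRight (1 : Fin n)) fun r => Sd N (i r) ^ 2).symm

theorem ct_r {N : ℕ} {i j : Fin n → ℕ} (h : Ok n N i j) :
    ct n N (rI i) (rJ j) = conj (ct n N i j) := by
  unfold ct co
  rw [Pool.Agent.Y604.TK.co_r, Qc_r h, ww_r, map_mul, map_mul, map_sum, Complex.conj_ofReal]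
  congr 1
  refine sum_congr rfl fun p _ => ?_
  have h1 : (2 * π * p / N : ℂ) = ((2 * π * p / N : ℝ) : ℂ) := by push_cast; ring
  rw [h1]
  refine (deriv_real _ (fun z => ?_) _).symm
  rw [map_mul, Qc_conj, Complex.sin_conj]

/-- the sum over the configurations is real -/
theorem real (n N : ℕ) [NeZero n] :
    conj (∑ c ∈ cfg n N, ct n N c.1 c.2) = ∑ c ∈ cfg n N, ct n N c.1 c.2 := by
  rw [map_sum]
  refine sum_nbij' (fun c => (rI c.1, rJ c.2)) (fun c => (rI c.1, rJ c.2)) (fun c hc => mem_r hc)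
    (fun c hc => mem_r hc) (fun c _ => ?_) (fun c _ => ?_) (fun c hc => ?_)
  · simp only [rI_rI, rJ_rJ]
  · simp only [rI_rI, rJ_rJ]
  · exact (ct_r (Ok_of hc)).symm

end Pool.Agent.H9.TP
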