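import Pool.Agent.H9.TP.Exa
import Pool.Agent.H9.TP.Near
import Pool.Agent.H9.TP.Pt
import Pool.Agent.H9.TP.Sym
import Pool.Agent.H9.TP.Far
import Pool.Agent.H9.TP.Star
import Pool.Agent.H9.TP.Quad
import Pool.Agent.H9.TP.Core
import Pool.Graph.R_seed8.Y604.TK.Pos
import Pool.Graph.R_seed8.Y86.TK.Gau
import Pool.Graph.R_seed8.Y407.TK.Lap
import Pool.Graph.R_seed8.Y681.TK.Fin
import Pool.Graph.R_seed8.Y220.TK.Qbd
import Pool.Graph.R_seed8.Y487.TK.Contour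
import Pool.Graph.R_seed8.Y472.K.Lim

/-!
# The closures of `(s_1^2 s_2^{-2})^n`: the limit, and the forms of the result
-/

set_option autoImplicit false

namespace Pool.Agent.H9.TP

open Finset Filter Topology MeasureTheory Pool.Agent.W711.HT
open Pool.Agent.Y472.K (Ok cfg)
open scoped Real

theorem lead (n : ℕ) [NeZero n] (hn : 2 ≤ n) : ∃ c : ℝ, 0 < c ∧
    Tendsto (fun N : ℕ => (∑ c ∈ cfg n N, ct n N c.1 c.2) /
      (((N : ℝ) ^ (3 / 2 : ℝ) * Real.exp (N * Dn n) : ℝ) : ℂ)) atTop (𝓝 (c : ℂ)) := by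
  have hPAR := par n hn
  obtain ⟨R, S, hP⟩ := pt n hPAR
  obtain ⟨T, hT1, hT2, hT3⟩ := sym hPAR R S hP
  obtain ⟨κ₀, hκ₀, hint⟩ := Pool.Agent.Y604.TK.t_POS Pool.Agent.Y86.TK.t_GAU (Fin n ⊕ Fin n) R S T
    hP.pos hT1 hT2 hT3
  obtain ⟨ρ', ρ₁, hρ', hρ'π, hρ₁, κ, hκ, hlim2⟩ := nearx
    Pool.Agent.Y407.TK.lap Pool.Agent.Y681.TK.t_SDA
    Pool.Agent.Y220.TK.qda Pool.Agent.Y220.TK.qb n hPAR (quad hPAR) R S hP
  refine ⟨κ * κ₀ / π, by positivity, ?_⟩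
  have h := core_of Pool.Agent.Y487.TK.s_con n hPAR
    (far Pool.Agent.Y681.TK.t_SB Pool.Agent.Y220.TK.qb Pool.Agent.Y487.TK.s_con n (star n hPAR))
    (farx Pool.Agent.Y681.TK.t_SB Pool.Agent.Y220.TK.qb n hPAR (starx n hPAR))
    ρ' ρ₁ hρ' hρ'π hρ₁ _ hlim2
  rw [hint] at h
  have hpi : (π : ℂ) ≠ 0 := by exact_mod_cast Real.pi_ne_zero
  have e1 : -(Complex.I / π) * (Complex.I * κ * κ₀) = ((κ * κ₀ / π : ℝ) : ℂ) := by
    push_cast
    field_simp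
    rw [Complex.I_sq]
    ring
  rw [e1] at h
  exact h

/-- the Kashaev invariants of the closure of `(s_1^2 s_2^{-2})^n` -/
noncomputable def KJ (n N : ℕ) : ℂ :=
  Pool.Agent.H550R3.Jones.cjones N 2 (Pool.Agent.Y472.bw (List.replicate n (2, -2)))
    (Pool.Agent.W711.HT.vN N)

/-- the asymptotics -/
theorem fin (n : ℕ) (hn : 2 ≤ n) : ∃ c : ℝ, 0 < c ∧
    Tendsto (fun N : ℕ => KJ n N /
        (((N : ℝ) ^ (3 / 2 : ℝ) * Real.exp (N * Dn n) : ℝ) : ℂ)) atTop (𝓝 (c : ℂ)) := by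
  have : NeZero n := ⟨by omega⟩
  obtain ⟨c, h1, h2⟩ := lead n hn
  refine ⟨c, h1, h2.congr' ?_⟩
  filter_upwards [eventually_ge_atTop 2] with N hN
  rw [KJ, exac2 n N hN]

/-- the invariants are real -/
theorem real_KJ (n N : ℕ) (hn : 2 ≤ n) (hN : 2 ≤ N) : (KJ n N).im = 0 := by
  have : NeZero n := ⟨by omega⟩
  rw [KJ, exac2 n N hN]
  exact Complex.conj_eq_iff_im.1 (real n N)

open Pool.Agent.Y472.K.Lim (w)

/-- a sequence of complex numbers which are real, with a positive leading coefficient -/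
structure Ex (J : ℕ → ℂ) (V a : ℝ) : Prop where
  pos : 0 < a
  real : ∀ᶠ N : ℕ in atTop, (J N).im = 0
  lim : Tendsto (fun N : ℕ => J N / ((w V N : ℝ) : ℂ)) atTop (𝓝 (a : ℂ))

theorem ex (n : ℕ) (hn : 2 ≤ n) : ∃ a : ℝ, Ex (KJ n) (2 * Real.pi * Dn n) a := by
  obtain ⟨a, ha, h⟩ := fin n hn
  refine ⟨a, ha, ?_, h.congr fun N => ?_⟩
  · filter_upwards [eventually_ge_atTop 2] with N hN
    exact real_KJ n N hn hN
  · have e1 : w (2 * Real.pi * Dn n) N = (N : ℝ) ^ (3 / 2 : ℝ) * Real.exp (N * Dn n) := by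
      unfold w
      congr 2
      have := Real.pi_ne_zero
      field_simp
    rw [e1]

variable {J : ℕ → ℂ} {V a : ℝ}

lemma Ex.re (h : Ex J V a) : Tendsto (fun N : ℕ => (J N).re / w V N) atTop (𝓝 a) := by
  have h3 := (Complex.continuous_re.tendsto _).comp h.lim
  rw [Complex.ofReal_re] at h3
  refine h3.congr fun N => ?_
  exact Complex.div_ofReal_re _ _

lemma Ex.ev (h : Ex J V a) : ∀ᶠ N : ℕ in atTop, 0 < (J N).re ∧ J N = ((J N).re : ℂ) := by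
  filter_upwards [Pool.Agent.Y472.K.Lim.ev_pos h.pos h.re, h.real] with N h1 h2
  refine ⟨h1, ?_⟩
  apply Complex.ext
  · simp
  · simp [h2]

lemma Ex.ne (h : Ex J V a) : ∀ᶠ N : ℕ in atTop, J N ≠ 0 := by
  filter_upwards [h.ev] with N hN h0
  rw [h0, Complex.zero_re] at hN
  exact lt_irrefl _ hN.1

lemma Ex.norm (h : Ex J V a) : ∀ᶠ N : ℕ in atTop, ‖J N‖ = (J N).re := by
  filter_upwards [h.ev] with N hN
  rw [hN.2, Complex.norm_real, Complex.ofReal_re, Real.norm_of_nonneg hN.1.le]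

lemma Ex.log (h : Ex J V a) : Tendsto (fun N : ℕ => 2 * Real.pi * (Real.log ‖J N‖ / N)) atTop
    (𝓝 V) := by
  refine (Pool.Agent.Y472.K.Lim.log_lim h.pos h.re).congr' ?_
  filter_upwards [h.norm] with N hN
  rw [hN]

lemma Ex.ratio (h : Ex J V a) (k : ℕ) : Tendsto (fun N : ℕ => J (N + k) / J N) atTop
    (𝓝 (Complex.exp ((k * V / (2 * Real.pi) : ℝ) : ℂ))) := by
  have h1 := (Complex.continuous_ofReal.tendsto _).comp
    (Pool.Agent.Y472.K.Lim.ratio h.pos h.re k)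
  rw [Complex.ofReal_exp] at h1
  refine h1.congr' ?_
  filter_upwards [h.ev, (tendsto_add_atTop_nat k).eventually h.ev] with N h2 h3
  show (((J (N + k)).re / (J N).re : ℝ) : ℂ) = _
  rw [Complex.ofReal_div, ← h2.2, ← h3.2]

/-- real logarithms -/
lemma Ex.logs (h : Ex J V a) : ∃ l : ℕ → ℝ, (∀ᶠ N : ℕ in atTop, Complex.exp (l N) = J N) ∧
    Tendsto (fun N : ℕ => 2 * Real.pi * (l N / N)) atTop (𝓝 V) ∧
    ∀ k : ℕ, Tendsto (fun N : ℕ => l (N + k) - l N) atTop (𝓝 (k * V / (2 * Real.pi))) := by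
  refine ⟨fun N => Real.log (J N).re, ?_, Pool.Agent.Y472.K.Lim.log_lim h.pos h.re,
    fun k => Pool.Agent.Y472.K.Lim.log_diff h.pos h.re k⟩
  filter_upwards [h.ev] with N hN
  rw [← Complex.ofReal_exp, Real.exp_log hN.1]
  exact hN.2.symm

end Pool.Agent.H9.TP
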