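import Pool.Agent.H9.TP.Par
import Pool.Graph.R_seed8.Y988.TK.Vol
import Pool.Graph.R_seed8.Y721.TK.Quad

/-!
# The growth rate in terms of Lobachevsky's function
-/

set_option autoImplicit false
set_option linter.all false

namespace Pool.Agent.H9.TP

open Set Filter Topology MeasureTheory
open Pool.Agent.Y472.K
open Pool.Agent.Y988.TK (Lc_cont Lc_deriv Lc_half Lc_refl Lc_dup int_poisson lob)
open Pool.Agent.Y721.TK (gg gg_continuous gg_refl)
open scoped Real Interval

/-- the angle `arctan (tanh (y / 2) cot π b)` -/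
noncomputable def dl (y b : ℝ) : ℝ :=
  Real.arctan (Real.tanh (y / 2) * (Real.cos (π * b) / Real.sin (π * b)))

/-- properties of the angle -/
structure Dp (y b : ℝ) : Prop where
  d0 : 0 < dl y b
  d1 : dl y b < π / 2 - π * b
  s1 : 0 < Real.sin (π / 2 - π * b + dl y b)
  s2 : 0 < Real.sin (π / 2 - π * b - dl y b)
  ey : Real.log (2 * Real.sin (π / 2 - π * b + dl y b)) -
    Real.log (2 * Real.sin (π / 2 - π * b - dl y b)) = y
  es : Real.log (2 * Real.cosh y - 2 * Real.cos (2 * π * b)) +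
    Real.log (2 * Real.sin (π / 2 - π * b + dl y b)) +
    Real.log (2 * Real.sin (π / 2 - π * b - dl y b)) =
    2 * Real.log (2 * Real.sin (π * b)) + 2 * Real.log (2 * Real.cos (π * b))

theorem dp {y b : ℝ} (hy : 0 < y) (h0 : 0 < b) (h1 : b < 1 / 2) : Dp y b := by
  have hpi := Real.pi_pos
  have hb : 0 < π * b := by positivity
  have hb2 : π * b < π / 2 := by
    have := mul_lt_mul_of_pos_left h1 hpi
    linarith
  have hs : 0 < Real.sin (π * b) := Real.sin_pos_of_pos_of_lt_pi hb (by linarith)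
  have hc : 0 < Real.cos (π * b) := Real.cos_pos_of_mem_Ioo ⟨by linarith, hb2⟩
  have hA : 0 < Real.sinh (y / 2) := Real.sinh_pos_iff.2 (by positivity)
  have hB : 0 < Real.cosh (y / 2) := Real.cosh_pos _
  have hAB : Real.sinh (y / 2) < Real.cosh (y / 2) := Real.sinh_lt_cosh _
  have hT : Real.tanh (y / 2) = Real.sinh (y / 2) / Real.cosh (y / 2) :=
    Real.tanh_eq_sinh_div_cosh _
  obtain ⟨δ, hδ⟩ : ∃ δ, δ = dl y b := ⟨_, rfl⟩
  have htan : Real.tan δ = Real.tanh (y / 2) * (Real.cos (π * b) / Real.sin (π * b)) := by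
    rw [hδ, dl, Real.tan_arctan]
  have hδ0 : 0 < δ := by
    rw [hδ, dl]
    apply Real.arctan_pos.2
    rw [hT]
    positivity
  have hδ1 : δ < π / 2 := by
    rw [hδ, dl]
    exact Real.arctan_lt_pi_div_two _
  have hcd : 0 < Real.cos δ := Real.cos_pos_of_mem_Ioo ⟨by linarith, hδ1⟩
  have hsd : 0 < Real.sin δ := Real.sin_pos_of_pos_of_lt_pi hδ0 (by linarith)
  -- `sin δ cosh sin = sinh cos cos δ`
  have hrel : Real.sin δ * (Real.cosh (y / 2) * Real.sin (π * b)) =
      Real.sinh (y / 2) * Real.cos (π * b) * Real.cos δ := by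
    rw [Real.tan_eq_sin_div_cos, hT] at htan
    rw [div_eq_iff hcd.ne'] at htan
    rw [htan]
    field_simp
  have hδα : δ < π / 2 - π * b := by
    by_contra hcon
    push Not at hcon
    have h2 : Real.tan (π / 2 - π * b) ≤ Real.tan δ := by
      rcases eq_or_lt_of_le hcon with h | h
      · rw [h]
      · exact (Real.tan_lt_tan_of_nonneg_of_lt_pi_div_two (by linarith) hδ1 h).le
    rw [Real.tan_pi_div_two_sub, Real.tan_eq_sin_div_cos, inv_div, htan] at h2
    have h3 : 0 < Real.cos (π * b) / Real.sin (π * b) := div_pos hc hs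
    have h4 : Real.tanh (y / 2) < 1 := by
      rw [hT, div_lt_one hB]
      exact hAB
    nlinarith
  have e1 : Real.sin (π / 2 - π * b + δ) = Real.cos (π * b) * Real.cos δ +
      Real.sin (π * b) * Real.sin δ := by
    rw [Real.sin_add, Real.sin_pi_div_two_sub, Real.cos_pi_div_two_sub]
  have e2 : Real.sin (π / 2 - π * b - δ) = Real.cos (π * b) * Real.cos δ -
      Real.sin (π * b) * Real.sin δ := by
    rw [Real.sin_sub, Real.sin_pi_div_two_sub, Real.cos_pi_div_two_sub]
  have s1 : 0 < Real.sin (π / 2 - π * b + δ) :=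
    Real.sin_pos_of_pos_of_lt_pi (by linarith) (by linarith)
  have s2 : 0 < Real.sin (π / 2 - π * b - δ) :=
    Real.sin_pos_of_pos_of_lt_pi (by linarith) (by linarith)
  -- the squares
  have c1 : Real.cosh y = Real.cosh (y / 2) ^ 2 + Real.sinh (y / 2) ^ 2 := by
    rw [← Real.cosh_two_mul]
    congr 1
    ring
  have c2 : Real.cosh (y / 2) ^ 2 = Real.sinh (y / 2) ^ 2 + 1 := Real.cosh_sq _
  have c3 : Real.cos (2 * π * b) = 2 * Real.cos (π * b) ^ 2 - 1 := by
    rw [← Real.cos_two_mul]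
    congr 1
    ring
  have c4 := Real.sin_sq_add_cos_sq (π * b)
  have c5 := Real.sin_sq_add_cos_sq δ
  have hexp : Real.exp y * (Real.cosh (y / 2) - Real.sinh (y / 2)) =
      Real.cosh (y / 2) + Real.sinh (y / 2) := by
    rw [Real.cosh_sub_sinh, Real.cosh_add_sinh, ← Real.exp_add]
    congr 1
    ring
  refine ⟨by rw [← hδ]; exact hδ0, by rw [← hδ]; exact hδα, by rw [← hδ]; exact s1,
    by rw [← hδ]; exact s2, ?_, ?_⟩
  · rw [← hδ, ← Real.log_div (by positivity) (by positivity)]
    have : 2 * Real.sin (π / 2 - π * b + δ) / (2 * Real.sin (π / 2 - π * b - δ)) =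
        Real.exp y := by
      rw [div_eq_iff (by positivity), e1, e2]
      -- multiply by `cosh (y/2)`
      have hBne := hB.ne'
      apply mul_left_cancel₀ hBne
      have f1 : Real.cosh (y / 2) * (2 * (Real.cos (π * b) * Real.cos δ +
          Real.sin (π * b) * Real.sin δ)) = 2 * (Real.cos (π * b) * Real.cos δ) *
          (Real.cosh (y / 2) + Real.sinh (y / 2)) := by
        linear_combination 2 * hrel
      have f2 : Real.cosh (y / 2) * (Real.exp y * (2 * (Real.cos (π * b) * Real.cos δ -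
          Real.sin (π * b) * Real.sin δ))) = 2 * (Real.cos (π * b) * Real.cos δ) *
          (Real.exp y * (Real.cosh (y / 2) - Real.sinh (y / 2))) := by
        linear_combination (-2 * Real.exp y) * hrel
      rw [f1, f2, hexp]
    rw [this, Real.log_exp]
  · have hpos : 0 < 2 * Real.cosh y - 2 * Real.cos (2 * π * b) := by
      have h2 := Real.cos_le_one (2 * π * b)
      have h3 := Real.one_lt_cosh.2 hy.ne'
      linarith
    rw [← hδ, ← Real.log_mul hpos.ne' (by positivity), ← Real.log_mul (by positivity)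
      (by positivity)]
    have e3 : ∀ x : ℝ, 2 * Real.log x = Real.log (x ^ 2) := fun x => by
      rw [Real.log_pow]
      norm_num
    rw [e3, e3, ← Real.log_mul (by positivity) (by positivity)]
    congr 1
    rw [e1, e2, c1, c3]
    set S := Real.sin (π * b)
    set K := Real.cos (π * b)
    set s := Real.sin δ
    set k := Real.cos δ
    set A := Real.sinh (y / 2)
    set B := Real.cosh (y / 2)
    -- `(K k)² - (S s)²` with `s B S = A K k`
    have g1 : S ^ 2 = 1 - K ^ 2 := by linarith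
    have g2 : s ^ 2 = 1 - k ^ 2 := by linarith
    have g3 : s ^ 2 * (B ^ 2 * S ^ 2) = A ^ 2 * K ^ 2 * k ^ 2 := by
      have : (s * (B * S)) ^ 2 = (A * K * k) ^ 2 := by rw [hrel]
      linear_combination this
    have g4 : k ^ 2 * (A ^ 2 * K ^ 2 + B ^ 2 * S ^ 2) = B ^ 2 * S ^ 2 := by
      rw [g2] at g3
      linear_combination (-1 : ℝ) * g3
    have g5 : A ^ 2 * K ^ 2 + B ^ 2 * S ^ 2 = A ^ 2 + S ^ 2 := by
      rw [c2]
      linear_combination A ^ 2 * c4
    have g6 : K ^ 2 * k ^ 2 - S ^ 2 * s ^ 2 = k ^ 2 - S ^ 2 := by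
      rw [g2]
      linear_combination k ^ 2 * c4
    have g7 : (A ^ 2 + S ^ 2) * (k ^ 2 - S ^ 2) = S ^ 2 * K ^ 2 := by
      rw [g5] at g4
      have : (A ^ 2 + S ^ 2) * (k ^ 2 - S ^ 2) = k ^ 2 * (A ^ 2 + S ^ 2) -
        S ^ 2 * (A ^ 2 + S ^ 2) := by ring
      rw [this, g4, c2]
      linear_combination (-S ^ 2) * c4
    have g8 : (2 * (B ^ 2 + A ^ 2) - 2 * (2 * K ^ 2 - 1)) = 4 * (A ^ 2 + S ^ 2) := by
      rw [c2]
      linear_combination (-4 : ℝ) * c4
    rw [g8]
    linear_combination 16 * g7 + 16 * (A ^ 2 + S ^ 2) * g6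

/-- the closed form of the integral -/
noncomputable def Rr (y b : ℝ) : ℝ := 4 * Lc b - 4 * Lc (1 / 2 - b) + 2 / π * y * dl y b +
  2 * Lc ((π / 2 - π * b + dl y b) / π) + 2 * Lc ((π / 2 - π * b - dl y b) / π)

theorem dl_diff {y b : ℝ} (h0 : 0 < b) (h1 : b < 1) : ∃ d', HasDerivAt (dl y) d' b := by
  have hs : 0 < Real.sin (π * b) :=
    Real.sin_pos_of_pos_of_lt_pi (by positivity) (by nlinarith [Real.pi_pos])
  have h2 : HasDerivAt (fun b : ℝ => π * b) π b := by
    simpa using (hasDerivAt_id b).const_mul π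
  exact ⟨_, ((h2.cos.div h2.sin hs.ne').const_mul (Real.tanh (y / 2))).arctan⟩

theorem dl_contOn {y : ℝ} : ContinuousOn (dl y) (Ioo 0 1) := fun b hb => by
  obtain ⟨d', hd⟩ := dl_diff (y := y) hb.1 hb.2
  exact hd.continuousAt.continuousWithinAt

theorem Rr_deriv {y b : ℝ} (hy : 0 < y) (h0 : 0 < b) (h1 : b < 1 / 2) :
    HasDerivAt (Rr y) (-2 * gg (Real.cosh y) b) b := by
  have hpi := Real.pi_pos
  obtain ⟨d', hd⟩ := dl_diff (y := y) h0 (by linarith)
  have hD := dp hy h0 h1
  have hb2 : π * b < π / 2 := by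
    have := mul_lt_mul_of_pos_left h1 hpi
    linarith
  have hb0 : 0 < π * b := by positivity
  have h2 : HasDerivAt (fun b : ℝ => π / 2 - π * b) (-π) b := by
    have := ((hasDerivAt_id b).const_mul π).const_sub (π / 2)
    simpa using this
  have h3 := (Lc_deriv (δ := (π / 2 - π * b + dl y b) / π) (by
    apply div_pos _ hpi; linarith [hD.d0]) (by rw [div_lt_one hpi]; linarith [hD.d1])).comp b
    ((h2.add hd).div_const π)
  have h4 := (Lc_deriv (δ := (π / 2 - π * b - dl y b) / π) (by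
    apply div_pos _ hpi; linarith [hD.d1]) (by rw [div_lt_one hpi]; linarith [hD.d0])).comp b
    ((h2.sub hd).div_const π)
  have h5 := Lc_deriv (δ := b) h0 (by linarith)
  have h6 : HasDerivAt (fun b : ℝ => 1 / 2 - b) (-1) b :=
    (hasDerivAt_id' b).const_sub (1 / 2)
  have h7 := (Lc_deriv (δ := 1 / 2 - b) (by linarith) (by linarith)).comp b h6
  have h8 := ((((h5.const_mul 4).sub (h7.const_mul 4)).add (hd.const_mul (2 / π * y))).add
    (h3.const_mul 2)).add (h4.const_mul 2)
  refine HasDerivAt.congr_deriv (f := Rr y) h8 ?_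
  rw [mul_div_cancel₀ _ hpi.ne', mul_div_cancel₀ _ hpi.ne']
  have e1 : Real.sin (π * (1 / 2 - b)) = Real.cos (π * b) := by
    rw [show π * (1 / 2 - b) = π / 2 - π * b by ring, Real.sin_pi_div_two_sub]
  rw [e1]
  have e2 := hD.ey
  have e3 := hD.es
  unfold gg
  set L1 := Real.log (2 * Real.sin (π / 2 - π * b + dl y b))
  set L2 := Real.log (2 * Real.sin (π / 2 - π * b - dl y b))
  set L3 := Real.log (2 * Real.sin (π * b))
  set L4 := Real.log (2 * Real.cos (π * b))
  set L5 := Real.log (2 * Real.cosh y - 2 * Real.cos (2 * π * b))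
  have e4 : L5 = 2 * L3 + 2 * L4 - L1 - L2 := by linarith
  rw [e4]
  field_simp
  linear_combination (-2 * d') * e2

theorem Rr_eq {y b : ℝ} (hy : 0 < y) (h0 : 0 < b) (h1 : b < 1 / 2) :
    ∫ t in b..(1 - b), gg (Real.cosh y) t = Rr y b := by
  have hpi := Real.pi_pos
  have hC := Real.one_lt_cosh.2 hy.ne'
  have hi : ∀ p q : ℝ, IntervalIntegrable (gg (Real.cosh y)) volume p q :=
    fun p q => (gg_continuous hC).intervalIntegrable p q
  obtain ⟨P, hP⟩ : ∃ P : ℝ → ℝ, P = fun z => ∫ t in (0 : ℝ)..z, gg (Real.cosh y) t := ⟨_, rfl⟩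
  have hPd : ∀ z, HasDerivAt P (gg (Real.cosh y) z) z := by
    intro z
    rw [hP]
    exact ((gg_continuous hC).integral_hasStrictDerivAt 0 z).hasDerivAt
  have hPe : ∀ u : ℝ, ∫ t in u..(1 - u), gg (Real.cosh y) t = P (1 - u) - P u := by
    intro u
    rw [hP]
    exact (intervalIntegral.integral_interval_sub_left (hi _ _) (hi _ _)).symm
  have hPc : Continuous P := continuous_iff_continuousAt.2 fun z => (hPd z).continuousAt
  have hsub : Icc b (1 / 2) ⊆ Ioo (0 : ℝ) 1 := fun u hu => ⟨by linarith [hu.1], by linarith [hu.2]⟩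
  have hRc : ContinuousOn (Rr y) (Icc b (1 / 2)) := by
    have hd := (dl_contOn (y := y)).mono hsub
    unfold Rr
    have c1 : ContinuousOn (fun b : ℝ => Lc ((π / 2 - π * b + dl y b) / π)) (Icc b (1 / 2)) :=
      Lc_cont.comp_continuousOn (((by fun_prop : ContinuousOn (fun b : ℝ => π / 2 - π * b)
        (Icc b (1 / 2))).add hd).div_const π)
    have c2 : ContinuousOn (fun b : ℝ => Lc ((π / 2 - π * b - dl y b) / π)) (Icc b (1 / 2)) :=
      Lc_cont.comp_continuousOn (((by fun_prop : ContinuousOn (fun b : ℝ => π / 2 - π * b)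
        (Icc b (1 / 2))).sub hd).div_const π)
    have c3 : Continuous fun b : ℝ => 4 * Lc b - 4 * Lc (1 / 2 - b) :=
      (continuous_const.mul Lc_cont).sub (continuous_const.mul (Lc_cont.comp (by fun_prop)))
    exact ((c3.continuousOn.add (continuousOn_const.mul hd)).add (continuousOn_const.mul c1)).add
      (continuousOn_const.mul c2)
  obtain ⟨c, hc, h2⟩ := exists_hasDerivAt_eq_slope (fun u => (P (1 - u) - P u) - Rr y u)
    (fun _ => 0) h1 (((hPc.comp (by fun_prop : Continuous fun u : ℝ => 1 - u)).sub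
      hPc).continuousOn.sub hRc) (fun u hu => by
      have k1 : HasDerivAt (fun u : ℝ => 1 - u) (-1) u := by
        simpa using (hasDerivAt_id u).const_sub 1
      have k2 := ((hPd (1 - u)).comp u k1).sub (hPd u)
      have k3 := k2.sub (Rr_deriv hy (by linarith [hu.1]) hu.2)
      refine HasDerivAt.congr_deriv (f := fun u => (P (1 - u) - P u) - Rr y u) k3 ?_
      rw [gg_refl]
      ring)
  have hhalf : Rr y (1 / 2) = 0 := by
    have h3 : dl y (1 / 2) = 0 := by
      unfold dl
      rw [show π * (1 / 2) = π / 2 by ring, Real.cos_pi_div_two, zero_div, mul_zero,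
        Real.arctan_zero]
    unfold Rr
    rw [h3, show (π / 2 - π * (1 / 2) + 0) / π = 0 by ring,
      show (π / 2 - π * (1 / 2) - 0) / π = 0 by ring, Lc_half, sub_self]
    have h4 : Lc 0 = 0 := by simp [Lc]
    rw [h4]
    ring
  have h3 : P (1 - 1 / 2) - P (1 / 2) = 0 := by norm_num
  rw [eq_comm, div_eq_zero_iff] at h2
  rw [hPe]
  rcases h2 with h2 | h2
  · simp only [h3, hhalf] at h2
    linarith
  · linarith

/-- the growth rate -/
theorem Dn_eq {n : ℕ} (hn : 1 ≤ n) (h : Par n) : Dn n = 2 * n * (2 * Lc (bs n) +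
    Lc ((π / 2 - π * bs n + π / (2 * n)) / π) + Lc ((π / 2 - π * bs n - π / (2 * n)) / π)) := by
  have hpi := Real.pi_pos
  have hy := h.y0
  have hb1 := h.b1
  have hb2 := h.b2
  have hn0 : (0 : ℝ) < n := by exact_mod_cast hn
  have h1 : dl (yn n) (bs n) = π / (2 * n) := by
    have h2 := h.int
    rw [← h.cosh, int_poisson hy (by linarith) (by linarith)] at h2
    have h3 : dl (yn n) (bs n) = Real.arctan (Real.tanh (yn n / 2) *
      (Real.cos (π * bs n) / Real.sin (π * bs n))) := rfl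
    rw [← h3] at h2
    rw [eq_div_iff (by positivity)]
    field_simp at h2
    linarith
  have h2 := Rr_eq hy (b := bs n) (by linarith) (by linarith)
  have h3 : ∫ t in (bs n)..(1 - bs n), lf 0 (yn n) t = Rr (yn n) (bs n) := by
    rw [← h2]
    refine intervalIntegral.integral_congr fun t _ => ?_
    exact Pool.Agent.Y721.TK.lf_zero hy.ne' t
  have h4 : Lc (1 - bs n - bs n) = -(2 * Lc (bs n)) + 2 * Lc (1 / 2 - bs n) := by
    have e1 := Lc_refl (2 * bs n)
    have e2 := Lc_dup (x := bs n) (by linarith) (by linarith)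
    have e3 := Lc_refl (1 / 2 - bs n)
    rw [show 1 - (1 / 2 - bs n) = bs n + 1 / 2 by ring] at e3
    rw [show 1 - bs n - bs n = 1 - 2 * bs n by ring, e1, e2, e3]
    ring
  have h5 := Lc_refl (bs n)
  unfold Dn Es Ep Pool.Agent.Y472.K.Ep
  rw [h3, h4, h5]
  unfold Rr
  rw [h1]
  field_simp
  ring

/-- **the growth rate is the volume** -/
theorem vol {n : ℕ} (hn : 2 ≤ n) : 2 * π * Dn n = 4 * n *
    (2 * (-∫ t in (0 : ℝ)..(Real.arccos ((1 - Real.cos (π / n)) / 2) / 2),
        Real.log |2 * Real.sin t|) +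
      (-∫ t in (0 : ℝ)..(π / 2 - Real.arccos ((1 - Real.cos (π / n)) / 2) / 2 + π / (2 * n)),
        Real.log |2 * Real.sin t|) +
      -∫ t in (0 : ℝ)..(π / 2 - Real.arccos ((1 - Real.cos (π / n)) / 2) / 2 - π / (2 * n)),
        Real.log |2 * Real.sin t|) := by
  have hpi := Real.pi_pos
  have h := par n hn
  rw [Dn_eq (by omega) h, lob, lob, lob]
  have e : Real.arccos ((1 - Real.cos (π / n)) / 2) / 2 = π * bs n := by
    unfold bs ga
    field_simp
  rw [e, mul_div_cancel_left₀ _ hpi.ne']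
  ring

end Pool.Agent.H9.TP
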