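import Pool.Agent.H9.TP.Defs
import Pool.Graph.R_seed8.Y681.TK.Fin
import Pool.Graph.R_seed8.Y100.TK.Far

/-!
# Bounds and asymptotics of the additional weight
-/

set_option autoImplicit false

namespace Pool.Agent.H9.TP

open Finset Filter Topology MeasureTheory Pool.Agent.W711.HT Pool.Agent.Y472.K
open scoped Real

theorem Sd_pos0 {N m : ℕ} (hm : m < N) : 0 < Sd N m := Pool.Agent.Y100.TK.Sd_pos hm

theorem Lc_zero : Lc 0 = 0 := by simp [Lc]

/-- an upper bound for the products of sines -/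
theorem Sd_up : ∃ C : ℝ, 1 ≤ C ∧ ∀ N : ℕ, 1 ≤ N → ∀ m < N,
    Sd N m ≤ C * √N * Real.exp (-(N * Lc (m / N))) := by
  refine ⟨max 1 (Stirling.stirlingSeq 1), le_max_left _ _, fun N hN m hm => ?_⟩
  have hN' : (1 : ℝ) ≤ N := by exact_mod_cast hN
  have hN0 : (0 : ℝ) < N := by linarith
  have hsq : 1 ≤ √(N : ℝ) := by
    rw [Real.one_le_sqrt]
    exact hN'
  rcases Nat.eq_zero_or_pos m with h0 | h0
  · subst h0
    have e1 : Sd N 0 = 1 := by
      unfold Sd
      rw [range_zero, prod_empty]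
    rw [e1, Nat.cast_zero, zero_div, Lc_zero, mul_zero, neg_zero, Real.exp_zero, mul_one]
    have h1 : (1 : ℝ) ≤ max 1 (Stirling.stirlingSeq 1) := le_max_left _ _
    nlinarith
  · have h1 := Pool.Agent.Y681.TK.main_eq h0 hm
    obtain ⟨h2, -⟩ := Pool.Agent.Y681.TK.TT_bound (by omega : 0 < N) m hm
    have h3 : Stirling.stirlingSeq m ≤ Stirling.stirlingSeq 1 := by
      obtain ⟨k, rfl⟩ : ∃ k, m = k + 1 := ⟨m - 1, by omega⟩
      exact Stirling.stirlingSeq'_antitone (Nat.zero_le k)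
    have h3' : Stirling.stirlingSeq m ≤ max 1 (Stirling.stirlingSeq 1) := h3.trans (le_max_right _ _)
    have h4 : √(2 * N * Real.sin (π * (m / N)) / π) ≤ √(N : ℝ) := by
      refine Real.sqrt_le_sqrt ?_
      rw [div_le_iff₀ Real.pi_pos]
      have := Real.sin_le_one (π * (m / N))
      have hpi := Real.pi_gt_three
      nlinarith
    have h5 : Real.exp (Pool.Agent.Y681.TK.TT N m) ≤ 1 := Real.exp_le_one_iff.2 h2
    have h6 : 0 ≤ Stirling.stirlingSeq m := by
      have := Stirling.sqrt_pi_le_stirlingSeq (n := m) (by omega)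
      exact (Real.sqrt_nonneg _).trans this
    have h7 : Sd N m = Sd N m * Real.exp (N * Lc (m / N)) * Real.exp (-(N * Lc (m / N))) := by
      rw [mul_assoc, ← Real.exp_add, add_neg_cancel, Real.exp_zero, mul_one]
    have h8 : Sd N m * Real.exp (N * Lc (m / N)) ≤ max 1 (Stirling.stirlingSeq 1) * √N := by
      have e : Sd N m * Real.exp (N * Lc (m / N)) = Stirling.stirlingSeq m *
        √(2 * N * Real.sin (π * (m / N)) / π) * Real.exp (Pool.Agent.Y681.TK.TT N m) := h1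
      rw [e]
      calc Stirling.stirlingSeq m * √(2 * N * Real.sin (π * (m / N)) / π) *
            Real.exp (Pool.Agent.Y681.TK.TT N m) ≤
          Stirling.stirlingSeq m * √(2 * N * Real.sin (π * (m / N)) / π) * 1 :=
            mul_le_mul_of_nonneg_left h5 (mul_nonneg h6 (Real.sqrt_nonneg _))
        _ ≤ max 1 (Stirling.stirlingSeq 1) * √N := by
            rw [mul_one]
            exact mul_le_mul h3' h4 (Real.sqrt_nonneg _) (by positivity)
    rw [h7]
    exact mul_le_mul_of_nonneg_right h8 (Real.exp_pos _).le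

variable {n : ℕ} [NeZero n]

theorem sum_shift (f : Fin n → ℝ) : ∑ r : Fin n, f (r + 1) = ∑ r, f r :=
  Equiv.sum_comp (Equiv.addRight (1 : Fin n)) f

/-- the rate of the additional weight -/
noncomputable def Lw (n : ℕ) [NeZero n] (a b : Fin n → ℝ) : ℝ := ∑ r, 2 * (Lc (b r) - Lc (a r))

theorem Lw_eq (a b : Fin n → ℝ) : Lw n a b = ∑ r, 2 * (Lc (b r) - Lc (a (r + 1))) := by
  unfold Lw
  simp only [← Finset.mul_sum, Finset.sum_sub_distrib]
  rw [sum_shift fun r => Lc (a r)]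

theorem ww_nonneg (N : ℕ) (i j : Fin n → ℕ) : 0 ≤ ww n N i j :=
  Finset.prod_nonneg fun r _ => sq_nonneg _

/-- the far bound -/
theorem ww_bd (hSB : S_SB) {ε : ℝ} (hε : 0 < ε) : ∀ᶠ N : ℕ in atTop, ∀ i j : Fin n → ℕ,
    Ok n N i j → ww n N i j ≤
      Real.exp (N * (Lw n (fun r => (i r : ℝ) / N) (fun r => (j r : ℝ) / N) + n * ε)) := by
  obtain ⟨C, hC, hup⟩ := Sd_up
  have hpoly : ∀ᶠ N : ℕ in atTop, C * √(N : ℝ) ≤ Real.exp (ε / 4 * N) := by
    have h1 := (isLittleO_pow_exp_pos_mul_atTop 1 (show 0 < ε / 4 by linarith)).bound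
      (show 0 < 1 / C by positivity)
    have h2 := tendsto_natCast_atTop_atTop (R := ℝ) |>.eventually h1
    filter_upwards [h2, eventually_ge_atTop 1] with N hN hN1
    have hN' : (1 : ℝ) ≤ N := by exact_mod_cast hN1
    rw [Real.norm_of_nonneg (by positivity), Real.norm_of_nonneg (by positivity), one_div,
      ← div_eq_inv_mul, le_div_iff₀ (by linarith), pow_one] at hN
    have h3 : √(N : ℝ) ≤ N := by
      rw [Real.sqrt_le_left (by linarith)]
      nlinarith
    nlinarith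
  filter_upwards [hSB (ε / 4) (by positivity), hpoly, eventually_ge_atTop 1] with N h1 h2 h3 i j hij
  rw [Lw_eq]
  unfold ww
  have h4 : ∀ r : Fin n, (Sd N (i (r + 1)) / Sd N (j r)) ^ 2 ≤
      Real.exp (N * (2 * (Lc ((j r : ℝ) / N) - Lc ((i (r + 1) : ℝ) / N)) + ε)) := by
    intro r
    have hj : j r < N := lt_of_le_of_lt (hij.le r) (hij.lt r)
    have a1 := hup N h3 _ (hij.lt (r + 1))
    have a2 := h1 _ hj
    have a3 := Sd_pos0 (hij.lt (r + 1))
    have a4 := Sd_pos0 hj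
    have a5 : Sd N (i (r + 1)) ≤ Real.exp (N * (-Lc ((i (r + 1) : ℝ) / N) + ε / 4)) := by
      refine a1.trans ((mul_le_mul_of_nonneg_right h2 (Real.exp_pos _).le).trans (le_of_eq ?_))
      rw [← Real.exp_add]
      congr 1
      ring
    have a6 : Sd N (i (r + 1)) / Sd N (j r) ≤
        Real.exp (N * (-Lc ((i (r + 1) : ℝ) / N) + ε / 4)) *
          Real.exp (N * (Lc ((j r : ℝ) / N) + ε / 4)) := by
      rw [div_eq_mul_inv]
      exact mul_le_mul a5 a2 (inv_nonneg.2 a4.le) (Real.exp_pos _).le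
    have a7 : 0 ≤ Sd N (i (r + 1)) / Sd N (j r) := div_nonneg a3.le a4.le
    refine (pow_le_pow_left₀ a7 a6 2).trans (le_of_eq ?_)
    rw [← Real.exp_add, ← Real.exp_nat_mul]
    congr 1
    push_cast
    ring
  refine (Finset.prod_le_prod (fun r _ => sq_nonneg _) fun r _ => h4 r).trans (le_of_eq ?_)
  rw [← Real.exp_sum]
  congr 1
  rw [← Finset.mul_sum, Finset.sum_add_distrib, Finset.sum_const, Finset.card_univ,
    Fintype.card_fin, nsmul_eq_mul]

/-- the near bound -/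
theorem ww_near (hSDA : S_SDA) {δ₀ : ℝ} (h0 : 0 < δ₀) (h1 : δ₀ < 1 / 2) : ∃ C : ℝ, 0 < C ∧
    ∀ᶠ N : ℕ in atTop, ∀ i j : Fin n → ℕ, Ok n N i j →
      (∀ r, δ₀ * N ≤ j r ∧ (j r : ℝ) ≤ (1 - δ₀) * N) → ww n N i j ≤
      C * Real.exp (N * Lw n (fun r => (i r : ℝ) / N) (fun r => (j r : ℝ) / N)) := by
  obtain ⟨C, hC, hup⟩ := Sd_up
  obtain ⟨C', hC', hs⟩ := hSDA.1 δ₀ h0 h1
  refine ⟨((C * C') ^ 2) ^ n, by positivity, ?_⟩
  filter_upwards [hs, eventually_ge_atTop 1] with N h2 h3 i j hij hj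
  rw [Lw_eq]
  unfold ww
  have hN' : (1 : ℝ) ≤ N := by exact_mod_cast h3
  have hsq : 0 < √(N : ℝ) := Real.sqrt_pos.2 (by linarith)
  have h4 : ∀ r : Fin n, (Sd N (i (r + 1)) / Sd N (j r)) ^ 2 ≤
      (C * C') ^ 2 * Real.exp (N * (2 * (Lc ((j r : ℝ) / N) - Lc ((i (r + 1) : ℝ) / N)))) := by
    intro r
    have hjN : j r < N := lt_of_le_of_lt (hij.le r) (hij.lt r)
    have a1 := hup N h3 _ (hij.lt (r + 1))
    have a2 := h2 _ (hj r).1 (hj r).2
    have a3 := Sd_pos0 (hij.lt (r + 1))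
    have a4 := Sd_pos0 hjN
    have a6 : Sd N (i (r + 1)) / Sd N (j r) ≤
        (C * √N * Real.exp (-(N * Lc ((i (r + 1) : ℝ) / N)))) *
          (C' / √N * Real.exp (N * Lc ((j r : ℝ) / N))) := by
      rw [div_eq_mul_inv]
      exact mul_le_mul a1 a2 (inv_nonneg.2 a4.le) (by positivity)
    have a7 : 0 ≤ Sd N (i (r + 1)) / Sd N (j r) := div_nonneg a3.le a4.le
    refine (pow_le_pow_left₀ a7 a6 2).trans (le_of_eq ?_)
    have e1 : (C * √N * Real.exp (-(N * Lc ((i (r + 1) : ℝ) / N)))) *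
          (C' / √N * Real.exp (N * Lc ((j r : ℝ) / N))) = (C * C') *
          Real.exp (-(N * Lc ((i (r + 1) : ℝ) / N)) + N * Lc ((j r : ℝ) / N)) := by
      rw [Real.exp_add]
      field_simp
    rw [e1, mul_pow (C * C'), ← Real.exp_nat_mul]
    congr 2
    push_cast
    ring
  refine (Finset.prod_le_prod (fun r _ => sq_nonneg _) fun r _ => h4 r).trans (le_of_eq ?_)
  rw [Finset.prod_mul_distrib, Finset.prod_const, Finset.card_univ, Fintype.card_fin,
    ← Real.exp_sum, ← Finset.mul_sum]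

/-- the limit -/
theorem ww_lim (hSDA : S_SDA) {β : ℝ} (h0 : 0 < β) (h1 : β < 1) (i j : ℕ → Fin n → ℕ)
    (hi : ∀ r, Tendsto (fun N : ℕ => (i N r : ℝ) / N) atTop (𝓝 (1 - β)))
    (hj : ∀ r, Tendsto (fun N : ℕ => (j N r : ℝ) / N) atTop (𝓝 β)) :
    Tendsto (fun N : ℕ => ww n N (i N) (j N) *
      Real.exp (-(N * Lw n (fun r => (i N r : ℝ) / N) (fun r => (j N r : ℝ) / N)))) atTop
      (𝓝 1) := by
  have hs : 0 < Real.sin (π * β) := Pool.Agent.Y681.TK.sin_pos' h0 h1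
  have hss : Real.sin (π * (1 - β)) = Real.sin (π * β) := by
    rw [show π * (1 - β) = π - π * β by ring, Real.sin_pi_sub]
  have h2 : ∀ r : Fin n, Tendsto (fun N : ℕ => ((Sd N (i N (r + 1)) *
      Real.exp (N * Lc ((i N (r + 1) : ℝ) / N)) / √N) /
      (Sd N (j N r) * Real.exp (N * Lc ((j N r : ℝ) / N)) / √N)) ^ 2) atTop (𝓝 1) := by
    intro r
    have a1 := hSDA.2 (fun N => i N (r + 1)) (1 - β) (by linarith) (by linarith) (hi (r + 1))
    have a2 := hSDA.2 (fun N => j N r) β h0 h1 (hj r)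
    rw [hss] at a1
    have hne : √(2 * Real.sin (π * β)) ≠ 0 := (Real.sqrt_pos.2 (by linarith)).ne'
    have a3 := (a1.div a2 hne).pow 2
    rw [div_self hne, one_pow] at a3
    exact a3
  have h3 := tendsto_finsetProd (Finset.univ : Finset (Fin n)) fun r _ => h2 r
  rw [Finset.prod_const_one] at h3
  refine h3.congr' ?_
  filter_upwards [eventually_ge_atTop 1] with N hN
  have hN' : (1 : ℝ) ≤ N := by exact_mod_cast hN
  have hsq : √(N : ℝ) ≠ 0 := (Real.sqrt_pos.2 (by linarith)).ne'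
  rw [Lw_eq]
  unfold ww
  have e1 : Real.exp (-(N * ∑ r : Fin n, 2 * (Lc ((j N r : ℝ) / N) -
      Lc ((i N (r + 1) : ℝ) / N)))) =
      ∏ r : Fin n, (Real.exp (N * Lc ((i N (r + 1) : ℝ) / N)) /
        Real.exp (N * Lc ((j N r : ℝ) / N))) ^ 2 := by
    rw [Finset.mul_sum, ← Finset.sum_neg_distrib, Real.exp_sum]
    refine Finset.prod_congr rfl fun r _ => ?_
    rw [← Real.exp_sub, ← Real.exp_nat_mul]
    congr 1
    push_cast
    ring
  rw [e1, ← Finset.prod_mul_distrib]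
  refine Finset.prod_congr rfl fun r _ => ?_
  have e2 : (Sd N (i N (r + 1)) * Real.exp (N * Lc ((i N (r + 1) : ℝ) / N)) / √N) /
      (Sd N (j N r) * Real.exp (N * Lc ((j N r : ℝ) / N)) / √N) =
      (Sd N (i N (r + 1)) / Sd N (j N r)) * (Real.exp (N * Lc ((i N (r + 1) : ℝ) / N)) /
        Real.exp (N * Lc ((j N r : ℝ) / N))) := by
    rw [div_div_div_cancel_right₀ hsq, mul_div_mul_comm]
  rw [e2, mul_pow]

end Pool.Agent.H9.TP
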